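import Mathlib

set_option autoImplicit false

namespace Pool.Agent.W713.Magic

/-- bit of twice a number, truncated -/
theorem tb_dbl (X P k : ℕ) :
    (2 * X % 2 ^ P).testBit k = true ↔ (k < P ∧ 1 ≤ k ∧ X.testBit (k - 1) = true) := by
  rw [Nat.testBit_mod_two_pow]
  rcases k with _ | k
  · simp
  · simp [Nat.testBit_succ]

theorem tb_shift (X d k : ℕ) :
    (2 * (X % 2 ^ d) + 1).testBit k = true ↔
      (k = 0 ∨ (1 ≤ k ∧ k ≤ d ∧ X.testBit (k - 1) = true)) := by
  rcases k with _ | k
  · simp
  · have : (2 * (X % 2 ^ d) + 1) / 2 = X % 2 ^ d := by omega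
    rw [Nat.testBit_succ, this, Nat.testBit_mod_two_pow]
    simp

theorem tb_odd (X k : ℕ) :
    (2 * X + 1).testBit k = true ↔ (k = 0 ∨ (1 ≤ k ∧ X.testBit (k - 1) = true)) := by
  rcases k with _ | k
  · simp
  · have : (2 * X + 1) / 2 = X := by omega
    rw [Nat.testBit_succ, this]
    simp

theorem tb_even (X k : ℕ) :
    (2 * X).testBit k = true ↔ (1 ≤ k ∧ X.testBit (k - 1) = true) := by
  rcases k with _ | k
  · simp
  · have : (2 * X) / 2 = X := by omega
    rw [Nat.testBit_succ, this]
    simp

theorem tb_pow (i k : ℕ) : (2 ^ i).testBit k = true ↔ k = i := by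
  rw [Nat.testBit_two_pow]; simp; exact eq_comm

theorem tb_lt {X k i : ℕ} (h : X < 2 ^ k) (hi : X.testBit i = true) : i < k := by
  by_contra hc
  have := Nat.testBit_lt_two_pow (x := X) (i := i) (lt_of_lt_of_le h (Nat.pow_le_pow_right (by norm_num) (by omega)))
  rw [this] at hi; exact absurd hi (by simp)

/-- parameters -/
structure Par where
  t : ℕ
  d : ℕ
  e : ℕ
  r : ℕ
  b : ℕ
  j : ℕ
  L : Finset ℕ

def Par.P (p : Par) : ℕ := p.d + 1 + p.e
def Par.m (p : Par) : ℕ := p.t + p.P + 1

structure Par.OK (p : Par) : Prop where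
  ht : 1 ≤ p.t
  hd : 1 ≤ p.d
  he : p.e ≤ 1
  hr : p.r ≤ 2
  hb : p.b ≤ 2
  hj : p.j < p.d
  hL : ∀ i ∈ p.L, 1 ≤ i ∧ i ≤ p.j
  hbL : p.b ≠ 0 → p.L = ∅

def Par.A (p : Par) (i j : ℕ) : Prop :=
  (i < p.m ∧ j = i + 1) ∨ (p.t + p.d ≤ i ∧ i < p.m ∧ (j = p.m + 1 ∨ j = p.m + 2)) ∨
  (i = p.m + 1 ∧ (j = p.m + 1 ∨ j = p.m + 2)) ∨ (i = p.m + 2 ∧ j = p.m + 2)

def Par.B (p : Par) (i j : ℕ) : Prop :=
  (i + 1 < p.t ∧ j = i + 1) ∨
  (i + 1 = p.t ∧ ((p.r = 0 ∧ j = p.t) ∨ (p.r = 2 ∧ j = p.m))) ∨
  (i = p.t ∧ (j = p.m + 2 ∨ (p.b = 0 ∧ j = p.t + p.j + 1) ∨ (p.b = 2 ∧ j = p.m))) ∨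
  (p.t < i ∧ i ≤ p.t + p.d ∧ (j = i + 1 ∨ (i - p.t ∈ p.L ∧ (j = p.t + 1 ∨ j = p.m + 2)))) ∨
  (p.t + p.d < i ∧ i < p.m ∧ (j = p.t + 1 ∨ j = p.m + 1 ∨ j = p.m + 2)) ∨
  (i = p.m + 1 ∧ (j = p.t + 1 ∨ j = p.m ∨ j = p.m + 1 ∨ j = p.m + 2)) ∨
  (i = p.m + 2 ∧ (j = p.t + 1 ∨ j = p.m + 2))

def Par.M (p : Par) : NFA (Fin 2) (Fin (p.m + 3)) where
  step := fun i x => {j | if x = 0 then p.A i.val j.val else p.B i.val j.val}
  start := {⟨0, by omega⟩}
  accept := {j | j.val = p.m}

/-- configurations -/
inductive Cf where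
  | ch (i : ℕ)
  | ti (i : ℕ)
  | emp
  | ff
  | yf
  | lo (X : ℕ)
  | ri (X : ℕ) (f : Bool)
  deriving DecidableEq

open Cf

def Par.mem (p : Par) : Cf → ℕ → Prop
  | ch i, j => j = i
  | ti i, j => j = p.t + i
  | emp, _ => False
  | ff, j => j = p.m
  | yf, j => j = p.m ∨ j = p.m + 2
  | lo X, j => j = p.m + 2 ∨ (p.t < j ∧ j < p.m ∧ X.testBit (j - p.t - 1) = true)
  | ri X f, j => j = p.m + 1 ∨ j = p.m + 2 ∨ (j = p.m ∧ f = true) ∨
      (p.t < j ∧ j < p.m ∧ X.testBit (j - p.t - 1) = true)

def Par.toSet (p : Par) (c : Cf) : Set (Fin (p.m + 3)) := {j | p.mem c j.val}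

def Par.del (p : Par) (c : Cf) (x : Fin 2) : Cf :=
  match c with
  | ch i => if x = 0 then (if i < p.t then ch (i + 1) else ti 1)
            else if i + 1 < p.t then ch (i + 1)
            else if i + 1 = p.t then (if p.r = 0 then ch p.t else if p.r = 1 then emp else ff)
            else (if p.b = 0 then lo (2 ^ p.j) else if p.b = 1 then lo 0 else yf)
  | ti i => if x = 0 then (if i < p.d then ti (i + 1) else ri (2 * 2 ^ (i - 1) % 2 ^ p.P) (decide (i = p.P)))
            else if p.d < i then ri 1 false
            else if i ∈ p.L then lo (2 ^ i + 1) else ti (i + 1)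
  | emp => emp
  | ff => emp
  | yf => if x = 0 then lo 0 else lo 1
  | lo X => if x = 0 then (if X < 2 ^ (p.d - 1) then lo (2 * X)
              else ri (2 * X % 2 ^ p.P) (X.testBit (p.P - 1)))
            else (if X < 2 ^ p.d then lo (2 * X + 1) else ri (2 * (X % 2 ^ p.d) + 1) false)
  | ri X _ => if x = 0 then ri (2 * X % 2 ^ p.P) (X.testBit (p.P - 1))
            else ri (2 * (X % 2 ^ p.d) + 1) true


/-- weak invariant used for the simulation -/
def Par.W (p : Par) : Cf → Prop
  | ch i => i ≤ p.t
  | ti i => 1 ≤ i ∧ i ≤ p.d + 1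
  | lo X => X < 2 ^ (p.d + 1)
  | yf => p.b = 2
  | _ => True

theorem Par.step_ri_a (p : Par) (h : p.OK) (X : ℕ) (f : Bool) (j : ℕ) (hj : j < p.m + 3) :
    (∃ i, i < p.m + 3 ∧ p.mem (ri X f) i ∧ p.A i j) ↔
      p.mem (ri (2 * X % 2 ^ p.P) (X.testBit (p.P - 1))) j := by
  have hP : p.P = p.d + 1 + p.e := rfl
  have hm : p.m = p.t + p.P + 1 := rfl
  have hd := h.hd
  constructor
  · rintro ⟨i, hi, hmem, hA⟩
    simp only [Par.mem, Par.A] at hmem hA ⊢
    rcases hA with ⟨h1, h2⟩ | ⟨h1, h2, h3⟩ | ⟨h1, h3⟩ | ⟨h1, h2⟩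
    · rcases hmem with h4 | h4 | ⟨h4, h5⟩ | ⟨h4, h5, h6⟩
      · omega
      · omega
      · omega
      · by_cases hjm : j = p.m
        · right; right; left
          refine ⟨hjm, ?_⟩
          have : p.P - 1 = i - p.t - 1 := by omega
          rw [this]; exact h6
        · right; right; right
          refine ⟨by omega, by omega, ?_⟩
          rw [tb_dbl]
          refine ⟨by omega, by omega, ?_⟩
          have : j - p.t - 1 - 1 = i - p.t - 1 := by omega
          rw [this]; exact h6
    · rcases h3 with h3 | h3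
      · left; exact h3
      · right; left; exact h3
    · rcases h3 with h3 | h3
      · left; exact h3
      · right; left; exact h3
    · right; left; exact h2
  · intro hmem
    simp only [Par.mem] at hmem
    rcases hmem with h4 | h4 | ⟨h4, h5⟩ | ⟨h4, h5, h6⟩
    · exact ⟨p.m + 1, by omega, by simp [Par.mem], by unfold Par.A; omega⟩
    · exact ⟨p.m + 1, by omega, by simp [Par.mem], by unfold Par.A; omega⟩
    · refine ⟨p.m - 1, by omega, ?_, by unfold Par.A; omega⟩
      simp only [Par.mem]
      right; right; right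
      refine ⟨by omega, by omega, ?_⟩
      have : p.m - 1 - p.t - 1 = p.P - 1 := by omega
      rw [this]; exact h5
    · rw [tb_dbl] at h6
      obtain ⟨h7, h8, h9⟩ := h6
      refine ⟨j - 1, by omega, ?_, by unfold Par.A; omega⟩
      simp only [Par.mem]
      right; right; right
      refine ⟨by omega, by omega, ?_⟩
      have : j - 1 - p.t - 1 = j - p.t - 1 - 1 := by omega
      rw [this]; exact h9

theorem Par.step_ri_b (p : Par) (h : p.OK) (X : ℕ) (f : Bool) (j : ℕ) (hj : j < p.m + 3) :
    (∃ i, i < p.m + 3 ∧ p.mem (ri X f) i ∧ p.B i j) ↔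
      p.mem (ri (2 * (X % 2 ^ p.d) + 1) true) j := by
  have hP : p.P = p.d + 1 + p.e := rfl
  have hm : p.m = p.t + p.P + 1 := rfl
  have hd := h.hd
  have ht := h.ht
  constructor
  · rintro ⟨i, hi, hmem, hB⟩
    simp only [Par.mem, Par.B] at hmem hB ⊢
    rw [tb_shift]
    have hti : p.t < i := by
      rcases hmem with h4 | h4 | ⟨h4, h5⟩ | ⟨h4, h5, h6⟩ <;> omega
    rcases hB with h1 | h1 | h1 | ⟨h1, h2, h3⟩ | ⟨h1, h2, h3⟩ | ⟨h1, h3⟩ | ⟨h1, h3⟩
    · omega
    · omega
    · omega
    · rcases h3 with h3 | ⟨_, h3⟩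
      · rcases hmem with h4 | h4 | ⟨h4, h5⟩ | ⟨h4, h5, h6⟩
        · omega
        · omega
        · omega
        · right; right; right
          refine ⟨by omega, by omega, Or.inr ⟨by omega, by omega, ?_⟩⟩
          have : j - p.t - 1 - 1 = i - p.t - 1 := by omega
          rw [this]; exact h6
      · rcases h3 with h3 | h3
        · right; right; right
          exact ⟨by omega, by omega, Or.inl (by omega)⟩
        · right; left; exact h3
    · rcases h3 with h3 | h3 | h3
      · right; right; right
        exact ⟨by omega, by omega, Or.inl (by omega)⟩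
      · left; exact h3
      · right; left; exact h3
    · rcases h3 with h3 | h3 | h3 | h3
      · right; right; right
        exact ⟨by omega, by omega, Or.inl (by omega)⟩
      · right; right; left; exact ⟨h3, trivial⟩
      · left; exact h3
      · right; left; exact h3
    · rcases h3 with h3 | h3
      · right; right; right
        exact ⟨by omega, by omega, Or.inl (by omega)⟩
      · right; left; exact h3
  · intro hmem
    simp only [Par.mem] at hmem
    rcases hmem with h4 | h4 | ⟨h4, h5⟩ | ⟨h4, h5, h6⟩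
    · exact ⟨p.m + 1, by omega, by simp [Par.mem], by unfold Par.B; omega⟩
    · exact ⟨p.m + 1, by omega, by simp [Par.mem], by unfold Par.B; omega⟩
    · exact ⟨p.m + 1, by omega, by simp [Par.mem], by unfold Par.B; omega⟩
    · rw [tb_shift] at h6
      rcases h6 with h6 | ⟨h7, h8, h9⟩
      · exact ⟨p.m + 1, by omega, by simp [Par.mem], by unfold Par.B; omega⟩
      · refine ⟨j - 1, by omega, ?_, ?_⟩
        · simp only [Par.mem]
          right; right; right
          refine ⟨by omega, by omega, ?_⟩
          have : j - 1 - p.t - 1 = j - p.t - 1 - 1 := by omega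
          rw [this]; exact h9
        · simp only [Par.B]
          right; right; right; left
          exact ⟨by omega, by omega, Or.inl (by omega)⟩

theorem high_bit {X d : ℕ} (hd : 1 ≤ d) (h1 : X < 2 ^ (d + 1)) (h2 : ¬ X < 2 ^ (d - 1)) :
    X.testBit (d - 1) = true ∨ X.testBit d = true := by
  by_contra hc
  push Not at hc
  apply h2
  apply Nat.lt_pow_two_of_testBit
  intro i hi
  by_contra hb
  have hb' : X.testBit i = true := by simpa using hb
  have := tb_lt h1 hb'
  rcases (by omega : i = d - 1 ∨ i = d) with h | h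
  · subst h; exact hc.1 hb'
  · subst h; exact hc.2 hb'

theorem high_bit2 {X d : ℕ} (h1 : X < 2 ^ (d + 1)) (h2 : ¬ X < 2 ^ d) :
    X.testBit d = true := by
  by_contra hc
  apply h2
  apply Nat.lt_pow_two_of_testBit
  intro i hi
  by_contra hb
  have hb' : X.testBit i = true := by simpa using hb
  have := tb_lt h1 hb'
  have : i = d := by omega
  subst this; exact hc hb'

theorem Par.step_lo_a (p : Par) (h : p.OK) (X : ℕ) (hX : X < 2 ^ (p.d + 1)) (j : ℕ)
    (hj : j < p.m + 3) :
    (∃ i, i < p.m + 3 ∧ p.mem (lo X) i ∧ p.A i j) ↔ p.mem (p.del (lo X) 0) j := by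
  have hP : p.P = p.d + 1 + p.e := rfl
  have hm : p.m = p.t + p.P + 1 := rfl
  have hd := h.hd
  simp only [Par.del, if_true]
  by_cases hlt : X < 2 ^ (p.d - 1)
  · rw [if_pos hlt]
    constructor
    · rintro ⟨i, hi, hmem, hA⟩
      simp only [Par.mem, Par.A] at hmem hA ⊢
      rw [tb_even]
      rcases hmem with h4 | ⟨h4, h5, h6⟩
      · left; omega
      · have hlow := tb_lt hlt h6
        right
        have hji : j = i + 1 := by omega
        refine ⟨by omega, by omega, by omega, ?_⟩
        have : j - p.t - 1 - 1 = i - p.t - 1 := by omega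
        rw [this]; exact h6
    · intro hmem
      simp only [Par.mem] at hmem
      rw [tb_even] at hmem
      rcases hmem with h4 | ⟨h4, h5, h6, h7⟩
      · exact ⟨p.m + 2, by omega, by simp [Par.mem], by unfold Par.A; omega⟩
      · refine ⟨j - 1, by omega, ?_, by unfold Par.A; omega⟩
        simp only [Par.mem]
        right
        refine ⟨by omega, by omega, ?_⟩
        have : j - 1 - p.t - 1 = j - p.t - 1 - 1 := by omega
        rw [this]; exact h7
  · rw [if_neg hlt]
    have hb := high_bit hd hX hlt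
    constructor
    · rintro ⟨i, hi, hmem, hA⟩
      simp only [Par.mem, Par.A] at hmem hA ⊢
      rw [tb_dbl]
      rcases hmem with h4 | ⟨h4, h5, h6⟩
      · right; left; omega
      · rcases hA with ⟨h1, h2⟩ | ⟨h1, h2, h3⟩ | ⟨h1, h3⟩ | ⟨h1, h2⟩
        · by_cases hjm : j = p.m
          · right; right; left
            refine ⟨hjm, ?_⟩
            have : p.P - 1 = i - p.t - 1 := by omega
            rw [this]; exact h6
          · right; right; right
            refine ⟨by omega, by omega, by omega, by omega, ?_⟩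
            have : j - p.t - 1 - 1 = i - p.t - 1 := by omega
            rw [this]; exact h6
        · rcases h3 with h3 | h3
          · left; exact h3
          · right; left; exact h3
        · omega
        · omega
    · intro hmem
      simp only [Par.mem] at hmem
      rw [tb_dbl] at hmem
      rcases hmem with h4 | h4 | ⟨h4, h5⟩ | ⟨h4, h5, h6, h7, h8⟩
      · rcases hb with hb | hb
        · refine ⟨p.t + p.d, by omega, ?_, by unfold Par.A; omega⟩
          simp only [Par.mem]; right
          refine ⟨by omega, by omega, ?_⟩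
          have : p.t + p.d - p.t - 1 = p.d - 1 := by omega
          rw [this]; exact hb
        · refine ⟨p.t + p.d + 1, by omega, ?_, by unfold Par.A; omega⟩
          simp only [Par.mem]; right
          refine ⟨by omega, by omega, ?_⟩
          have : p.t + p.d + 1 - p.t - 1 = p.d := by omega
          rw [this]; exact hb
      · exact ⟨p.m + 2, by omega, by simp [Par.mem], by unfold Par.A; omega⟩
      · refine ⟨p.m - 1, by omega, ?_, by unfold Par.A; omega⟩
        simp only [Par.mem]
        right
        refine ⟨by omega, by omega, ?_⟩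
        have : p.m - 1 - p.t - 1 = p.P - 1 := by omega
        rw [this]; exact h5
      · refine ⟨j - 1, by omega, ?_, by unfold Par.A; omega⟩
        simp only [Par.mem]
        right
        refine ⟨by omega, by omega, ?_⟩
        have : j - 1 - p.t - 1 = j - p.t - 1 - 1 := by omega
        rw [this]; exact h8

theorem Par.step_lo_b (p : Par) (h : p.OK) (X : ℕ) (hX : X < 2 ^ (p.d + 1)) (j : ℕ)
    (hj : j < p.m + 3) :
    (∃ i, i < p.m + 3 ∧ p.mem (lo X) i ∧ p.B i j) ↔ p.mem (p.del (lo X) 1) j := by
  have hP : p.P = p.d + 1 + p.e := rfl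
  have hm : p.m = p.t + p.P + 1 := rfl
  have hd := h.hd
  have ht := h.ht
  simp only [Par.del, one_ne_zero, if_false]
  by_cases hlt : X < 2 ^ p.d
  · rw [if_pos hlt]
    constructor
    · rintro ⟨i, hi, hmem, hB⟩
      simp only [Par.mem, Par.B] at hmem hB ⊢
      rw [tb_odd]
      have hti : p.t < i := by
        rcases hmem with h4 | ⟨h4, h5, h6⟩ <;> omega
      have hti2 : i ≤ p.t + p.d ∨ i = p.m + 2 := by
        rcases hmem with h4 | ⟨h4, h5, h6⟩
        · right; exact h4
        · left; have := tb_lt hlt h6; omega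
      rcases hB with h1 | h1 | h1 | ⟨h1, h2, h3⟩ | ⟨h1, h2, h3⟩ | ⟨h1, h3⟩ | ⟨h1, h3⟩
      · omega
      · omega
      · omega
      · rcases h3 with h3 | ⟨_, h3⟩
        · rcases hmem with h4 | ⟨h4, h5, h6⟩
          · omega
          · right
            refine ⟨by omega, by omega, Or.inr ⟨by omega, ?_⟩⟩
            have : j - p.t - 1 - 1 = i - p.t - 1 := by omega
            rw [this]; exact h6
        · rcases h3 with h3 | h3
          · right
            exact ⟨by omega, by omega, Or.inl (by omega)⟩
          · left; exact h3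
      · omega
      · omega
      · rcases h3 with h3 | h3
        · right
          exact ⟨by omega, by omega, Or.inl (by omega)⟩
        · left; exact h3
    · intro hmem
      simp only [Par.mem] at hmem
      rw [tb_odd] at hmem
      rcases hmem with h4 | ⟨h4, h5, h6 | ⟨h6, h7⟩⟩
      · exact ⟨p.m + 2, by omega, by simp [Par.mem], by unfold Par.B; omega⟩
      · exact ⟨p.m + 2, by omega, by simp [Par.mem], by unfold Par.B; omega⟩
      · have hlow := tb_lt hlt h7
        refine ⟨j - 1, by omega, ?_, ?_⟩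
        · simp only [Par.mem]
          right
          refine ⟨by omega, by omega, ?_⟩
          have : j - 1 - p.t - 1 = j - p.t - 1 - 1 := by omega
          rw [this]; exact h7
        · simp only [Par.B]
          right; right; right; left
          exact ⟨by omega, by omega, Or.inl (by omega)⟩
  · rw [if_neg hlt]
    have hb := high_bit2 hX hlt
    constructor
    · rintro ⟨i, hi, hmem, hB⟩
      simp only [Par.mem, Par.B] at hmem hB ⊢
      rw [tb_shift]
      have hti : p.t < i := by
        rcases hmem with h4 | ⟨h4, h5, h6⟩ <;> omega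
      rcases hB with h1 | h1 | h1 | ⟨h1, h2, h3⟩ | ⟨h1, h2, h3⟩ | ⟨h1, h3⟩ | ⟨h1, h3⟩
      · omega
      · omega
      · omega
      · rcases h3 with h3 | ⟨_, h3⟩
        · rcases hmem with h4 | ⟨h4, h5, h6⟩
          · omega
          · right; right; right
            refine ⟨by omega, by omega, Or.inr ⟨by omega, by omega, ?_⟩⟩
            have : j - p.t - 1 - 1 = i - p.t - 1 := by omega
            rw [this]; exact h6
        · rcases h3 with h3 | h3
          · right; right; right
            exact ⟨by omega, by omega, Or.inl (by omega)⟩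
          · right; left; exact h3
      · rcases h3 with h3 | h3 | h3
        · right; right; right
          exact ⟨by omega, by omega, Or.inl (by omega)⟩
        · left; exact h3
        · right; left; exact h3
      · rcases hmem with h4 | ⟨h4, h5, h6⟩ <;> omega
      · rcases h3 with h3 | h3
        · right; right; right
          exact ⟨by omega, by omega, Or.inl (by omega)⟩
        · right; left; exact h3
    · intro hmem
      simp only [Par.mem] at hmem
      rw [tb_shift] at hmem
      rcases hmem with h4 | h4 | ⟨h4, h5⟩ | ⟨h4, h5, h6 | ⟨h6, h7, h8⟩⟩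
      · refine ⟨p.t + p.d + 1, by omega, ?_, by unfold Par.B; omega⟩
        simp only [Par.mem]; right
        refine ⟨by omega, by omega, ?_⟩
        have : p.t + p.d + 1 - p.t - 1 = p.d := by omega
        rw [this]; exact hb
      · exact ⟨p.m + 2, by omega, by simp [Par.mem], by unfold Par.B; omega⟩
      · exact absurd h5 (by simp)
      · exact ⟨p.m + 2, by omega, by simp [Par.mem], by unfold Par.B; omega⟩
      · refine ⟨j - 1, by omega, ?_, ?_⟩
        · simp only [Par.mem]
          right
          refine ⟨by omega, by omega, ?_⟩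
          have : j - 1 - p.t - 1 = j - p.t - 1 - 1 := by omega
          rw [this]; exact h8
        · simp only [Par.B]
          right; right; right; left
          exact ⟨by omega, by omega, Or.inl (by omega)⟩

end Pool.Agent.W713.Magic
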