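import Pool.Agent.W713.MagicA

set_option autoImplicit false

namespace Pool.Agent.W713.Magic

open Cf

theorem two_mul_pow_pred {i : ℕ} (hi : 1 ≤ i) : 2 * 2 ^ (i - 1) = 2 ^ i := by
  obtain ⟨k, rfl⟩ : ∃ k, i = k + 1 := ⟨i - 1, by omega⟩
  simp [pow_succ]; ring

theorem Par.step_a (p : Par) (h : p.OK) (c : Cf) (hc : p.W c) (j : ℕ) (hj : j < p.m + 3) :
    (∃ i, i < p.m + 3 ∧ p.mem c i ∧ p.A i j) ↔ p.mem (p.del c 0) j := by
  have hP : p.P = p.d + 1 + p.e := rfl
  have hm : p.m = p.t + p.P + 1 := rfl
  have hd := h.hd
  have ht := h.ht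
  cases c with
  | ch i =>
    have hi : i ≤ p.t := hc
    simp only [Par.del, if_true]
    constructor
    · rintro ⟨i', _, hm', hA⟩
      simp only [Par.mem] at hm'
      subst hm'
      unfold Par.A at hA
      split_ifs <;> simp only [Par.mem] <;> omega
    · intro hm'
      refine ⟨i, by omega, rfl, ?_⟩
      unfold Par.A
      split_ifs at hm' <;> simp only [Par.mem] at hm' <;> omega
  | ti i =>
    obtain ⟨hi1, hi2⟩ : 1 ≤ i ∧ i ≤ p.d + 1 := hc
    simp only [Par.del, if_true]
    constructor
    · rintro ⟨i', _, hm', hA⟩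
      simp only [Par.mem] at hm'
      subst hm'
      unfold Par.A at hA
      split_ifs
      · simp only [Par.mem]; omega
      · simp only [Par.mem, tb_dbl, tb_pow, decide_eq_true_eq]; omega
    · intro hm'
      refine ⟨p.t + i, by omega, rfl, ?_⟩
      unfold Par.A
      split_ifs at hm'
      · simp only [Par.mem] at hm'; omega
      · simp only [Par.mem, tb_dbl, tb_pow, decide_eq_true_eq] at hm'; omega
  | emp => simp [Par.del, Par.mem]
  | ff =>
    simp only [Par.del, Par.mem]
    constructor
    · rintro ⟨i', _, hm', hA⟩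
      subst hm'
      unfold Par.A at hA
      omega
    · intro hf; exact hf.elim
  | yf =>
    simp only [Par.del, Par.mem, if_true]
    constructor
    · rintro ⟨i', _, hm', hA⟩
      unfold Par.A at hA
      left; omega
    · rintro (h1 | ⟨_, _, h1⟩)
      · exact ⟨p.m + 2, by omega, by omega, by unfold Par.A; omega⟩
      · simp at h1
  | lo X => exact p.step_lo_a h X hc j hj
  | ri X f => exact p.step_ri_a h X f j hj

theorem Par.step_b (p : Par) (h : p.OK) (c : Cf) (hc : p.W c) (j : ℕ) (hj : j < p.m + 3) :
    (∃ i, i < p.m + 3 ∧ p.mem c i ∧ p.B i j) ↔ p.mem (p.del c 1) j := by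
  have hP : p.P = p.d + 1 + p.e := rfl
  have hm : p.m = p.t + p.P + 1 := rfl
  have hd := h.hd
  have ht := h.ht
  have hr := h.hr
  have hb := h.hb
  have hjj := h.hj
  cases c with
  | ch i =>
    have hi : i ≤ p.t := hc
    have hBi : ∀ j', p.B i j' → ((i + 1 < p.t ∧ j' = i + 1) ∨
        (i + 1 = p.t ∧ ((p.r = 0 ∧ j' = p.t) ∨ (p.r = 2 ∧ j' = p.m))) ∨
        (i = p.t ∧ (j' = p.m + 2 ∨ (p.b = 0 ∧ j' = p.t + p.j + 1) ∨ (p.b = 2 ∧ j' = p.m)))) := by
      intro j' hB
      rcases hB with h1 | h1 | h1 | ⟨h1, _⟩ | ⟨h1, _⟩ | ⟨h1, _⟩ | ⟨h1, _⟩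
      · left; exact h1
      · right; left; exact h1
      · right; right; exact h1
      all_goals omega
    rcases Nat.lt_or_ge (i + 1) p.t with h1 | h1
    · have hdel : p.del (ch i) 1 = ch (i + 1) := by simp [Par.del, h1]
      rw [hdel]
      simp only [Par.mem]
      constructor
      · rintro ⟨i', _, hm', hB⟩
        subst hm'
        have := hBi _ hB
        omega
      · intro hm'
        exact ⟨i, by omega, rfl, Or.inl ⟨h1, hm'⟩⟩
    · rcases Nat.eq_or_lt_of_le h1 with h2 | h2
      · have hn : ¬ (i + 1 < p.t) := by omega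
        rcases (by omega : p.r = 0 ∨ p.r = 1 ∨ p.r = 2) with h3 | h3 | h3
        · have hdel : p.del (ch i) 1 = ch p.t := by simp [Par.del, ← h2, h3]
          rw [hdel]
          simp only [Par.mem]
          constructor
          · rintro ⟨i', _, hm', hB⟩
            subst hm'
            have := hBi _ hB
            omega
          · intro hm'
            exact ⟨i, by omega, rfl, Or.inr (Or.inl ⟨by omega, Or.inl ⟨h3, hm'⟩⟩)⟩
        · have hdel : p.del (ch i) 1 = emp := by simp [Par.del, ← h2, h3]
          rw [hdel]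
          simp only [Par.mem]
          constructor
          · rintro ⟨i', _, hm', hB⟩
            subst hm'
            have := hBi _ hB
            omega
          · intro hm'
            exact hm'.elim
        · have hdel : p.del (ch i) 1 = ff := by simp [Par.del, ← h2, h3]
          rw [hdel]
          simp only [Par.mem]
          constructor
          · rintro ⟨i', _, hm', hB⟩
            subst hm'
            have := hBi _ hB
            omega
          · intro hm'
            exact ⟨i, by omega, rfl, Or.inr (Or.inl ⟨by omega, Or.inr ⟨h3, hm'⟩⟩)⟩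
      · have hit : i = p.t := by omega
        have hn1 : ¬ (i + 1 < p.t) := by omega
        have hn2 : ¬ (i + 1 = p.t) := by omega
        rcases (by omega : p.b = 0 ∨ p.b = 1 ∨ p.b = 2) with h3 | h3 | h3
        · have hdel : p.del (ch i) 1 = lo (2 ^ p.j) := by simp [Par.del, hn1, hn2, h3]
          rw [hdel]
          simp only [Par.mem, tb_pow]
          constructor
          · rintro ⟨i', _, hm', hB⟩
            subst hm'
            have := hBi _ hB
            omega
          · intro hm'
            exact ⟨i, by omega, rfl, Or.inr (Or.inr (Or.inl ⟨hit, by omega⟩))⟩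
        · have hdel : p.del (ch i) 1 = lo 0 := by simp [Par.del, hn1, hn2, h3]
          rw [hdel]
          simp only [Par.mem, Nat.zero_testBit]
          constructor
          · rintro ⟨i', _, hm', hB⟩
            subst hm'
            have := hBi _ hB
            left
            omega
          · rintro (hm' | ⟨_, _, hm'⟩)
            · exact ⟨i, by omega, rfl, Or.inr (Or.inr (Or.inl ⟨hit, by omega⟩))⟩
            · exact absurd hm' (by simp)
        · have hdel : p.del (ch i) 1 = yf := by simp [Par.del, hn1, hn2, h3]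
          rw [hdel]
          simp only [Par.mem]
          constructor
          · rintro ⟨i', _, hm', hB⟩
            subst hm'
            have := hBi _ hB
            omega
          · intro hm'
            exact ⟨i, by omega, rfl, Or.inr (Or.inr (Or.inl ⟨hit, by omega⟩))⟩
  | ti i =>
    obtain ⟨hi1, hi2⟩ : 1 ≤ i ∧ i ≤ p.d + 1 := hc
    have e1 : (2 : ℕ) ^ i + 1 = 2 * 2 ^ (i - 1) + 1 := by rw [two_mul_pow_pred hi1]
    have e2 : (1 : ℕ) = 2 ^ 0 := rfl
    have e3 : p.t + i - p.t = i := by omega
    simp only [Par.del, one_ne_zero, if_false]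
    constructor
    · rintro ⟨i', _, hm', hB⟩
      simp only [Par.mem] at hm'
      subst hm'
      unfold Par.B at hB
      rw [e3] at hB
      split_ifs with h1 h2
      · have := tb_pow 0 (j - p.t - 1)
        simp only [pow_zero] at this
        simp only [Par.mem, this]; omega
      · rw [e1]
        simp only [Par.mem, tb_odd, tb_pow]; omega
      · simp only [Par.mem]
        rcases hB with h3 | h3 | h3 | ⟨h3, h4, h5 | h5⟩ | h3 | h3 | h3
        any_goals omega
        exact absurd h5.1 h2
    · intro hm'
      refine ⟨p.t + i, by omega, rfl, ?_⟩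
      unfold Par.B
      rw [e3]
      split_ifs at hm' with h1 h2
      · have := tb_pow 0 (j - p.t - 1)
        simp only [pow_zero] at this
        simp only [Par.mem, this] at hm'
        right; right; right; right; left
        refine ⟨by omega, by omega, ?_⟩
        rcases hm' with h3 | h3 | h3 | h3
        · omega
        · omega
        · exact absurd h3.2 (by simp)
        · omega
      · rw [e1] at hm'
        simp only [Par.mem, tb_odd, tb_pow] at hm'
        right; right; right; left
        refine ⟨by omega, by omega, ?_⟩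
        rcases hm' with h3 | ⟨h3, h4, h5 | h5⟩
        · right; exact ⟨h2, by omega⟩
        · right; exact ⟨h2, by omega⟩
        · left; omega
      · simp only [Par.mem] at hm'
        right; right; right; left
        exact ⟨by omega, by omega, Or.inl (by omega)⟩
  | emp => simp [Par.del, Par.mem]
  | ff =>
    simp only [Par.del, Par.mem]
    constructor
    · rintro ⟨i', _, hm', hB⟩
      subst hm'
      unfold Par.B at hB
      omega
    · intro hf; exact hf.elim
  | yf =>
    have := tb_pow 0 (j - p.t - 1)
    simp only [pow_zero] at this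
    simp only [Par.del, Par.mem, one_ne_zero, if_false, this]
    constructor
    · rintro ⟨i', _, hm', hB⟩
      unfold Par.B at hB
      omega
    · intro h1
      exact ⟨p.m + 2, by omega, by omega, by unfold Par.B; omega⟩
  | lo X => exact p.step_lo_b h X hc j hj
  | ri X f => exact p.step_ri_b h X f j hj

theorem fin2_cases (x : Fin 2) : x = 0 ∨ x = 1 := by omega

theorem Par.sim (p : Par) (h : p.OK) (c : Cf) (hc : p.W c) (x : Fin 2) :
    p.M.stepSet (p.toSet c) x = p.toSet (p.del c x) := by
  ext ⟨j, hj⟩
  rw [NFA.mem_stepSet]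
  rcases fin2_cases x with rfl | rfl
  · have := p.step_a h c hc j hj
    simp only [Par.toSet, Set.mem_ofPred_eq]
    rw [← this]
    constructor
    · rintro ⟨⟨i, hi⟩, h1, h2⟩
      exact ⟨i, hi, h1, by simpa [Par.M] using h2⟩
    · rintro ⟨i, hi, h1, h2⟩
      exact ⟨⟨i, hi⟩, h1, by simpa [Par.M] using h2⟩
  · have := p.step_b h c hc j hj
    simp only [Par.toSet, Set.mem_ofPred_eq]
    rw [← this]
    constructor
    · rintro ⟨⟨i, hi⟩, h1, h2⟩
      exact ⟨i, hi, h1, by simpa [Par.M] using h2⟩
    · rintro ⟨i, hi, h1, h2⟩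
      exact ⟨⟨i, hi⟩, h1, by simpa [Par.M] using h2⟩

theorem Par.W_del (p : Par) (h : p.OK) (c : Cf) (hc : p.W c) (x : Fin 2) : p.W (p.del c x) := by
  have hd := h.hd
  have ht := h.ht
  have hb := h.hb
  have hjj := h.hj
  have e0 : 2 * 2 ^ (p.d - 1) = 2 ^ p.d := two_mul_pow_pred hd
  have e1 : (2 : ℕ) ^ (p.d + 1) = 2 * 2 ^ p.d := by ring
  cases c with
  | ch i =>
    have hi : i ≤ p.t := hc
    have h3 : (2 : ℕ) ^ p.j < 2 ^ (p.d + 1) := Nat.pow_lt_pow_right (by norm_num) (by omega)
    simp only [Par.del]
    split_ifs <;> simp only [Par.W] <;> first | omega | exact h3 | positivity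
  | ti i =>
    obtain ⟨hi1, hi2⟩ : 1 ≤ i ∧ i ≤ p.d + 1 := hc
    simp only [Par.del]
    split_ifs with h1 h2 h3 h4
    · simp only [Par.W]; omega
    · simp only [Par.W]
    · simp only [Par.W]
    · have := h.hL i h4
      have h5 : (2 : ℕ) ^ i ≤ 2 ^ (p.d - 1) := Nat.pow_le_pow_right (by norm_num) (by omega)
      have h6 : 1 ≤ 2 ^ (p.d - 1) := Nat.one_le_two_pow
      simp only [Par.W]; omega
    · simp only [Par.W]; omega
  | emp => simp [Par.del, Par.W]
  | ff => simp [Par.del, Par.W]
  | yf =>
    have h6 : 1 ≤ 2 ^ (p.d - 1) := Nat.one_le_two_pow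
    simp only [Par.del]; split_ifs <;> simp only [Par.W] <;> omega
  | lo X =>
    have hX : X < 2 ^ (p.d + 1) := hc
    simp only [Par.del]
    split_ifs <;> simp only [Par.W] <;> omega
  | ri X f => simp only [Par.del]; split_ifs <;> simp only [Par.W]

def Par.run (p : Par) (c : Cf) (w : List (Fin 2)) : Cf := w.foldl p.del c

theorem Par.run_nil (p : Par) (c : Cf) : p.run c [] = c := rfl
theorem Par.run_cons (p : Par) (c : Cf) (x : Fin 2) (w : List (Fin 2)) :
    p.run c (x :: w) = p.run (p.del c x) w := rfl
theorem Par.run_append (p : Par) (c : Cf) (u w : List (Fin 2)) :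
    p.run c (u ++ w) = p.run (p.run c u) w := by simp [Par.run, List.foldl_append]

theorem Par.eval_eq (p : Par) (h : p.OK) (w : List (Fin 2)) :
    ∀ c, p.W c → p.M.evalFrom (p.toSet c) w = p.toSet (p.run c w) := by
  induction w with
  | nil => intro c _; simp [Par.run]
  | cons x w ih =>
    intro c hc
    rw [NFA.evalFrom_cons, p.sim h c hc x, ih _ (p.W_del h c hc x), p.run_cons]

def acc : Cf → Bool
  | ff => true
  | yf => true
  | ri _ f => f
  | _ => false

theorem Par.acc_iff (p : Par) (h : p.OK) (c : Cf) (hc : p.W c) :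
    (∃ s ∈ p.M.accept, s ∈ p.toSet c) ↔ acc c = true := by
  have hP : p.P = p.d + 1 + p.e := rfl
  have hm : p.m = p.t + p.P + 1 := rfl
  have key : (∃ s ∈ p.M.accept, s ∈ p.toSet c) ↔ p.mem c p.m := by
    constructor
    · rintro ⟨⟨s, hs⟩, h1, h2⟩
      have h3 : s = p.m := h1
      have h4 : p.mem c s := h2
      rw [h3] at h4; exact h4
    · intro h1
      exact ⟨⟨p.m, by omega⟩, rfl, h1⟩
  rw [key]
  cases c with
  | ch i =>
    have hi : i ≤ p.t := hc
    simp only [Par.mem, acc]
    constructor
    · intro h1; omega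
    · intro h1; exact absurd h1 (by simp)
  | ti i =>
    obtain ⟨hi1, hi2⟩ : 1 ≤ i ∧ i ≤ p.d + 1 := hc
    simp only [Par.mem, acc]
    constructor
    · intro h1; omega
    · intro h1; exact absurd h1 (by simp)
  | emp => simp [Par.mem, acc]
  | ff => simp [Par.mem, acc]
  | yf => simp [Par.mem, acc]
  | lo X => simp [Par.mem, acc]
  | ri X f => simp [Par.mem, acc]

theorem Par.mem_accepts (p : Par) (h : p.OK) (w : List (Fin 2)) :
    w ∈ p.M.accepts ↔ acc (p.run (ch 0) w) = true := by
  have hW : p.W (ch 0) := Nat.zero_le _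
  have hWr : ∀ (w : List (Fin 2)) (c : Cf), p.W c → p.W (p.run c w) := by
    intro w
    induction w with
    | nil => intro c hc; exact hc
    | cons x w ih => intro c hc; rw [p.run_cons]; exact ih _ (p.W_del h c hc x)
  rw [NFA.mem_accepts]
  have hs : p.M.start = p.toSet (ch 0) := by
    ext ⟨j, hj⟩
    constructor
    · intro h1
      exact Fin.ext_iff.mp h1
    · intro h1
      exact Fin.ext_iff.mpr h1
  rw [hs, p.eval_eq h w _ hW]
  exact p.acc_iff h _ (hWr w _ hW)

end Pool.Agent.W713.Magic
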