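import Pool.Agent.W713.MagicB

set_option autoImplicit false

namespace Pool.Agent.W713.Magic

open Cf

/-- the word a^k -/
def aw (k : ℕ) : List (Fin 2) := List.replicate k 0

theorem aw_succ (k : ℕ) : aw (k + 1) = 0 :: aw k := rfl
theorem aw_zero : aw 0 = [] := rfl
theorem aw_add (k l : ℕ) : aw (k + l) = aw k ++ aw l := by
  unfold aw; exact List.replicate_add k l 0

def ea (X : ℕ) (f : Bool) (P k : ℕ) : Bool :=
  if k = 0 then f else if k ≤ P then X.testBit (P - k) else false

theorem ea_step (X : ℕ) (f : Bool) (P k : ℕ) (hP : 1 ≤ P) :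
    ea (2 * X % 2 ^ P) (X.testBit (P - 1)) P k = ea X f P (k + 1) := by
  unfold ea
  rcases Nat.eq_zero_or_pos k with h0 | h0
  · subst h0; simp [hP]
  · rw [if_neg (by omega : ¬ k = 0), if_neg (by omega : ¬ k + 1 = 0)]
    rcases lt_trichotomy k P with h1 | h1 | h1
    · rw [if_pos (by omega), if_pos (by omega), Bool.eq_iff_iff, tb_dbl]
      have : P - k - 1 = P - (k + 1) := by omega
      rw [this]
      constructor
      · intro h; exact h.2.2
      · intro h; exact ⟨by omega, by omega, h⟩
    · rw [if_pos (by omega), if_neg (by omega), Bool.eq_iff_iff, tb_dbl]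
      constructor
      · intro h; omega
      · intro h; exact absurd h (by simp)
    · rw [if_neg (by omega), if_neg (by omega)]

theorem ea_mid (X : ℕ) (f : Bool) (P k : ℕ) (h1 : 1 ≤ k) (h2 : k ≤ P) :
    ea X f P k = X.testBit (P - k) := by
  unfold ea
  rw [if_neg (by omega), if_pos h2]

theorem Par.P_pos (p : Par) : 1 ≤ p.P := by unfold Par.P; omega

theorem Par.acc_ri (p : Par) (k : ℕ) : ∀ (X : ℕ) (f : Bool),
    acc (p.run (ri X f) (aw k)) = ea X f p.P k := by
  induction k with
  | zero => intro X f; simp [aw_zero, Par.run, acc, ea]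
  | succ k ih =>
    intro X f
    rw [aw_succ, p.run_cons]
    have : p.del (ri X f) 0 = ri (2 * X % 2 ^ p.P) (X.testBit (p.P - 1)) := by simp [Par.del]
    rw [this, ih, ea_step X f p.P k p.P_pos]

theorem Par.acc_lo (p : Par) (h : p.OK) (k : ℕ) : ∀ (X : ℕ), X < 2 ^ (p.d + 1) →
    acc (p.run (lo X) (aw k)) = ea X false p.P k := by
  have hd := h.hd
  have hP : p.P = p.d + 1 + p.e := rfl
  have e0 : 2 * 2 ^ (p.d - 1) = 2 ^ p.d := two_mul_pow_pred hd
  induction k with
  | zero => intro X _; simp [aw_zero, Par.run, acc, ea]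
  | succ k ih =>
    intro X hX
    rw [aw_succ, p.run_cons]
    by_cases h1 : X < 2 ^ (p.d - 1)
    · have : p.del (lo X) 0 = lo (2 * X) := by simp [Par.del, h1]
      rw [this, ih (2 * X) (by rw [pow_succ]; omega), ← ea_step X false p.P k p.P_pos]
      have h2 : 2 * X % 2 ^ p.P = 2 * X := by
        apply Nat.mod_eq_of_lt
        calc 2 * X < 2 ^ p.d := by omega
          _ ≤ 2 ^ p.P := Nat.pow_le_pow_right (by norm_num) (by omega)
      have h3 : X.testBit (p.P - 1) = false := by
        apply Nat.testBit_lt_two_pow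
        calc X < 2 ^ (p.d - 1) := h1
          _ ≤ 2 ^ (p.P - 1) := Nat.pow_le_pow_right (by norm_num) (by omega)
      rw [h2, h3]
    · have : p.del (lo X) 0 = ri (2 * X % 2 ^ p.P) (X.testBit (p.P - 1)) := by
        simp [Par.del, h1]
      rw [this, p.acc_ri, ea_step X false p.P k p.P_pos]

theorem Par.acc_ti (p : Par) (k : ℕ) : ∀ (i : ℕ), 1 ≤ i → i ≤ p.d + 1 →
    acc (p.run (ti i) (aw k)) = ea (2 ^ (i - 1)) false p.P k := by
  have hP : p.P = p.d + 1 + p.e := rfl
  induction k with
  | zero => intro i _ _; simp [aw_zero, Par.run, acc, ea]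
  | succ k ih =>
    intro i hi1 hi2
    rw [aw_succ, p.run_cons]
    by_cases h1 : i < p.d
    · have : p.del (ti i) 0 = ti (i + 1) := by simp [Par.del, h1]
      rw [this, ih (i + 1) (by omega) (by omega), ← ea_step _ false p.P k p.P_pos]
      have h2 : 2 * 2 ^ (i - 1) % 2 ^ p.P = 2 ^ (i + 1 - 1) := by
        rw [two_mul_pow_pred hi1, Nat.add_sub_cancel]
        apply Nat.mod_eq_of_lt
        exact Nat.pow_lt_pow_right (by norm_num) (by omega)
      have h3 : (2 ^ (i - 1)).testBit (p.P - 1) = false := by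
        rw [Bool.eq_false_iff]
        intro h4
        have := (tb_pow _ _).1 h4
        omega
      rw [h2, h3]
    · have : p.del (ti i) 0 = ri (2 * 2 ^ (i - 1) % 2 ^ p.P) (decide (i = p.P)) := by
        simp [Par.del, h1]
      rw [this, p.acc_ri, ← ea_step _ false p.P k p.P_pos]
      have h3 : (2 ^ (i - 1)).testBit (p.P - 1) = decide (i = p.P) := by
        rw [Bool.eq_iff_iff, tb_pow, decide_eq_true_eq]
        omega
      rw [h3]

theorem Par.acc_emp (p : Par) (w : List (Fin 2)) : acc (p.run emp w) = false := by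
  induction w with
  | nil => rfl
  | cons x w ih => rw [p.run_cons]; simpa [Par.del] using ih

theorem Par.acc_ff (p : Par) (x : Fin 2) (w : List (Fin 2)) : acc (p.run ff (x :: w)) = false := by
  rw [p.run_cons]; simpa [Par.del] using p.acc_emp w

theorem ea_zero (f : Bool) (P k : ℕ) : ea 0 f P k = if k = 0 then f else false := by
  unfold ea; split_ifs <;> simp

theorem Par.acc_ch (p : Par) (k : ℕ) : ∀ i, i ≤ p.t →
    acc (p.run (ch i) (aw k)) = decide (k + i = p.m) := by
  have hP : p.P = p.d + 1 + p.e := rfl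
  have hm : p.m = p.t + p.P + 1 := rfl
  induction k with
  | zero =>
    intro i hi
    have : ¬ (0 + i = p.m) := by omega
    simp [aw_zero, Par.run, acc]; omega
  | succ k ih =>
    intro i hi
    rw [aw_succ, p.run_cons]
    by_cases h1 : i < p.t
    · have : p.del (ch i) 0 = ch (i + 1) := by simp [Par.del, h1]
      rw [this, ih (i + 1) (by omega)]
      congr 1
      simp only [eq_iff_iff]; omega
    · have : p.del (ch i) 0 = ti 1 := by simp [Par.del, h1]
      rw [this, p.acc_ti k 1 (by omega) (by omega)]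
      rw [Bool.eq_iff_iff, decide_eq_true_eq]
      unfold ea
      split_ifs with h2 h3
      · simp; omega
      · have : (2 ^ (1 - 1) : ℕ) = 2 ^ 0 := rfl
        rw [this, tb_pow]; omega
      · simp; omega

def ctX : Cf → ℕ
  | ti i => 2 ^ (i - 1)
  | lo X => X
  | ri X _ => X
  | _ => 0

def isCh : Cf → Bool
  | ch _ => true
  | _ => false

theorem Par.acc_a (p : Par) (h : p.OK) (c : Cf) (hc : p.W c) (hn : isCh c = false) (k : ℕ) :
    acc (p.run c (aw k)) = ea (ctX c) (acc c) p.P k := by
  cases c with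
  | ch i => exact absurd hn (by simp [isCh])
  | ti i => exact p.acc_ti k i hc.1 hc.2
  | emp => rw [p.acc_emp]; simp [ctX, acc, ea_zero]
  | ff =>
    rcases k with _ | k
    · simp [aw_zero, Par.run, acc, ea]
    · rw [aw_succ, p.acc_ff]; simp [ctX, ea_zero]
  | yf =>
    rcases k with _ | k
    · simp [aw_zero, Par.run, acc, ea]
    · rw [aw_succ, p.run_cons]
      have : p.del yf 0 = lo 0 := by simp [Par.del]
      rw [this, p.acc_lo h k 0 (by positivity)]
      simp [ctX, ea_zero]
  | lo X => exact p.acc_lo h k X hc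
  | ri X f => exact p.acc_ri k X f

def Par.root (p : Par) (r : ℕ) : Prop :=
  (p.b = 0 ∧ (r = 2 ^ p.j ∨ ∃ i ∈ p.L, r = 2 ^ i + 1)) ∨ (p.b ≠ 0 ∧ r = 0)

def Par.G (p : Par) (X : ℕ) : Prop := X < 2 ^ p.d ∧ ∃ u, p.root (X / 2 ^ u)

def Par.GT (p : Par) (X : ℕ) : Prop := p.G X ∧ 2 ^ (p.d - 1) ≤ X

def Par.R (p : Par) (X : ℕ) (f : Bool) : Prop :=
  (X % 2 = 1 ∧ X < 2 ^ (p.d + 1) ∧ f = true) ∨
  (p.e = 1 ∧ X % 4 = 2 ∧ X < 2 ^ (p.d + 2) ∧ f = false) ∨
  (X % 2 ^ (p.e + 1) = 0 ∧ X < 2 ^ (p.d + 1 + p.e))

def Par.Good (p : Par) : Cf → Prop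
  | ch i => i ≤ p.t
  | ti i => 1 ≤ i ∧ i ≤ p.d + 1
  | emp => p.r ≠ 0
  | ff => p.r = 2
  | yf => p.b = 2
  | lo X => p.G X ∨ ∃ Y, p.GT Y ∧ X = 2 * Y + 1
  | ri X f => p.R X f ∨ (f = false ∧ X = 1) ∨
      (f = false ∧ ∃ Y, p.GT Y ∧ X = 4 * (Y - 2 ^ (p.d - 1)) + 3)

theorem Par.Good_W (p : Par) (c : Cf) (hc : p.Good c) : p.W c := by
  cases c with
  | ch i => exact hc
  | ti i => exact hc
  | emp => trivial
  | ff => trivial
  | yf => exact hc
  | lo X =>
    rcases hc with h1 | ⟨Y, h1, h2⟩
    · have := h1.1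
      show X < 2 ^ (p.d + 1)
      rw [pow_succ]; omega
    · have := h1.1.1
      show X < 2 ^ (p.d + 1)
      rw [pow_succ]; omega
  | ri X f => trivial

theorem Par.Good_lt (p : Par) (h : p.OK) (c : Cf) (hc : p.Good c) : ctX c < 2 ^ p.P := by
  have hd := h.hd
  have he := h.he
  have hP : p.P = p.d + 1 + p.e := rfl
  have e1 : (2 : ℕ) ^ (p.d + 1) ≤ 2 ^ p.P := Nat.pow_le_pow_right (by norm_num) (by omega)
  have e2 : (2 : ℕ) ^ (p.d + 1) = 2 * 2 ^ p.d := by ring
  have e3 : 2 * 2 ^ (p.d - 1) = 2 ^ p.d := two_mul_pow_pred hd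
  have e4 : 1 ≤ 2 ^ (p.d - 1) := Nat.one_le_two_pow
  cases c with
  | ch i => show 0 < _; positivity
  | ti i =>
    have : i ≤ p.d + 1 := hc.2
    exact Nat.pow_lt_pow_right (by norm_num) (by omega)
  | emp => show 0 < _; positivity
  | ff => show 0 < _; positivity
  | yf => show 0 < _; positivity
  | lo X =>
    have : X < 2 ^ (p.d + 1) := p.Good_W (lo X) hc
    exact lt_of_lt_of_le this e1
  | ri X f =>
    show X < _
    rcases hc with (⟨h1, h2, h3⟩ | ⟨h1, h2, h3, h4⟩ | ⟨h1, h2⟩) | ⟨h1, h2⟩ | ⟨h1, Y, ⟨⟨h2, _⟩, h3⟩, h4⟩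
    · omega
    · have : p.P = p.d + 2 := by omega
      rw [this]; exact h3
    · exact h2
    · omega
    · omega

theorem Par.b_ri (p : Par) (X : ℕ) (f : Bool) : acc (p.run (ri X f) [1]) = true := by
  simp [Par.run, Par.del, acc]

theorem Par.b_other (p : Par) (c : Cf) (h1 : isCh c = false) (h2 : ∀ X f, c ≠ ri X f) :
    acc (p.run c [1]) = false := by
  cases c with
  | ch i => exact absurd h1 (by simp [isCh])
  | ti i =>
    have : p.run (ti i) [1] = if p.d < i then ri 1 false
            else if i ∈ p.L then lo (2 ^ i + 1) else ti (i + 1) := by simp [Par.run, Par.del]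
    rw [this]; split_ifs <;> rfl
  | emp => simp [Par.run, Par.del, acc]
  | ff => simp [Par.run, Par.del, acc]
  | yf => simp [Par.run, Par.del, acc]
  | lo X =>
    have : p.run (lo X) [1] = if X < 2 ^ p.d then lo (2 * X + 1)
      else ri (2 * (X % 2 ^ p.d) + 1) false := by simp [Par.run, Par.del]
    rw [this]; split_ifs <;> rfl
  | ri X f => exact absurd rfl (h2 X f)

/-- the word b a^P -/
theorem Par.ba_lo (p : Par) (h : p.OK) (X : ℕ) (hX : X < 2 ^ (p.d + 1)) :
    acc (p.run (lo X) (1 :: aw p.P)) = true := by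
  have hP := p.P_pos
  rw [p.run_cons]
  by_cases h1 : X < 2 ^ p.d
  · have : p.del (lo X) 1 = lo (2 * X + 1) := by simp [Par.del, h1]
    rw [this, p.acc_lo h _ _ (by rw [pow_succ]; omega)]
    unfold ea
    rw [if_neg (by omega), if_pos le_rfl, Nat.sub_self]
    exact (tb_odd X 0).2 (Or.inl rfl)
  · have : p.del (lo X) 1 = ri (2 * (X % 2 ^ p.d) + 1) false := by simp [Par.del, h1]
    rw [this, p.acc_ri]
    unfold ea
    rw [if_neg (by omega), if_pos le_rfl, Nat.sub_self]
    exact (tb_shift X p.d 0).2 (Or.inl rfl)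

theorem Par.ba_yf (p : Par) (h : p.OK) :
    acc (p.run yf (1 :: aw p.P)) = true := by
  have hP := p.P_pos
  have hd := h.hd
  rw [p.run_cons]
  have : p.del yf 1 = lo 1 := by simp [Par.del]
  rw [this, p.acc_lo h _ _ (Nat.one_lt_two_pow (by omega))]
  unfold ea
  rw [if_neg (by omega), if_pos le_rfl, Nat.sub_self]
  simp

theorem Par.ba_ti (p : Par) (i : ℕ) (h1 : 1 ≤ i) (h2 : i ≤ p.d) (h3 : i ∉ p.L) :
    acc (p.run (ti i) (1 :: aw p.P)) = false := by
  have hP := p.P_pos
  rw [p.run_cons]
  have : p.del (ti i) 1 = ti (i + 1) := by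
    simp only [Par.del, one_ne_zero, if_false]
    rw [if_neg (by omega), if_neg h3]
  rw [this, p.acc_ti _ (i + 1) (by omega) (by omega)]
  unfold ea
  rw [if_neg (by omega), if_pos le_rfl, Nat.sub_self, Nat.add_sub_cancel]
  rw [Bool.eq_false_iff, ne_eq, tb_pow]
  omega

theorem Par.ti_lo (p : Par) (h : p.OK) (i : ℕ) (h1 : 1 ≤ i)
    (hg : p.Good (lo (2 ^ (i - 1)))) : i ≤ p.d ∧ i ∉ p.L := by
  have hd := h.hd
  have e4 : 1 ≤ 2 ^ (p.d - 1) := Nat.one_le_two_pow
  rcases hg with ⟨h2, u, h3⟩ | ⟨Y, ⟨⟨_, _⟩, h3⟩, h4⟩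
  · have h5 : i - 1 < p.d := (Nat.pow_lt_pow_iff_right (by norm_num)).1 h2
    refine ⟨by omega, ?_⟩
    rcases h3 with ⟨hb, h3⟩ | ⟨hb, _⟩
    · intro hi
      have hij := (h.hL i hi).2
      by_cases hu : u ≤ i - 1
      · rw [Nat.pow_div hu (by norm_num)] at h3
        rcases h3 with h3 | ⟨k, hk, h3⟩
        · have := Nat.pow_right_injective (le_refl 2) h3
          omega
        · have hk1 := (h.hL k hk).1
          obtain ⟨k', rfl⟩ : ∃ k', k = k' + 1 := ⟨k - 1, by omega⟩
          rcases Nat.eq_zero_or_pos (i - 1 - u) with h6 | h6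
          · rw [h6] at h3
            have : 1 ≤ 2 ^ (k' + 1) := Nat.one_le_two_pow
            simp at h3
          · obtain ⟨v, hv⟩ : ∃ v, i - 1 - u = v + 1 := ⟨i - 1 - u - 1, by omega⟩
            rw [hv, pow_succ, pow_succ] at h3
            omega
      · have : 2 ^ (i - 1) / 2 ^ u = 0 := by
          apply Nat.div_eq_of_lt
          exact Nat.pow_lt_pow_right (by norm_num) (by omega)
        rw [this] at h3
        rcases h3 with h3 | ⟨k, hk, h3⟩
        · exact absurd h3.symm (by positivity)
        · exact Nat.succ_ne_zero _ h3.symm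
    · rw [h.hbL hb]; simp
  · exfalso
    rcases Nat.eq_zero_or_pos (i - 1) with h6 | h6
    · rw [h6] at h4; simp at h4; omega
    · obtain ⟨v, hv⟩ : ∃ v, i - 1 = v + 1 := ⟨i - 1 - 1, by omega⟩
      rw [hv, pow_succ] at h4
      omega

theorem Par.ct_eq (p : Par) (h : p.OK) (c c' : Cf) (hc : p.Good c) (hc' : p.Good c')
    (h1 : isCh c = false) (h2 : isCh c' = false)
    (hL : ∀ w, acc (p.run c w) = acc (p.run c' w)) : ctX c = ctX c' := by
  apply Nat.eq_of_testBit_eq
  intro i
  by_cases hi : i < p.P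
  · have := hL (aw (p.P - i))
    rw [p.acc_a h c (p.Good_W c hc) h1, p.acc_a h c' (p.Good_W c' hc') h2] at this
    rw [ea_mid _ _ _ _ (by omega) (by omega), ea_mid _ _ _ _ (by omega) (by omega)] at this
    have h3 : p.P - (p.P - i) = i := by omega
    rwa [h3] at this
  · rw [Nat.testBit_lt_two_pow (lt_of_lt_of_le (p.Good_lt h c hc)
      (Nat.pow_le_pow_right (by norm_num) (by omega))),
      Nat.testBit_lt_two_pow (lt_of_lt_of_le (p.Good_lt h c' hc')
      (Nat.pow_le_pow_right (by norm_num) (by omega)))]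

theorem Par.ch_ne (p : Par) (h : p.OK) (i : ℕ) (c : Cf) (hi : i ≤ p.t) (hc : p.Good c)
    (h1 : isCh c = false)
    (hL : ∀ w, acc (p.run (ch i) w) = acc (p.run c w)) : False := by
  have hm : p.m = p.t + p.P + 1 := rfl
  have := hL (aw (p.m - i))
  rw [p.acc_ch _ i hi, p.acc_a h c (p.Good_W c hc) h1] at this
  unfold ea at this
  rw [if_neg (by omega), if_neg (by omega), decide_eq_false_iff_not] at this
  omega

/-- kinds -/
def kind : Cf → ℕ
  | ch _ => 0
  | ti _ => 1
  | emp => 1
  | ff => 1
  | yf => 2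
  | lo _ => 2
  | ri _ _ => 3

theorem Par.inj12 (p : Par) (h : p.OK) (c c' : Cf) (hc : p.Good c) (hc' : p.Good c')
    (hk : kind c = 1) (hk' : kind c' = 2)
    (hL : ∀ w, acc (p.run c w) = acc (p.run c' w)) : False := by
  have h1 : isCh c = false := by cases c <;> simp_all [isCh, kind]
  have h2 : isCh c' = false := by cases c' <;> simp_all [isCh, kind]
  have hX := p.ct_eq h c c' hc hc' h1 h2 hL
  have hw := hL (1 :: aw p.P)
  have hT : acc (p.run c' (1 :: aw p.P)) = true := by
    cases c' with
    | lo X => exact p.ba_lo h X (p.Good_W _ hc')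
    | yf => exact p.ba_yf h
    | _ => simp [kind] at hk'
  rw [hT] at hw
  cases c with
  | ti i =>
    cases c' with
    | lo X =>
      have hX' : 2 ^ (i - 1) = X := hX
      subst hX'
      have := p.ti_lo h i hc.1 hc'
      rw [p.ba_ti i hc.1 this.1 this.2] at hw
      exact absurd hw (by simp)
    | yf =>
      have hX' : 2 ^ (i - 1) = 0 := hX
      exact absurd hX' (by positivity)
    | _ => simp [kind] at hk'
  | emp => rw [p.acc_emp] at hw; exact absurd hw (by simp)
  | ff => rw [p.acc_ff] at hw; exact absurd hw (by simp)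
  | _ => simp [kind] at hk

theorem Par.inj3 (p : Par) (h : p.OK) (c c' : Cf) (h1 : isCh c = false) (h2 : kind c ≠ 3)
    (h3 : kind c' = 3) (hL : ∀ w, acc (p.run c w) = acc (p.run c' w)) : False := by
  have hw := hL [1]
  rw [p.b_other c h1 (by rintro X f rfl; exact h2 rfl)] at hw
  cases c' with
  | ri X f => rw [p.b_ri] at hw; exact absurd hw (by simp)
  | _ => simp [kind] at h3

theorem Par.inj (p : Par) (h : p.OK) (c c' : Cf) (hc : p.Good c) (hc' : p.Good c')
    (hL : ∀ w, acc (p.run c w) = acc (p.run c' w)) : c = c' := by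
  have hL' : ∀ w, acc (p.run c' w) = acc (p.run c w) := fun w => (hL w).symm
  have h0 : acc c = acc c' := hL []
  cases hcc : isCh c with
  | true =>
    cases c with
    | ch i =>
      cases hcc' : isCh c' with
      | true =>
        cases c' with
        | ch i' =>
          have hm : p.m = p.t + p.P + 1 := rfl
          have hi : i ≤ p.t := hc
          have hi' : i' ≤ p.t := hc'
          have := hL (aw (p.m - i))
          rw [p.acc_ch _ i hi, p.acc_ch _ i' hi'] at this
          have e1 : decide (p.m - i + i = p.m) = true := by simp; omega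
          rw [e1] at this
          have e2 := of_decide_eq_true this.symm
          congr 1; omega
        | _ => simp [isCh] at hcc'
      | false => exact (p.ch_ne h i c' hc hc' hcc' hL).elim
    | _ => simp [isCh] at hcc
  | false =>
    cases hcc' : isCh c' with
    | true =>
      cases c' with
      | ch i' => exact (p.ch_ne h i' c hc' hc hcc hL').elim
      | _ => simp [isCh] at hcc'
    | false =>
      have hX := p.ct_eq h c c' hc hc' hcc hcc' hL
      cases c with
      | ch i => simp [isCh] at hcc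
      | ti i =>
        cases c' with
        | ch i' => simp [isCh] at hcc'
        | ti i' =>
          have hX' : 2 ^ (i - 1) = 2 ^ (i' - 1) := hX
          have := Nat.pow_right_injective (le_refl 2) hX'
          have h3 : 1 ≤ i := hc.1
          have h4 : 1 ≤ i' := hc'.1
          congr 1; omega
        | emp =>
          have hX' : 2 ^ (i - 1) = 0 := hX
          exact absurd hX' (by positivity)
        | ff => exact absurd h0 (by simp [acc])
        | yf => exact (p.inj12 h _ _ hc hc' rfl rfl hL).elim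
        | lo X => exact (p.inj12 h _ _ hc hc' rfl rfl hL).elim
        | ri X f => exact (p.inj3 h _ _ hcc (by simp [kind]) rfl hL).elim
      | emp =>
        cases c' with
        | ch i' => simp [isCh] at hcc'
        | ti i' =>
          have hX' : 0 = 2 ^ (i' - 1) := hX
          exact absurd hX'.symm (by positivity)
        | emp => rfl
        | ff => exact absurd h0 (by simp [acc])
        | yf => exact (p.inj12 h _ _ hc hc' rfl rfl hL).elim
        | lo X => exact (p.inj12 h _ _ hc hc' rfl rfl hL).elim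
        | ri X f => exact (p.inj3 h _ _ hcc (by simp [kind]) rfl hL).elim
      | ff =>
        cases c' with
        | ch i' => simp [isCh] at hcc'
        | ti i' => exact absurd h0 (by simp [acc])
        | emp => exact absurd h0 (by simp [acc])
        | ff => rfl
        | yf => exact (p.inj12 h _ _ hc hc' rfl rfl hL).elim
        | lo X => exact (p.inj12 h _ _ hc hc' rfl rfl hL).elim
        | ri X f => exact (p.inj3 h _ _ hcc (by simp [kind]) rfl hL).elim
      | yf =>
        cases c' with
        | ch i' => simp [isCh] at hcc'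
        | ti i' => exact (p.inj12 h _ _ hc' hc rfl rfl hL').elim
        | emp => exact (p.inj12 h _ _ hc' hc rfl rfl hL').elim
        | ff => exact (p.inj12 h _ _ hc' hc rfl rfl hL').elim
        | yf => rfl
        | lo X => exact absurd h0 (by simp [acc])
        | ri X f => exact (p.inj3 h _ _ hcc (by simp [kind]) rfl hL).elim
      | lo X =>
        cases c' with
        | ch i' => simp [isCh] at hcc'
        | ti i' => exact (p.inj12 h _ _ hc' hc rfl rfl hL').elim
        | emp => exact (p.inj12 h _ _ hc' hc rfl rfl hL').elim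
        | ff => exact (p.inj12 h _ _ hc' hc rfl rfl hL').elim
        | yf => exact absurd h0 (by simp [acc])
        | lo X' =>
          have hX' : X = X' := hX
          rw [hX']
        | ri X' f => exact (p.inj3 h _ _ hcc (by simp [kind]) rfl hL).elim
      | ri X f =>
        by_cases hk : kind c' = 3
        · cases c' with
          | ri X' f' =>
            have hX' : X = X' := hX
            have h0' : f = f' := h0
            rw [hX', h0']
          | _ => simp [kind] at hk
        · exact (p.inj3 h _ _ hcc' hk rfl hL').elim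

end Pool.Agent.W713.Magic
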