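import Pool.Agent.W713.MagicC

set_option autoImplicit false

namespace Pool.Agent.W713.Magic

open Cf

theorem Par.R_a (p : Par) (h : p.OK) (X : ℕ) (hX : X < 2 ^ p.P)
    (hodd : X % 2 = 1 → X < 2 ^ (p.d + 1)) : p.R (2 * X % 2 ^ p.P) (X.testBit (p.P - 1)) := by
  have hP : p.P = p.d + 1 + p.e := rfl
  have he := h.he
  have hpos : 0 < 2 ^ p.P := by positivity
  rcases (by omega : p.e = 0 ∨ p.e = 1) with h0 | h0
  · right; right
    refine ⟨?_, ?_⟩
    · rw [h0, Nat.mod_mod_of_dvd]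
      · simp
      · exact pow_dvd_pow 2 (by omega)
    · exact Nat.mod_lt _ hpos
  · have hP2 : p.P = p.d + 2 := by omega
    rcases Nat.mod_two_eq_zero_or_one X with h1 | h1
    · right; right
      refine ⟨?_, ?_⟩
      · rw [h0, Nat.mod_mod_of_dvd]
        · simp; omega
        · exact pow_dvd_pow 2 (by omega)
      · exact Nat.mod_lt _ hpos
    · right; left
      have h2 := hodd h1
      have h3 : 2 * X % 2 ^ p.P = 2 * X := by
        apply Nat.mod_eq_of_lt
        rw [hP2, pow_succ]; omega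
      rw [h3]
      refine ⟨h0, by omega, by rw [pow_succ]; omega, ?_⟩
      apply Nat.testBit_lt_two_pow
      rw [hP2]; exact h2

theorem Par.Good_odd (p : Par) (h : p.OK) (X : ℕ) (f : Bool) (hc : p.Good (ri X f))
    (hodd : X % 2 = 1) : X < 2 ^ (p.d + 1) := by
  have hd := h.hd
  have e2 : (2 : ℕ) ^ (p.d + 1) = 2 * 2 ^ p.d := by ring
  have e3 : 2 * 2 ^ (p.d - 1) = 2 ^ p.d := two_mul_pow_pred hd
  have e4 : 1 ≤ 2 ^ (p.d - 1) := Nat.one_le_two_pow
  rcases hc with (⟨h1, h2, h3⟩ | ⟨h1, h2, h3, h4⟩ | ⟨h1, h2⟩) | ⟨h1, h2⟩ | ⟨h1, Y, ⟨⟨h2, _⟩, h3⟩, h4⟩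
  · exact h2
  · omega
  · exfalso
    have : X % 2 = 0 := by
      have h5 : 2 ∣ 2 ^ (p.e + 1) := dvd_pow_self 2 (by omega)
      have h6 := Nat.mod_mod_of_dvd X h5
      rw [h1] at h6; simpa using h6.symm
    omega
  · omega
  · omega

theorem Par.G_zero (p : Par) (hb : p.b ≠ 0) : p.G 0 :=
  ⟨by positivity, 0, Or.inr ⟨hb, by simp⟩⟩

theorem Par.G_one (p : Par) (h : p.OK) (hb : p.b ≠ 0) : p.G 1 :=
  ⟨Nat.one_lt_two_pow (by have := h.hd; omega), 1, Or.inr ⟨hb, by simp⟩⟩

theorem Par.G_dbl (p : Par) (X : ℕ) (h : p.G X) (h2 : 2 * X < 2 ^ p.d) : p.G (2 * X) := by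
  obtain ⟨_, u, hu⟩ := h
  refine ⟨h2, u + 1, ?_⟩
  rw [pow_succ, mul_comm (2 ^ u) 2, Nat.mul_div_mul_left _ _ (by norm_num)]
  exact hu

theorem Par.G_dbl1 (p : Par) (X : ℕ) (h : p.G X) (h2 : 2 * X + 1 < 2 ^ p.d) :
    p.G (2 * X + 1) := by
  obtain ⟨_, u, hu⟩ := h
  refine ⟨h2, u + 1, ?_⟩
  rw [pow_succ, mul_comm (2 ^ u) 2, ← Nat.div_div_eq_div_mul]
  have : (2 * X + 1) / 2 = X := by omega
  rw [this]
  exact hu

theorem Par.G_root (p : Par) (h : p.OK) (i : ℕ) (hi : i ∈ p.L) : p.G (2 ^ i + 1) := by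
  have h1 := h.hL i hi
  have h2 := h.hj
  have hb : p.b = 0 := by
    by_contra hb
    rw [h.hbL hb] at hi; simp at hi
  refine ⟨?_, 0, Or.inl ⟨hb, Or.inr ⟨i, hi, by simp⟩⟩⟩
  have e1 : 2 * 2 ^ (p.d - 1) = 2 ^ p.d := two_mul_pow_pred h.hd
  have e2 : (2 : ℕ) ^ i ≤ 2 ^ (p.d - 1) := Nat.pow_le_pow_right (by norm_num) (by omega)
  have e3 : (2 : ℕ) ^ 1 ≤ 2 ^ (p.d - 1) := Nat.pow_le_pow_right (by norm_num) (by omega)
  omega

theorem Par.G_root0 (p : Par) (h : p.OK) (hb : p.b = 0) : p.G (2 ^ p.j) :=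
  ⟨Nat.pow_lt_pow_right (by norm_num) h.hj, 0, Or.inl ⟨hb, Or.inl (by simp)⟩⟩

theorem Par.Good_del (p : Par) (h : p.OK) (c : Cf) (hc : p.Good c) (x : Fin 2) :
    p.Good (p.del c x) := by
  have hd := h.hd
  have ht := h.ht
  have hb := h.hb
  have hr := h.hr
  have hP : p.P = p.d + 1 + p.e := rfl
  have e0 : 2 * 2 ^ (p.d - 1) = 2 ^ p.d := two_mul_pow_pred hd
  have e1 : (2 : ℕ) ^ (p.d + 1) = 2 * 2 ^ p.d := by ring
  have e2 : (2 : ℕ) ^ (p.d + 1) ≤ 2 ^ p.P := Nat.pow_le_pow_right (by norm_num) (by omega)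
  cases c with
  | ch i =>
    have hi : i ≤ p.t := hc
    simp only [Par.del]
    split_ifs with h1 h2 h3 h4 h5 h6 h7 h8
    · show i + 1 ≤ p.t; omega
    · show 1 ≤ 1 ∧ 1 ≤ p.d + 1; omega
    · show i + 1 ≤ p.t; omega
    · show p.t ≤ p.t; omega
    · exact h5
    · show p.r = 2; omega
    · exact Or.inl (p.G_root0 h h7)
    · exact Or.inl (p.G_zero h7)
    · show p.b = 2; omega
  | ti i =>
    obtain ⟨hi1, hi2⟩ : 1 ≤ i ∧ i ≤ p.d + 1 := hc
    simp only [Par.del]
    split_ifs with h1 h2 h3 h4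
    · show 1 ≤ i + 1 ∧ i + 1 ≤ p.d + 1; omega
    · left
      have h3 : (2 ^ (i - 1)).testBit (p.P - 1) = decide (i = p.P) := by
        rw [Bool.eq_iff_iff, tb_pow, decide_eq_true_eq]
        omega
      rw [← h3]
      apply p.R_a h
      · exact Nat.pow_lt_pow_right (by norm_num) (by omega)
      · intro _
        exact Nat.pow_lt_pow_right (by norm_num) (by omega)
    · right; left; exact ⟨rfl, rfl⟩
    · exact Or.inl (p.G_root h i h4)
    · show 1 ≤ i + 1 ∧ i + 1 ≤ p.d + 1; omega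
  | emp => simp only [Par.del]; exact hc
  | ff =>
    have : p.r = 2 := hc
    simp only [Par.del]
    show p.r ≠ 0
    omega
  | yf =>
    have : p.b = 2 := hc
    simp only [Par.del]
    split_ifs
    · exact Or.inl (p.G_zero (by omega))
    · exact Or.inl (p.G_one h (by omega))
  | lo X =>
    have hW : X < 2 ^ (p.d + 1) := p.Good_W _ hc
    simp only [Par.del]
    split_ifs with h1 h2 h3
    · rcases hc with h4 | ⟨Y, h4, h5⟩
      · exact Or.inl (p.G_dbl X h4 (by omega))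
      · have := h4.2; omega
    · left
      exact p.R_a h X (by omega) (fun _ => hW)
    · rcases hc with h4 | ⟨Y, h4, h5⟩
      · by_cases h6 : X < 2 ^ (p.d - 1)
        · exact Or.inl (p.G_dbl1 X h4 (by omega))
        · exact Or.inr ⟨X, ⟨h4, by omega⟩, rfl⟩
      · have := h4.2; omega
    · rcases hc with h4 | ⟨Y, h4, h5⟩
      · exact absurd h4.1 h3
      · right; right
        refine ⟨rfl, Y, h4, ?_⟩
        have h6 := h4.2
        have h7 := h4.1.1
        have h8 : X % 2 ^ p.d = X - 2 ^ p.d := by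
          rw [Nat.mod_eq_sub_mod (by omega), Nat.mod_eq_of_lt (by omega)]
        rw [h8]; omega
  | ri X f =>
    simp only [Par.del]
    split_ifs
    · left
      exact p.R_a h X (p.Good_lt h _ hc) (fun h1 => p.Good_odd h X f hc h1)
    · left; left
      have : X % 2 ^ p.d < 2 ^ p.d := Nat.mod_lt _ (by positivity)
      exact ⟨by omega, by omega, rfl⟩

def Par.Reach (p : Par) (c : Cf) : Prop := ∃ w, p.run (ch 0) w = c

theorem Par.Reach.step {p : Par} {c : Cf} (h : p.Reach c) (x : Fin 2) : p.Reach (p.del c x) := by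
  obtain ⟨w, rfl⟩ := h
  exact ⟨w ++ [x], by rw [p.run_append]; rfl⟩

theorem Par.Reach.to {p : Par} {c c' : Cf} (h : p.Reach c) (x : Fin 2) (hx : p.del c x = c') :
    p.Reach c' := hx ▸ h.step x

theorem Par.reach_ch (p : Par) (i : ℕ) : i ≤ p.t → p.Reach (ch i) := by
  induction i with
  | zero => intro _; exact ⟨[], rfl⟩
  | succ i ih =>
    intro hi
    exact (ih (by omega)).to 0 (by simp [Par.del]; omega)

theorem Par.reach_ti (p : Par) (h : p.OK) (i : ℕ) : 1 ≤ i → i ≤ p.d → p.Reach (ti i) := by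
  induction i with
  | zero => intro h1; omega
  | succ i ih =>
    intro h1 h2
    rcases Nat.eq_zero_or_pos i with h3 | h3
    · subst h3
      exact (p.reach_ch p.t le_rfl).to 0 (by simp [Par.del])
    · exact (ih h3 (by omega)).to 0 (by simp [Par.del]; omega)

theorem Par.reach_tid (p : Par) (h : p.OK) : p.Reach (ti (p.d + 1)) := by
  refine (p.reach_ti h p.d h.hd le_rfl).to 1 ?_
  have h1 : p.d ∉ p.L := by
    intro h2
    have := h.hL _ h2
    have := h.hj
    omega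
  simp [Par.del, h1]

theorem Par.reach_ff (p : Par) (h : p.OK) (hr : p.r = 2) : p.Reach ff := by
  have ht := h.ht
  refine (p.reach_ch (p.t - 1) (by omega)).to 1 ?_
  have h1 : ¬ (p.t - 1 + 1 < p.t) := by omega
  have h2 : p.t - 1 + 1 = p.t := by omega
  simp [Par.del, h2, hr]

theorem Par.reach_emp (p : Par) (h : p.OK) (hr : p.r ≠ 0) : p.Reach emp := by
  have ht := h.ht
  have hr2 := h.hr
  rcases (by omega : p.r = 1 ∨ p.r = 2) with h3 | h3
  · refine (p.reach_ch (p.t - 1) (by omega)).to 1 ?_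
    have h2 : p.t - 1 + 1 = p.t := by omega
    simp [Par.del, h2, h3]
  · exact (p.reach_ff h h3).to 0 (by simp [Par.del])

theorem Par.reach_yf (p : Par) (h : p.OK) (hb : p.b = 2) : p.Reach yf := by
  refine (p.reach_ch p.t le_rfl).to 1 ?_
  simp [Par.del, hb]

theorem Par.reach_root (p : Par) (h : p.OK) (X : ℕ) (hr : p.root X) : p.Reach (lo X) := by
  have hb := h.hb
  rcases hr with ⟨h1, h2 | ⟨i, hi, h2⟩⟩ | ⟨h1, h2⟩
  · refine (p.reach_ch p.t le_rfl).to 1 ?_
    simp [Par.del, h1, h2]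
  · have h3 := h.hL i hi
    have h4 := h.hj
    refine (p.reach_ti h i h3.1 (by omega)).to 1 ?_
    have h5 : ¬ (p.d < i) := by omega
    simp [Par.del, h5, hi, h2]
  · rcases (by omega : p.b = 1 ∨ p.b = 2) with h3 | h3
    · refine (p.reach_ch p.t le_rfl).to 1 ?_
      simp [Par.del, h3, h2]
    · refine (p.reach_yf h h3).to 0 ?_
      simp [Par.del, h2]

theorem Par.reach_G (p : Par) (h : p.OK) (u : ℕ) : ∀ X, X < 2 ^ p.d → p.root (X / 2 ^ u) →
    p.Reach (lo X) := by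
  have hd := h.hd
  have e0 : 2 * 2 ^ (p.d - 1) = 2 ^ p.d := two_mul_pow_pred hd
  induction u with
  | zero => intro X _ h2; exact p.reach_root h X (by simpa using h2)
  | succ u ih =>
    intro X h1 h2
    have h3 : p.root (X / 2 / 2 ^ u) := by
      rw [Nat.div_div_eq_div_mul, mul_comm 2, ← pow_succ]; exact h2
    have h4 := ih (X / 2) (by omega) h3
    have h5 : X / 2 < 2 ^ (p.d - 1) := by omega
    have h6 : X / 2 < 2 ^ p.d := by omega
    rcases Nat.mod_two_eq_zero_or_one X with h7 | h7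
    · refine h4.to 0 ?_
      simp only [Par.del, if_true, if_pos h5]
      congr 1; omega
    · refine h4.to 1 ?_
      simp only [Par.del, one_ne_zero, if_false, if_pos h6]
      congr 1; omega

theorem Par.reach_Q0 (p : Par) (h : p.OK) (k : ℕ) : ∃ f, p.Reach (ri (2 ^ k % 2 ^ p.P) f) := by
  have hP : p.P = p.d + 1 + p.e := rfl
  induction k with
  | zero =>
    refine ⟨false, ?_⟩
    have h1 : 2 ^ 0 % 2 ^ p.P = 1 := by
      rw [pow_zero]
      exact Nat.mod_eq_of_lt (Nat.one_lt_two_pow (by omega))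
    rw [h1]
    refine (p.reach_tid h).to 1 ?_
    simp [Par.del]
  | succ k ih =>
    obtain ⟨f, hf⟩ := ih
    refine ⟨(2 ^ k % 2 ^ p.P).testBit (p.P - 1), hf.to 0 ?_⟩
    simp only [Par.del, if_true]
    congr 1
    rw [pow_succ, mul_comm (2 ^ k) 2, Nat.mul_mod, Nat.mod_mod, ← Nat.mul_mod]

theorem Par.reach_Q (p : Par) (h : p.OK) (X : ℕ) : X < 2 ^ (p.d + 1) →
    ∃ f, p.Reach (ri X f) := by
  have hP : p.P = p.d + 1 + p.e := rfl
  have e1 : (2 : ℕ) ^ (p.d + 1) = 2 * 2 ^ p.d := by ring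
  have e2 : (2 : ℕ) ^ (p.d + 1) ≤ 2 ^ p.P := Nat.pow_le_pow_right (by norm_num) (by omega)
  induction X using Nat.strong_induction_on with
  | _ X ih =>
    intro hX
    rcases Nat.eq_zero_or_pos X with h0 | h0
    · subst h0
      obtain ⟨f, hf⟩ := p.reach_Q0 h p.P
      rw [Nat.mod_self] at hf
      exact ⟨f, hf⟩
    · obtain ⟨f, hf⟩ := ih (X / 2) (by omega) (by omega)
      rcases Nat.mod_two_eq_zero_or_one X with h7 | h7
      · refine ⟨(X / 2).testBit (p.P - 1), hf.to 0 ?_⟩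
        simp only [Par.del, if_true]
        congr 1
        rw [Nat.mod_eq_of_lt (by omega)]; omega
      · refine ⟨true, hf.to 1 ?_⟩
        simp only [Par.del, one_ne_zero, if_false]
        congr 1
        rw [Nat.mod_eq_of_lt (by omega : X / 2 < 2 ^ p.d)]; omega

theorem Par.reach_odd (p : Par) (h : p.OK) (X : ℕ) (hX : X < 2 ^ (p.d + 1)) (ho : X % 2 = 1) :
    p.Reach (ri X true) := by
  have e1 : (2 : ℕ) ^ (p.d + 1) = 2 * 2 ^ p.d := by ring
  obtain ⟨f, hf⟩ := p.reach_Q h (X / 2) (by omega)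
  refine hf.to 1 ?_
  simp only [Par.del, one_ne_zero, if_false]
  congr 1
  rw [Nat.mod_eq_of_lt (by omega : X / 2 < 2 ^ p.d)]; omega

theorem tb_top (A k : ℕ) (f : Bool) (hA : A < 2 ^ k) :
    (A + (if f then 2 ^ k else 0)).testBit k = f := by
  cases f with
  | false => simpa using Nat.testBit_lt_two_pow hA
  | true =>
    rw [if_pos rfl, add_comm, Nat.testBit_two_pow_add_eq, Nat.testBit_lt_two_pow hA]; rfl

/-- go one step back from an even number -/
theorem Par.reach_back (p : Par) (h : p.OK) (X : ℕ) (f : Bool) (hX : X < 2 ^ p.P)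
    (he : X % 2 = 0)
    (hZ : ∃ g, p.Reach (ri (X / 2 + (if f then 2 ^ (p.P - 1) else 0)) g)) :
    p.Reach (ri X f) := by
  have hPp := p.P_pos
  have e0 : 2 * 2 ^ (p.P - 1) = 2 ^ p.P := two_mul_pow_pred hPp
  obtain ⟨g, hg⟩ := hZ
  refine hg.to 0 ?_
  simp only [Par.del, if_true]
  rw [tb_top _ _ _ (by omega)]
  congr 1
  cases f with
  | false =>
    have e3 : 2 * (X / 2) = X := by omega
    simp only [Bool.false_eq_true, if_false, add_zero]
    rw [e3]; exact Nat.mod_eq_of_lt hX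
  | true =>
    have e3 : 2 * (X / 2 + 2 ^ (p.P - 1)) = X + 2 ^ p.P := by omega
    simp only [if_true]
    rw [e3, Nat.add_mod_right]; exact Nat.mod_eq_of_lt hX

theorem Par.reach_R (p : Par) (h : p.OK) (X : ℕ) (f : Bool) (hR : p.R X f) :
    p.Reach (ri X f) := by
  have hP : p.P = p.d + 1 + p.e := rfl
  have he := h.he
  have e1 : (2 : ℕ) ^ (p.d + 1) = 2 * 2 ^ p.d := by ring
  rcases hR with ⟨h1, h2, h3⟩ | ⟨h1, h2, h3, h4⟩ | ⟨h1, h2⟩
  · rw [h3]; exact p.reach_odd h X h2 h1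
  · have hP2 : p.P = p.d + 2 := by omega
    have e5 : (2 : ℕ) ^ (p.d + 2) = 2 * 2 ^ (p.d + 1) := by ring
    apply p.reach_back h X f (by rw [hP2]; exact h3) (by omega)
    refine ⟨true, ?_⟩
    rw [h4]
    simp only [Bool.false_eq_true, if_false, add_zero]
    exact p.reach_odd h _ (by omega) (by omega)
  · rcases (by omega : p.e = 0 ∨ p.e = 1) with h0 | h0
    · have hP2 : p.P = p.d + 1 := by omega
      have h1' : X % 2 = 0 := by rw [h0] at h1; simpa using h1
      have h2' : X < 2 ^ (p.d + 1) := by rw [h0] at h2; exact h2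
      apply p.reach_back h X f (by rw [hP2]; exact h2') h1'
      apply p.reach_Q h
      rw [hP2, Nat.add_sub_cancel]
      cases f <;> simp <;> omega
    · have hP2 : p.P = p.d + 2 := by omega
      have e5 : (2 : ℕ) ^ (p.d + 2) = 2 * 2 ^ (p.d + 1) := by ring
      have e6 : (2 : ℕ) ^ (p.d + 1 + 1) = 2 * 2 ^ (p.d + 1) := by ring
      have h1' : X % 4 = 0 := by rw [h0] at h1; simpa using h1
      have h2' : X < 2 ^ (p.d + 2) := by rw [h0, e6] at h2; omega
      apply p.reach_back h X f (by rw [hP2]; exact h2') (by omega)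
      refine ⟨false, ?_⟩
      have e7 : p.P - 1 = p.d + 1 := by omega
      rw [e7]
      apply p.reach_back h
      · rw [hP2]
        cases f <;> simp <;> omega
      · cases f <;> simp <;> omega
      · simp only [Bool.false_eq_true, if_false, add_zero]
        apply p.reach_Q h
        cases f <;> simp <;> omega

theorem Par.Good_reach (p : Par) (h : p.OK) (c : Cf) (hc : p.Good c) : p.Reach c := by
  have hd := h.hd
  have e0 : 2 * 2 ^ (p.d - 1) = 2 ^ p.d := two_mul_pow_pred hd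
  have hlo : ∀ Y, p.GT Y → p.Reach (lo (2 * Y + 1)) := by
    rintro Y ⟨⟨h1, u, h2⟩, h3⟩
    refine (p.reach_G h u Y h1 h2).to 1 ?_
    simp only [Par.del, one_ne_zero, if_false, if_pos h1]
  cases c with
  | ch i => exact p.reach_ch i hc
  | ti i =>
    obtain ⟨h1, h2⟩ : 1 ≤ i ∧ i ≤ p.d + 1 := hc
    rcases Nat.lt_or_ge p.d i with h3 | h3
    · have : i = p.d + 1 := by omega
      rw [this]; exact p.reach_tid h
    · exact p.reach_ti h i h1 h3
  | emp => exact p.reach_emp h hc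
  | ff => exact p.reach_ff h hc
  | yf => exact p.reach_yf h hc
  | lo X =>
    rcases hc with ⟨h1, u, h2⟩ | ⟨Y, h1, h2⟩
    · exact p.reach_G h u X h1 h2
    · rw [h2]; exact hlo Y h1
  | ri X f =>
    rcases hc with h1 | ⟨h1, h2⟩ | ⟨h1, Y, h2, h3⟩
    · exact p.reach_R h X f h1
    · rw [h1, h2]
      refine (p.reach_tid h).to 1 ?_
      simp [Par.del]
    · rw [h1]
      have h4 := h2.2
      have h5 := h2.1.1
      refine (hlo Y h2).to 1 ?_
      have h6 : ¬ (2 * Y + 1 < 2 ^ p.d) := by omega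
      simp only [Par.del, one_ne_zero, if_false, if_neg h6]
      congr 1
      have h8 : (2 * Y + 1) % 2 ^ p.d = 2 * Y + 1 - 2 ^ p.d := by
        rw [Nat.mod_eq_sub_mod (by omega), Nat.mod_eq_of_lt (by omega)]
      rw [h8]; omega

end Pool.Agent.W713.Magic
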