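import Pool.Agent.W713.MagicD

set_option autoImplicit false

namespace Pool.Agent.W713.Magic

open Cf

/-! counting the numbers below a root -/

theorem pow_ne_add_one (a b : ℕ) (hb : 1 ≤ b) : 2 ^ a ≠ 2 ^ b + 1 := by
  intro h
  obtain ⟨b', rfl⟩ : ∃ b', b = b' + 1 := ⟨b - 1, by omega⟩
  rcases a with _ | a
  · simp at h
  · rw [pow_succ, pow_succ] at h; omega

/-- numbers below a power of two with a property -/
noncomputable def fl (d : ℕ) (A : ℕ → Prop) : Finset ℕ :=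
  @Finset.filter ℕ A (Classical.decPred A) (Finset.range (2 ^ d))

theorem mem_fl (d : ℕ) (A : ℕ → Prop) (X : ℕ) : X ∈ fl d A ↔ X < 2 ^ d ∧ A X := by
  unfold fl
  letI := Classical.decPred A
  rw [Finset.mem_filter, Finset.mem_range]

noncomputable def cnt (d r : ℕ) (Q : ℕ → Prop) : ℕ :=
  (fl d (fun X => (∃ u, X / 2 ^ u = r) ∧ Q X)).card

theorem level_iff (r i k X : ℕ) (h1 : 2 ^ i ≤ r) (h2 : r < 2 ^ (i + 1)) (hik : i ≤ k) :
    (2 ^ k ≤ X ∧ X < 2 ^ (k + 1) ∧ ∃ u, X / 2 ^ u = r) ↔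
      (r * 2 ^ (k - i) ≤ X ∧ X < (r + 1) * 2 ^ (k - i)) := by
  constructor
  · rintro ⟨h3, h4, u, h5⟩
    have h6 : r * 2 ^ u ≤ X := by rw [← h5]; exact Nat.div_mul_le_self X _
    have h7 : X < (r + 1) * 2 ^ u := by
      rw [← h5]
      have h8 := Nat.div_add_mod X (2 ^ u)
      have h9 := Nat.mod_lt X (by positivity : 0 < 2 ^ u)
      rw [add_mul, one_mul, mul_comm (X / 2 ^ u)]
      omega
    have h8 : 2 ^ (i + u) < 2 ^ (k + 1) := by
      rw [pow_add]
      exact lt_of_le_of_lt (le_trans (Nat.mul_le_mul_right _ h1) h6) h4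
    have h9 : 2 ^ k < 2 ^ (i + 1 + u) := by
      rw [pow_add]
      exact lt_of_le_of_lt h3 (lt_of_lt_of_le h7 (Nat.mul_le_mul_right _ h2))
    have h10 := (Nat.pow_lt_pow_iff_right (by norm_num : 1 < 2)).1 h8
    have h11 := (Nat.pow_lt_pow_iff_right (by norm_num : 1 < 2)).1 h9
    have : u = k - i := by omega
    subst this
    exact ⟨h6, h7⟩
  · rintro ⟨h3, h4⟩
    have e1 : 2 ^ i * 2 ^ (k - i) = 2 ^ k := by rw [← pow_add]; congr 1; omega
    have e2 : 2 ^ (i + 1) * 2 ^ (k - i) = 2 ^ (k + 1) := by rw [← pow_add]; congr 1; omega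
    refine ⟨?_, ?_, k - i, ?_⟩
    · rw [← e1]; exact le_trans (Nat.mul_le_mul_right _ h1) h3
    · rw [← e2]; exact lt_of_lt_of_le h4 (Nat.mul_le_mul_right _ h2)
    · exact Nat.div_eq_of_lt_le h3 h4

theorem cnt_level (r i k : ℕ) (h1 : 2 ^ i ≤ r) (h2 : r < 2 ^ (i + 1)) (hik : i ≤ k) :
    (fl (k + 1) (fun X => (∃ u, X / 2 ^ u = r) ∧ 2 ^ k ≤ X)).card = 2 ^ (k - i) := by
  have : fl (k + 1) (fun X => (∃ u, X / 2 ^ u = r) ∧ 2 ^ k ≤ X) =
      Finset.Ico (r * 2 ^ (k - i)) ((r + 1) * 2 ^ (k - i)) := by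
    ext X
    rw [mem_fl, Finset.mem_Ico, ← level_iff r i k X h1 h2 hik]
    constructor
    · rintro ⟨a, b, c⟩; exact ⟨c, a, b⟩
    · rintro ⟨a, b, c⟩; exact ⟨b, c, a⟩
  rw [this, Nat.card_Ico, add_mul, one_mul, Nat.add_sub_cancel_left]

theorem cnt_top (r i d : ℕ) (h1 : 2 ^ i ≤ r) (h2 : r < 2 ^ (i + 1)) (hid : i < d) :
    cnt d r (fun X => 2 ^ (d - 1) ≤ X) = 2 ^ (d - 1 - i) := by
  obtain ⟨k, rfl⟩ : ∃ k, d = k + 1 := ⟨d - 1, by omega⟩
  have := cnt_level r i k h1 h2 (by omega)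
  unfold cnt
  rw [Nat.add_sub_cancel]
  exact this

theorem cnt_all (r i : ℕ) (h1 : 2 ^ i ≤ r) (h2 : r < 2 ^ (i + 1)) (v : ℕ) :
    cnt (i + v) r (fun _ => True) = 2 ^ v - 1 := by
  induction v with
  | zero =>
    unfold cnt
    have : fl (i + 0) (fun X => (∃ u, X / 2 ^ u = r) ∧ True) = ∅ := by
      rw [Finset.eq_empty_iff_forall_notMem]
      intro X hX
      obtain ⟨h4, ⟨u, hu⟩, _⟩ := (mem_fl _ _ _).1 hX
      have h3 : X / 2 ^ u ≤ X := Nat.div_le_self _ _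
      rw [add_zero] at h4
      omega
    rw [this]; rfl
  | succ v ih =>
    have h3 := cnt_level r i (i + v) h1 h2 (by omega)
    unfold cnt at ih ⊢
    have h4 : fl (i + (v + 1)) (fun X => (∃ u, X / 2 ^ u = r) ∧ True) =
        fl (i + v) (fun X => (∃ u, X / 2 ^ u = r) ∧ True) ∪
        fl (i + v + 1) (fun X => (∃ u, X / 2 ^ u = r) ∧ 2 ^ (i + v) ≤ X) := by
      ext X
      simp only [Finset.mem_union, mem_fl, and_true]
      have e1 : (2 : ℕ) ^ (i + (v + 1)) = 2 * 2 ^ (i + v) := by ring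
      have e2 : (2 : ℕ) ^ (i + v + 1) = 2 * 2 ^ (i + v) := by ring
      rw [e1, e2]
      constructor
      · rintro ⟨h5, h6⟩
        by_cases h7 : X < 2 ^ (i + v)
        · left; exact ⟨h7, h6⟩
        · right; exact ⟨h5, h6, by omega⟩
      · rintro (⟨h5, h6⟩ | ⟨h5, h6, _⟩)
        · exact ⟨by omega, h6⟩
        · exact ⟨h5, h6⟩
    rw [h4, Finset.card_union_of_disjoint, ih, h3]
    · have e3 : i + v - i = v := by omega
      rw [e3, pow_succ]
      have : 1 ≤ 2 ^ v := Nat.one_le_two_pow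
      omega
    · rw [Finset.disjoint_left]
      intro X hX hY
      have h5 := ((mem_fl _ _ _).1 hX).1
      have h6 := ((mem_fl _ _ _).1 hY).2.2
      omega

/-- the roots -/
def Par.RT (p : Par) : Finset ℕ := insert (2 ^ p.j) (p.L.image (fun i => 2 ^ i + 1))

theorem Par.mem_RT (p : Par) (r : ℕ) : r ∈ p.RT ↔ (r = 2 ^ p.j ∨ ∃ i ∈ p.L, r = 2 ^ i + 1) := by
  unfold Par.RT
  rw [Finset.mem_insert, Finset.mem_image]
  constructor
  · rintro (h | ⟨i, hi, h⟩)
    · left; exact h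
    · right; exact ⟨i, hi, h.symm⟩
  · rintro (h | ⟨i, hi, h⟩)
    · left; exact h
    · right; exact ⟨i, hi, h.symm⟩

theorem Par.RT_pre (p : Par) (h : p.OK) (r r' v : ℕ) (hr : r ∈ p.RT) (hr' : r' ∈ p.RT)
    (hv : r / 2 ^ v = r') : r = r' := by
  rcases Nat.eq_zero_or_pos v with h0 | h0
  · subst h0; simpa using hv
  · exfalso
    rw [p.mem_RT] at hr hr'
    have hpos : r' ≠ 0 := by
      rcases hr' with h1 | ⟨i, hi, h1⟩
      · rw [h1]; positivity
      · rw [h1]; exact Nat.succ_ne_zero _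
    rcases hr with h1 | ⟨i, hi, h1⟩
    · by_cases hvj : v ≤ p.j
      · rw [h1, Nat.pow_div hvj (by norm_num)] at hv
        rcases hr' with h2 | ⟨i, hi, h2⟩
        · rw [h2] at hv
          have := Nat.pow_right_injective (le_refl 2) hv
          omega
        · rw [h2] at hv
          exact pow_ne_add_one _ _ (h.hL i hi).1 hv
      · rw [h1, Nat.div_eq_of_lt (Nat.pow_lt_pow_right (by norm_num) (by omega))] at hv
        exact hpos hv.symm
    · have hi1 := (h.hL i hi)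
      have e1 : (2 ^ i + 1) / 2 ^ v = 2 ^ i / 2 ^ v := by
        obtain ⟨v', rfl⟩ : ∃ v', v = v' + 1 := ⟨v - 1, by omega⟩
        obtain ⟨i', rfl⟩ : ∃ i', i = i' + 1 := ⟨i - 1, by omega⟩
        rw [pow_succ 2 v', mul_comm (2 ^ v') 2, ← Nat.div_div_eq_div_mul,
          ← Nat.div_div_eq_div_mul, pow_succ 2 i']
        congr 1
        omega
      rw [h1, e1] at hv
      by_cases hvj : v ≤ i
      · rw [Nat.pow_div hvj (by norm_num)] at hv
        rcases hr' with h2 | ⟨i', hi', h2⟩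
        · rw [h2] at hv
          have := Nat.pow_right_injective (le_refl 2) hv
          omega
        · rw [h2] at hv
          exact pow_ne_add_one _ _ (h.hL i' hi').1 hv
      · rw [Nat.div_eq_of_lt (Nat.pow_lt_pow_right (by norm_num) (by omega))] at hv
        exact hpos hv.symm

theorem Par.RT_unique (p : Par) (h : p.OK) (r r' X u u' : ℕ) (hr : r ∈ p.RT) (hr' : r' ∈ p.RT)
    (h1 : X / 2 ^ u = r) (h2 : X / 2 ^ u' = r') : r = r' := by
  rcases Nat.le_total u u' with h3 | h3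
  · apply p.RT_pre h r r' (u' - u) hr hr'
    rw [← h1, Nat.div_div_eq_div_mul, ← pow_add]
    have : u + (u' - u) = u' := by omega
    rw [this]; exact h2
  · symm
    apply p.RT_pre h r' r (u - u') hr' hr
    rw [← h2, Nat.div_div_eq_div_mul, ← pow_add]
    have : u' + (u - u') = u := by omega
    rw [this]; exact h1

theorem Par.cnt_G (p : Par) (h : p.OK) (Q : ℕ → Prop) :
    (fl p.d (fun X => (∃ u, X / 2 ^ u ∈ p.RT) ∧ Q X)).card =
      (∑ i ∈ p.L, cnt p.d (2 ^ i + 1) Q) + cnt p.d (2 ^ p.j) Q := by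
  have h1 : fl p.d (fun X => (∃ u, X / 2 ^ u ∈ p.RT) ∧ Q X) =
      p.RT.biUnion (fun r => fl p.d (fun X => (∃ u, X / 2 ^ u = r) ∧ Q X)) := by
    ext X
    simp only [mem_fl, Finset.mem_biUnion]
    constructor
    · rintro ⟨h2, ⟨u, h3⟩, h4⟩
      exact ⟨X / 2 ^ u, h3, h2, ⟨u, rfl⟩, h4⟩
    · rintro ⟨r, hr, h2, ⟨u, h3⟩, h4⟩
      exact ⟨h2, ⟨u, by rw [h3]; exact hr⟩, h4⟩
  rw [h1, Finset.card_biUnion]
  · unfold Par.RT
    rw [Finset.sum_insert, Finset.sum_image]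
    · rw [add_comm]; rfl
    · intro a _ b _ hab
      have : 2 ^ a = 2 ^ b := by simpa using hab
      exact Nat.pow_right_injective (le_refl 2) this
    · intro h2
      obtain ⟨i, hi, h3⟩ := Finset.mem_image.1 h2
      exact pow_ne_add_one _ _ (h.hL i hi).1 h3.symm
  · intro r hr r' hr' hne
    rw [Function.onFun, Finset.disjoint_left] 
    intro X hX hY
    obtain ⟨⟨u, hu⟩, _⟩ := ((mem_fl _ _ _).1 hX).2
    obtain ⟨⟨u', hu'⟩, _⟩ := ((mem_fl _ _ _).1 hY).2
    exact hne (p.RT_unique h r r' X u u' hr hr' hu hu')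

/-- the flexible part of the state count -/
def Par.V (p : Par) : ℕ :=
  if p.b = 0 then (∑ i ∈ p.L, (2 ^ (p.d + 1 - i) - 1)) + (2 ^ (p.d + 1 - p.j) - 1)
  else 2 ^ (p.d + 1)

noncomputable def Par.Gs (p : Par) : Finset ℕ := fl p.d (fun X => p.G X)
noncomputable def Par.Ts (p : Par) : Finset ℕ := fl p.d (fun X => p.GT X)

theorem Par.mem_Gs (p : Par) (X : ℕ) : X ∈ p.Gs ↔ p.G X := by
  unfold Par.Gs
  rw [mem_fl]
  constructor
  · intro h; exact h.2
  · intro h; exact ⟨h.1, h⟩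

theorem Par.mem_Ts (p : Par) (X : ℕ) : X ∈ p.Ts ↔ p.GT X := by
  unfold Par.Ts
  rw [mem_fl]
  constructor
  · intro h; exact h.2
  · intro h; exact ⟨h.1.1, h⟩

theorem Par.card_GT (p : Par) (h : p.OK) : p.Gs.card + 2 * p.Ts.card = p.V := by
  have hd := h.hd
  have hj := h.hj
  have e0 : 2 * 2 ^ (p.d - 1) = 2 ^ p.d := two_mul_pow_pred hd
  by_cases hb : p.b = 0
  · have h1 : p.Gs = fl p.d (fun X => (∃ u, X / 2 ^ u ∈ p.RT) ∧ True) := by
      ext X
      rw [p.mem_Gs, mem_fl]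
      unfold Par.G Par.root
      simp only [p.mem_RT, hb, true_and, ne_eq, not_true_eq_false, false_and, or_false, and_true]
    have h2 : p.Ts = fl p.d (fun X => (∃ u, X / 2 ^ u ∈ p.RT) ∧ 2 ^ (p.d - 1) ≤ X) := by
      ext X
      rw [p.mem_Ts, mem_fl]
      unfold Par.GT Par.G Par.root
      simp only [p.mem_RT, hb, true_and, ne_eq, not_true_eq_false, false_and, or_false]
      exact and_assoc
    have h3 : ∀ i, 1 ≤ i → i < p.d → ∀ r, 2 ^ i ≤ r → r < 2 ^ (i + 1) →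
        cnt p.d r (fun _ => True) + 2 * cnt p.d r (fun X => 2 ^ (p.d - 1) ≤ X) =
          2 ^ (p.d + 1 - i) - 1 := by
      intro i _ hi r hr1 hr2
      rw [cnt_top r i p.d hr1 hr2 hi]
      have h4 := cnt_all r i hr1 hr2 (p.d - i)
      have e1 : i + (p.d - i) = p.d := by omega
      rw [e1] at h4
      rw [h4]
      have e2 : p.d - i = p.d - 1 - i + 1 := by omega
      have e3 : p.d + 1 - i = p.d - 1 - i + 1 + 1 := by omega
      rw [e2, e3, pow_succ, pow_succ]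
      have : 1 ≤ 2 ^ (p.d - 1 - i) := Nat.one_le_two_pow
      omega
    have h3' : ∀ i, i < p.d → 
        cnt p.d (2 ^ i) (fun _ => True) + 2 * cnt p.d (2 ^ i) (fun X => 2 ^ (p.d - 1) ≤ X) =
          2 ^ (p.d + 1 - i) - 1 := by
      intro i hi
      have hr1 : 2 ^ i ≤ 2 ^ i := le_rfl
      have hr2 : 2 ^ i < 2 ^ (i + 1) := Nat.pow_lt_pow_right (by norm_num) (by omega)
      rw [cnt_top _ i p.d hr1 hr2 hi]
      have h4 := cnt_all _ i hr1 hr2 (p.d - i)
      have e1 : i + (p.d - i) = p.d := by omega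
      rw [e1] at h4
      rw [h4]
      have e2 : p.d - i = p.d - 1 - i + 1 := by omega
      have e3 : p.d + 1 - i = p.d - 1 - i + 1 + 1 := by omega
      rw [e2, e3, pow_succ, pow_succ]
      have : 1 ≤ 2 ^ (p.d - 1 - i) := Nat.one_le_two_pow
      omega
    have h7 := p.cnt_G h (fun _ => True)
    have h8 := p.cnt_G h (fun X => 2 ^ (p.d - 1) ≤ X)
    rw [h1, h2, h7, h8]
    unfold Par.V
    rw [if_pos hb, ← h3' p.j hj]
    have h5 : ∑ i ∈ p.L, (2 ^ (p.d + 1 - i) - 1) =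
        ∑ i ∈ p.L, (cnt p.d (2 ^ i + 1) (fun _ => True) +
          2 * cnt p.d (2 ^ i + 1) (fun X => 2 ^ (p.d - 1) ≤ X)) := by
      apply Finset.sum_congr rfl
      intro i hi
      have h6 := h.hL i hi
      rw [h3 i h6.1 (by omega) (2 ^ i + 1) (by omega)]
      rw [pow_succ]
      have : 2 ^ 1 ≤ 2 ^ i := Nat.pow_le_pow_right (by norm_num) h6.1
      omega
    rw [h5, Finset.sum_add_distrib, ← Finset.mul_sum]
    ring
  · have h1 : p.Gs = Finset.range (2 ^ p.d) := by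
      ext X
      rw [p.mem_Gs, Finset.mem_range]
      constructor
      · intro h2; exact h2.1
      · intro h2; exact ⟨h2, p.d, Or.inr ⟨hb, Nat.div_eq_of_lt h2⟩⟩
    have h2 : p.Ts = Finset.Ico (2 ^ (p.d - 1)) (2 ^ p.d) := by
      ext X
      rw [p.mem_Ts, Finset.mem_Ico]
      constructor
      · intro h2; exact ⟨h2.2, h2.1.1⟩
      · intro h2; exact ⟨⟨h2.2, p.d, Or.inr ⟨hb, Nat.div_eq_of_lt h2.2⟩⟩, h2.1⟩
    rw [h1, h2, Finset.card_range, Nat.card_Ico]
    unfold Par.V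
    rw [if_neg hb, pow_succ]
    omega

end Pool.Agent.W713.Magic
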