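import Pool.Agent.W713.MagicE

set_option autoImplicit false

namespace Pool.Agent.W713.Magic

open Cf

noncomputable def Par.Rs (p : Par) : Finset (ℕ × Bool) :=
  (Finset.range (2 ^ p.d)).image (fun Y => (2 * Y + 1, true)) ∪
  ((if p.e = 1 then (Finset.range (2 ^ p.d)).image (fun Y => (4 * Y + 2, false)) else ∅) ∪
   ((Finset.range (2 ^ p.d)) ×ˢ (Finset.univ : Finset Bool)).image
      (fun q => (2 ^ (p.e + 1) * q.1, q.2)))

theorem Par.mem_Rs (p : Par) (h : p.OK) (X : ℕ) (f : Bool) : (X, f) ∈ p.Rs ↔ p.R X f := by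
  have he := h.he
  have e1 : (2 : ℕ) ^ (p.d + 1) = 2 * 2 ^ p.d := by ring
  have e2 : (2 : ℕ) ^ (p.d + 2) = 4 * 2 ^ p.d := by ring
  unfold Par.Rs Par.R
  rcases (by omega : p.e = 0 ∨ p.e = 1) with h0 | h0
  · rw [h0]
    simp only [Finset.mem_union, Finset.mem_image, Finset.mem_range, Finset.mem_product,
      Finset.mem_univ, and_true, Prod.mk.injEq, Prod.exists, zero_ne_one, if_false,
      Finset.notMem_empty, false_or, false_and, zero_add, pow_one, add_zero]
    constructor
    · rintro (⟨Y, h1, h2, h3⟩ | ⟨Y, g, h1, h2, h3⟩)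
      · left; exact ⟨by omega, by omega, h3.symm⟩
      · right; exact ⟨by omega, by omega⟩
    · rintro (⟨h1, h2, h3⟩ | ⟨h1, h2⟩)
      · left; exact ⟨X / 2, by omega, by omega, h3.symm⟩
      · right; exact ⟨X / 2, f, by omega, by omega, rfl⟩
  · rw [h0]
    simp only [Finset.mem_union, Finset.mem_image, Finset.mem_range, Finset.mem_product,
      Finset.mem_univ, and_true, Prod.mk.injEq, Prod.exists, if_true, true_and]
    have e3 : (2 : ℕ) ^ (1 + 1) = 4 := by norm_num
    have e4 : (2 : ℕ) ^ (p.d + 1 + 1) = 4 * 2 ^ p.d := by ring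
    rw [e3, e4]
    constructor
    · rintro (⟨Y, h1, h2, h3⟩ | ⟨Y, h1, h2, h3⟩ | ⟨Y, g, h1, h2, h3⟩)
      · left; exact ⟨by omega, by omega, h3.symm⟩
      · right; left; exact ⟨by omega, by omega, h3.symm⟩
      · right; right; exact ⟨by omega, by omega⟩
    · rintro (⟨h1, h2, h3⟩ | ⟨h1, h2, h3⟩ | ⟨h1, h2⟩)
      · left; exact ⟨X / 2, by omega, by omega, h3.symm⟩
      · right; left; exact ⟨X / 4, by omega, by omega, h3.symm⟩
      · right; right; exact ⟨X / 4, f, by omega, by omega, rfl⟩

theorem Par.card_Rs (p : Par) (h : p.OK) : p.Rs.card = (p.e + 3) * 2 ^ p.d := by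
  have he := h.he
  unfold Par.Rs
  have c1 : ((Finset.range (2 ^ p.d)).image (fun Y => (2 * Y + 1, true))).card = 2 ^ p.d := by
    rw [Finset.card_image_of_injective, Finset.card_range]
    intro a b hab
    simp only [Prod.mk.injEq, and_true] at hab
    omega
  have c2 : ((Finset.range (2 ^ p.d)).image (fun Y => (4 * Y + 2, false))).card = 2 ^ p.d := by
    rw [Finset.card_image_of_injective, Finset.card_range]
    intro a b hab
    simp only [Prod.mk.injEq, and_true] at hab
    omega
  have c3 : (((Finset.range (2 ^ p.d)) ×ˢ (Finset.univ : Finset Bool)).image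
      (fun q => (2 ^ (p.e + 1) * q.1, q.2))).card = 2 ^ p.d * 2 := by
    rw [Finset.card_image_of_injective, Finset.card_product, Finset.card_range]
    · rfl
    · rintro ⟨a, f⟩ ⟨b, g⟩ hab
      simp only [Prod.mk.injEq] at hab ⊢
      exact ⟨Nat.eq_of_mul_eq_mul_left (by positivity) hab.1, hab.2⟩
  rcases (by omega : p.e = 0 ∨ p.e = 1) with h0 | h0
  · rw [h0] at c3 ⊢
    simp only [zero_ne_one, if_false, Finset.empty_union]
    rw [Finset.card_union_of_disjoint, c1, c3]
    · ring
    · rw [Finset.disjoint_left]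
      rintro ⟨X, f⟩ hx hy
      simp only [Finset.mem_image, Finset.mem_range, Finset.mem_product,
        Finset.mem_univ, and_true, Prod.mk.injEq, Prod.exists, zero_add, pow_one] at hx hy
      obtain ⟨Y, _, h1, _⟩ := hx
      obtain ⟨Z, _, _, h2, _⟩ := hy
      omega
  · rw [h0] at c3 ⊢
    simp only [if_true]
    rw [Finset.card_union_of_disjoint, Finset.card_union_of_disjoint, c1, c2, c3]
    · ring
    · rw [Finset.disjoint_left]
      rintro ⟨X, f⟩ hx hy
      simp only [Finset.mem_image, Finset.mem_range, Finset.mem_product,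
        Finset.mem_univ, and_true, Prod.mk.injEq, Prod.exists] at hx hy
      obtain ⟨Y, _, h1, _⟩ := hx
      obtain ⟨Z, _, _, h2, _⟩ := hy
      omega
    · rw [Finset.disjoint_left]
      rintro ⟨X, f⟩ hx hy
      simp only [Finset.mem_union, Finset.mem_image, Finset.mem_range, Finset.mem_product,
        Finset.mem_univ, and_true, Prod.mk.injEq, Prod.exists] at hx hy
      obtain ⟨Y, _, h1, _⟩ := hx
      rcases hy with ⟨Z, _, h2, _⟩ | ⟨Z, _, _, h2, _⟩
      · omega
      · omega

def kd : Cf → ℕ
  | ch _ => 1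
  | ti _ => 2
  | emp => 3
  | ff => 4
  | yf => 5
  | lo _ => 6
  | ri _ _ => 7

theorem card_step {A B : Finset Cf} (k : ℕ) (hA : ∀ x ∈ A, kd x = k + 1)
    (hB : ∀ x ∈ B, k + 1 < kd x) : (A ∪ B).card = A.card + B.card ∧ ∀ x ∈ A ∪ B, k < kd x := by
  constructor
  · apply Finset.card_union_of_disjoint
    rw [Finset.disjoint_left]
    intro x hx hy
    have := hA x hx
    have := hB x hy
    omega
  · intro x hx
    rcases Finset.mem_union.1 hx with hx | hx
    · have := hA x hx; omega
    · have := hB x hx; omega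

noncomputable def Par.F1 (p : Par) : Finset Cf := (Finset.range (p.t + 1)).image ch
noncomputable def Par.F2 (p : Par) : Finset Cf := (Finset.Icc 1 (p.d + 1)).image ti
noncomputable def Par.F3 (p : Par) : Finset Cf := if p.r ≠ 0 then {emp} else ∅
noncomputable def Par.F4 (p : Par) : Finset Cf := if p.r = 2 then {ff} else ∅
noncomputable def Par.F5 (p : Par) : Finset Cf := if p.b = 2 then {yf} else ∅
noncomputable def Par.F6 (p : Par) : Finset Cf :=
  p.Gs.image lo ∪ p.Ts.image (fun Y => lo (2 * Y + 1))
noncomputable def Par.F7 (p : Par) : Finset Cf :=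
  p.Rs.image (fun q => ri q.1 q.2) ∪
    ({ri 1 false} ∪ p.Ts.image (fun Y => ri (4 * (Y - 2 ^ (p.d - 1)) + 3) false))

noncomputable def Par.FG (p : Par) : Finset Cf :=
  p.F1 ∪ (p.F2 ∪ (p.F3 ∪ (p.F4 ∪ (p.F5 ∪ (p.F6 ∪ p.F7)))))

theorem Par.kd1 (p : Par) : ∀ x ∈ p.F1, kd x = 1 := by
  intro x hx
  obtain ⟨i, _, rfl⟩ := Finset.mem_image.1 hx
  rfl
theorem Par.kd2 (p : Par) : ∀ x ∈ p.F2, kd x = 2 := by
  intro x hx
  obtain ⟨i, _, rfl⟩ := Finset.mem_image.1 hx
  rfl
theorem Par.kd3 (p : Par) : ∀ x ∈ p.F3, kd x = 3 := by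
  intro x hx
  unfold Par.F3 at hx
  split_ifs at hx
  · rw [Finset.mem_singleton.1 hx]; rfl
  · exact absurd hx (Finset.notMem_empty _)
theorem Par.kd4 (p : Par) : ∀ x ∈ p.F4, kd x = 4 := by
  intro x hx
  unfold Par.F4 at hx
  split_ifs at hx
  · rw [Finset.mem_singleton.1 hx]; rfl
  · exact absurd hx (Finset.notMem_empty _)
theorem Par.kd5 (p : Par) : ∀ x ∈ p.F5, kd x = 5 := by
  intro x hx
  unfold Par.F5 at hx
  split_ifs at hx
  · rw [Finset.mem_singleton.1 hx]; rfl
  · exact absurd hx (Finset.notMem_empty _)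
theorem Par.kd6 (p : Par) : ∀ x ∈ p.F6, kd x = 6 := by
  intro x hx
  rcases Finset.mem_union.1 hx with hx | hx
  · obtain ⟨i, _, rfl⟩ := Finset.mem_image.1 hx
    rfl
  · obtain ⟨i, _, rfl⟩ := Finset.mem_image.1 hx
    rfl
theorem Par.kd7 (p : Par) : ∀ x ∈ p.F7, kd x = 7 := by
  intro x hx
  rcases Finset.mem_union.1 hx with hx | hx
  · obtain ⟨i, _, rfl⟩ := Finset.mem_image.1 hx
    rfl
  · rcases Finset.mem_union.1 hx with hx | hx
    · rw [Finset.mem_singleton.1 hx]; rfl
    · obtain ⟨i, _, rfl⟩ := Finset.mem_image.1 hx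
      rfl

theorem Par.cF6 (p : Par) (h : p.OK) : p.F6.card = p.Gs.card + p.Ts.card := by
  have e0 : 2 * 2 ^ (p.d - 1) = 2 ^ p.d := two_mul_pow_pred h.hd
  unfold Par.F6
  rw [Finset.card_union_of_disjoint, Finset.card_image_of_injective,
    Finset.card_image_of_injective]
  · intro a b hab
    have : 2 * a + 1 = 2 * b + 1 := by injection hab
    omega
  · intro a b hab
    injection hab
  · rw [Finset.disjoint_left]
    intro x hx hy
    obtain ⟨X, hX, rfl⟩ := Finset.mem_image.1 hx
    obtain ⟨Y, hY, h1⟩ := Finset.mem_image.1 hy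
    have h2 : 2 * Y + 1 = X := by injection h1
    have h3 := ((p.mem_Gs X).1 hX).1
    have h4 := ((p.mem_Ts Y).1 hY).2
    omega

theorem Par.R_odd_false (p : Par) (X : ℕ) (ho : X % 2 = 1) : ¬ p.R X false := by
  rintro (⟨h1, h2, h3⟩ | ⟨h1, h2, h3, h4⟩ | ⟨h1, h2⟩)
  · exact absurd h3 (by simp)
  · omega
  · have h5 : 2 ∣ 2 ^ (p.e + 1) := dvd_pow_self 2 (by omega)
    have h6 := Nat.mod_mod_of_dvd X h5
    rw [h1] at h6
    have : X % 2 = 0 := by simpa using h6.symm
    omega

theorem Par.cF7 (p : Par) (h : p.OK) : p.F7.card = (p.e + 3) * 2 ^ p.d + (1 + p.Ts.card) := by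
  have e0 : 2 * 2 ^ (p.d - 1) = 2 ^ p.d := two_mul_pow_pred h.hd
  unfold Par.F7
  rw [Finset.card_union_of_disjoint, Finset.card_union_of_disjoint,
    Finset.card_image_of_injective, p.card_Rs h, Finset.card_singleton,
    Finset.card_image_of_injOn]
  · intro a ha b hb hab
    have h1 : 4 * (a - 2 ^ (p.d - 1)) + 3 = 4 * (b - 2 ^ (p.d - 1)) + 3 := by injection hab
    have h2 := ((p.mem_Ts a).1 ha).2
    have h3 := ((p.mem_Ts b).1 hb).2
    omega
  · rintro ⟨a, f⟩ ⟨b, g⟩ hab
    injection hab with h1 h2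
    have h1' : a = b := h1
    have h2' : f = g := h2
    rw [h1', h2']
  · rw [Finset.disjoint_left]
    intro x hx hy
    rw [Finset.mem_singleton] at hx
    subst hx
    obtain ⟨Y, hY, h1⟩ := Finset.mem_image.1 hy
    have h2 : 4 * (Y - 2 ^ (p.d - 1)) + 3 = 1 := by injection h1
    omega
  · rw [Finset.disjoint_left]
    intro x hx hy
    obtain ⟨⟨X, f⟩, hq, rfl⟩ := Finset.mem_image.1 hx
    have hR := (p.mem_Rs h X f).1 hq
    rcases Finset.mem_union.1 hy with hy | hy
    · have h1 := Finset.mem_singleton.1 hy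
      injection h1 with h2 h3
      have h2' : X = 1 := h2
      have h3' : f = false := h3
      rw [h3'] at hR
      exact p.R_odd_false X (by omega) hR
    · obtain ⟨Y, hY, h1⟩ := Finset.mem_image.1 hy
      injection h1 with h2 h3
      have h2' : 4 * (Y - 2 ^ (p.d - 1)) + 3 = X := h2
      have h3' : false = f := h3
      rw [← h3'] at hR
      exact p.R_odd_false X (by omega) hR

/-- number of states of the minimal automaton -/
def Par.N (p : Par) : ℕ :=
  p.t + p.d + 3 + p.r + (if p.b = 2 then 1 else 0) + (p.e + 3) * 2 ^ p.d + p.V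

theorem Par.card_FG (p : Par) (h : p.OK) : p.FG.card = p.N := by
  have hr := h.hr
  have s6 := card_step 5 p.kd6 (fun x hx => by rw [p.kd7 x hx]; norm_num)
  have s5 := card_step 4 p.kd5 s6.2
  have s4 := card_step 3 p.kd4 s5.2
  have s3 := card_step 2 p.kd3 s4.2
  have s2 := card_step 1 p.kd2 s3.2
  have s1 := card_step 0 p.kd1 s2.2
  unfold Par.FG
  rw [s1.1, s2.1, s3.1, s4.1, s5.1, s6.1, p.cF6 h, p.cF7 h]
  have c1 : p.F1.card = p.t + 1 := by
    unfold Par.F1
    rw [Finset.card_image_of_injective, Finset.card_range]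
    intro a b hab; injection hab
  have c2 : p.F2.card = p.d + 1 := by
    unfold Par.F2
    rw [Finset.card_image_of_injective, Nat.card_Icc, Nat.add_sub_cancel]
    intro a b hab; injection hab
  have c34 : p.F3.card + p.F4.card = p.r := by
    unfold Par.F3 Par.F4
    rcases (by omega : p.r = 0 ∨ p.r = 1 ∨ p.r = 2) with h0 | h0 | h0 <;> simp [h0]
  have c5 : p.F5.card = if p.b = 2 then 1 else 0 := by
    unfold Par.F5; split_ifs <;> rfl
  rw [c1, c2, c5]
  have hV := p.card_GT h
  unfold Par.N
  omega

theorem Par.mem_FG (p : Par) (h : p.OK) (c : Cf) : c ∈ p.FG ↔ p.Good c := by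
  unfold Par.FG Par.F1 Par.F2 Par.F3 Par.F4 Par.F5 Par.F6 Par.F7
  simp only [Finset.mem_union]
  cases c with
  | ch i =>
    simp only [Par.Good]
    constructor
    · intro h1
      rcases h1 with h1 | h1 | h1 | h1 | h1 | (h1 | h1) | h1 | h1 | h1
      · obtain ⟨k, hk, h2⟩ := Finset.mem_image.1 h1
        injection h2 with h2
        have := Finset.mem_range.1 hk
        omega
      · obtain ⟨k, hk, h2⟩ := Finset.mem_image.1 h1
        injection h2
      · split_ifs at h1 <;> simp at h1
      · split_ifs at h1 <;> simp at h1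
      · split_ifs at h1 <;> simp at h1
      all_goals simp at h1
    · intro h1
      left
      exact Finset.mem_image.2 ⟨i, Finset.mem_range.2 (by omega), rfl⟩
  | ti i =>
    simp only [Par.Good]
    constructor
    · intro h1
      rcases h1 with h1 | h1 | h1 | h1 | h1 | (h1 | h1) | h1 | h1 | h1
      · simp at h1
      · obtain ⟨k, hk, h2⟩ := Finset.mem_image.1 h1
        injection h2 with h2
        have := Finset.mem_Icc.1 hk
        omega
      · split_ifs at h1 <;> simp at h1
      · split_ifs at h1 <;> simp at h1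
      · split_ifs at h1 <;> simp at h1
      all_goals simp at h1
    · intro h1
      right; left
      exact Finset.mem_image.2 ⟨i, Finset.mem_Icc.2 (by omega), rfl⟩
  | emp =>
    simp only [Par.Good]
    constructor
    · intro h1
      rcases h1 with h1 | h1 | h1 | h1 | h1 | (h1 | h1) | h1 | h1 | h1
      · simp at h1
      · simp at h1
      · intro h2
        rw [if_neg (by omega)] at h1; simp at h1
      · split_ifs at h1 <;> simp at h1
      · split_ifs at h1 <;> simp at h1
      all_goals simp at h1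
    · intro h1
      right; right; left
      rw [if_pos h1]; simp
  | ff =>
    simp only [Par.Good]
    constructor
    · intro h1
      rcases h1 with h1 | h1 | h1 | h1 | h1 | (h1 | h1) | h1 | h1 | h1
      · simp at h1
      · simp at h1
      · split_ifs at h1 <;> simp at h1
      · by_contra h2
        rw [if_neg h2] at h1; simp at h1
      · split_ifs at h1 <;> simp at h1
      all_goals simp at h1
    · intro h1
      right; right; right; left
      rw [if_pos h1]; simp
  | yf =>
    simp only [Par.Good]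
    constructor
    · intro h1
      rcases h1 with h1 | h1 | h1 | h1 | h1 | (h1 | h1) | h1 | h1 | h1
      · simp at h1
      · simp at h1
      · split_ifs at h1 <;> simp at h1
      · split_ifs at h1 <;> simp at h1
      · by_contra h2
        rw [if_neg h2] at h1; simp at h1
      all_goals simp at h1
    · intro h1
      right; right; right; right; left
      rw [if_pos h1]; simp
  | lo X =>
    simp only [Par.Good]
    constructor
    · intro h1
      rcases h1 with h1 | h1 | h1 | h1 | h1 | (h1 | h1) | h1 | h1 | h1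
      · simp at h1
      · simp at h1
      · split_ifs at h1 <;> simp at h1
      · split_ifs at h1 <;> simp at h1
      · split_ifs at h1 <;> simp at h1
      · obtain ⟨k, hk, h2⟩ := Finset.mem_image.1 h1
        injection h2 with h2
        left; rw [← h2]; exact (p.mem_Gs k).1 hk
      · obtain ⟨k, hk, h2⟩ := Finset.mem_image.1 h1
        injection h2 with h2
        right; exact ⟨k, (p.mem_Ts k).1 hk, h2.symm⟩
      all_goals simp at h1
    · rintro (h1 | ⟨Y, h1, h2⟩)
      · right; right; right; right; right; left; left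
        exact Finset.mem_image.2 ⟨X, (p.mem_Gs X).2 h1, rfl⟩
      · right; right; right; right; right; left; right
        exact Finset.mem_image.2 ⟨Y, (p.mem_Ts Y).2 h1, by rw [h2]⟩
  | ri X f =>
    simp only [Par.Good]
    constructor
    · intro h1
      rcases h1 with h1 | h1 | h1 | h1 | h1 | (h1 | h1) | h1 | h1 | h1
      · simp at h1
      · simp at h1
      · split_ifs at h1 <;> simp at h1
      · split_ifs at h1 <;> simp at h1
      · split_ifs at h1 <;> simp at h1
      · simp at h1
      · simp at h1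
      · obtain ⟨⟨k, g⟩, hk, h2⟩ := Finset.mem_image.1 h1
        injection h2 with h2 h3
        have h2' : k = X := h2
        have h3' : g = f := h3
        rw [h2', h3'] at hk
        left; exact (p.mem_Rs h X f).1 hk
      · have h2 := Finset.mem_singleton.1 h1
        injection h2 with h2 h3
        right; left; exact ⟨h3, h2⟩
      · obtain ⟨k, hk, h2⟩ := Finset.mem_image.1 h1
        injection h2 with h2 h3
        right; right; exact ⟨h3.symm, k, (p.mem_Ts k).1 hk, h2.symm⟩
    · rintro (h1 | ⟨h1, h2⟩ | ⟨h1, Y, h2, h3⟩)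
      · right; right; right; right; right; right; left
        exact Finset.mem_image.2 ⟨(X, f), (p.mem_Rs h X f).2 h1, rfl⟩
      · right; right; right; right; right; right; right; left
        rw [h1, h2]; simp
      · right; right; right; right; right; right; right; right
        exact Finset.mem_image.2 ⟨Y, (p.mem_Ts Y).2 h2, by rw [h1, h3]⟩

/-- the number of left quotients -/
theorem Par.card_quot (p : Par) (h : p.OK) :
    Nat.card (Set.range (fun u : List (Fin 2) =>
      ({w : List (Fin 2) | u ++ w ∈ p.M.accepts} : Set (List (Fin 2))))) = p.N := by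
  have hmem : ∀ u : List (Fin 2), ({w : List (Fin 2) | u ++ w ∈ p.M.accepts} : Set (List (Fin 2))) =
      {w | acc (p.run (p.run (ch 0) u) w) = true} := by
    intro u
    ext w
    rw [Set.mem_setOf_eq, Set.mem_setOf_eq, p.mem_accepts h, p.run_append]
  have hgood : ∀ u : List (Fin 2), p.Good (p.run (ch 0) u) := by
    intro u
    induction u using List.reverseRecOn with
    | nil => exact Nat.zero_le _
    | append_singleton u x ih =>
      rw [p.run_append]
      exact p.Good_del h _ ih x
  have hφ : ∀ c : {c // c ∈ p.FG}, ({w | acc (p.run c.1 w) = true} : Set (List (Fin 2))) ∈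
      Set.range (fun u : List (Fin 2) =>
      ({w : List (Fin 2) | u ++ w ∈ p.M.accepts} : Set (List (Fin 2)))) := by
    rintro ⟨c, hc⟩
    obtain ⟨u, hu⟩ := p.Good_reach h c ((p.mem_FG h c).1 hc)
    refine ⟨u, ?_⟩
    show ({w : List (Fin 2) | u ++ w ∈ p.M.accepts} : Set (List (Fin 2))) = _
    rw [hmem u, hu]
  let φ : {c // c ∈ p.FG} → Set.range (fun u : List (Fin 2) =>
      ({w : List (Fin 2) | u ++ w ∈ p.M.accepts} : Set (List (Fin 2)))) :=
    fun c => ⟨_, hφ c⟩
  have hb : Function.Bijective φ := by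
    constructor
    · rintro ⟨c, hc⟩ ⟨c', hc'⟩ hcc
      have h1 : ({w | acc (p.run c w) = true} : Set (List (Fin 2))) =
          {w | acc (p.run c' w) = true} := congrArg Subtype.val hcc
      have h2 : c = c' := by
        apply p.inj h c c' ((p.mem_FG h c).1 hc) ((p.mem_FG h c').1 hc')
        intro w
        have h3 : w ∈ ({w | acc (p.run c w) = true} : Set (List (Fin 2))) ↔
          w ∈ ({w | acc (p.run c' w) = true} : Set (List (Fin 2))) := by rw [h1]
        rw [Bool.eq_iff_iff]
        exact h3
      exact Subtype.ext h2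
    · rintro ⟨S, u, hu⟩
      refine ⟨⟨p.run (ch 0) u, (p.mem_FG h _).2 (hgood u)⟩, ?_⟩
      apply Subtype.ext
      show ({w | acc (p.run (p.run (ch 0) u) w) = true} : Set (List (Fin 2))) = S
      rw [← hu, ← hmem u]
  rw [← Nat.card_eq_of_bijective φ hb, ← p.card_FG h]
  simp

end Pool.Agent.W713.Magic
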