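import Pool.Agent.W713.MagicF

set_option autoImplicit false

namespace Pool.Agent.W713.Magic

open Cf

theorem fooling {n m : ℕ} (M : NFA (Fin 2) (Fin m)) (S : Set (List (Fin 2)))
    (hM : ∀ w, w ∈ M.accepts ↔ w ∈ S) (x y : Fin n → List (Fin 2))
    (h1 : ∀ i, x i ++ y i ∈ S) (h2 : ∀ i j, i ≠ j → x i ++ y j ∉ S ∨ x j ++ y i ∉ S) :
    n ≤ m := by
  have h3 : ∀ i, ∃ s : Fin m, s ∈ M.evalFrom M.start (x i) ∧
      ∃ t ∈ M.accept, t ∈ M.evalFrom {s} (y i) := by
    intro i
    have h4 := (hM _).2 (h1 i)
    rw [NFA.mem_accepts] at h4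
    obtain ⟨t, ht, h5⟩ := h4
    rw [NFA.evalFrom_append, NFA.mem_evalFrom_iff_exists] at h5
    obtain ⟨s, hs, h6⟩ := h5
    exact ⟨s, hs, t, ht, h6⟩
  choose f hf1 hf2 using h3
  have h4 : ∀ i j, f i = f j → x i ++ y j ∈ S := by
    intro i j hij
    rw [← hM, NFA.mem_accepts]
    obtain ⟨t, ht, h5⟩ := hf2 j
    refine ⟨t, ht, ?_⟩
    rw [NFA.evalFrom_append, NFA.mem_evalFrom_iff_exists]
    refine ⟨f j, ?_, h5⟩
    rw [← hij]; exact hf1 i
  have hinj : Function.Injective f := by
    intro i j hij
    by_contra hne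
    rcases h2 i j hne with h5 | h5
    · exact h5 (h4 i j hij)
    · exact h5 (h4 j i hij.symm)
  simpa using Fintype.card_le_of_injective f hinj

theorem Par.run_ch (p : Par) (i : ℕ) : i ≤ p.t → p.run (ch 0) (aw i) = ch i := by
  induction i with
  | zero => intro _; rfl
  | succ i ih =>
    intro hi
    rw [aw_add, p.run_append, ih (by omega)]
    have : i < p.t := by omega
    simp [aw, Par.run, Par.del, this]

theorem Par.run_ti (p : Par) (i : ℕ) : 1 ≤ i → i ≤ p.d → p.run (ch 0) (aw (p.t + i)) = ti i := by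
  induction i with
  | zero => intro h1; omega
  | succ i ih =>
    intro h1 h2
    rw [← add_assoc, aw_add, p.run_append]
    rcases Nat.eq_zero_or_pos i with h3 | h3
    · subst h3
      rw [add_zero, p.run_ch p.t le_rfl]
      simp [aw, Par.run, Par.del]
    · rw [ih h3 (by omega)]
      have : i < p.d := by omega
      simp [aw, Par.run, Par.del, this]

theorem Par.run_ri (p : Par) (h : p.OK) (k : ℕ) :
    ∃ X f, p.run (ch 0) (aw (p.t + p.d + 1 + k)) = ri X f := by
  induction k with
  | zero =>
    rw [add_zero, aw_add, p.run_append, p.run_ti p.d h.hd le_rfl]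
    refine ⟨2 * 2 ^ (p.d - 1) % 2 ^ p.P, decide (p.d = p.P), ?_⟩
    simp [aw, Par.run, Par.del]
  | succ k ih =>
    obtain ⟨X, f, hX⟩ := ih
    rw [← add_assoc, aw_add, p.run_append, hX]
    exact ⟨2 * X % 2 ^ p.P, X.testBit (p.P - 1), by simp [aw, Par.run, Par.del]⟩

/-- content of the witness for the state y -/
def Par.XY (p : Par) : ℕ := if p.b = 0 then 2 ^ p.j else 0

def Par.wy (p : Par) : List (Fin 2) := aw p.t ++ (1 :: (if p.b = 2 then [0] else []))

theorem Par.run_wy (p : Par) (h : p.OK) : p.run (ch 0) p.wy = lo p.XY := by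
  have hb := h.hb
  unfold Par.wy Par.XY
  rw [p.run_append, p.run_ch p.t le_rfl]
  rcases (by omega : p.b = 0 ∨ p.b = 1 ∨ p.b = 2) with h0 | h0 | h0 <;>
    simp [Par.run, Par.del, h0]

theorem Par.XY_lt (p : Par) (h : p.OK) : p.XY < 2 ^ (p.d + 1) := by
  unfold Par.XY
  split_ifs
  · exact Nat.pow_lt_pow_right (by norm_num) (by have := h.hj; omega)
  · positivity

def Par.xw (p : Par) (k : ℕ) : List (Fin 2) := if k ≤ p.m + 1 then aw k else p.wy
def Par.yw (p : Par) (k : ℕ) : List (Fin 2) :=
  if k ≤ p.m then aw (p.m - k) else if k = p.m + 1 then [1] else 1 :: aw p.P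

theorem Par.acc0 (p : Par) (k : ℕ) : acc (p.run (ch 0) (aw k)) = decide (k = p.m) := by
  have := p.acc_ch k 0 (Nat.zero_le _)
  simpa using this

theorem Par.cross (p : Par) (h : p.OK) (i : ℕ) (hi : i ≤ p.m) :
    acc (p.run (ch 0) (p.wy ++ aw (p.m - i))) = false ∨
    acc (p.run (ch 0) (aw i ++ (1 :: aw p.P))) = false := by
  have hP : p.P = p.d + 1 + p.e := rfl
  have hm : p.m = p.t + p.P + 1 := rfl
  have hj := h.hj
  rw [p.run_append, p.run_wy h, p.acc_lo h _ _ (p.XY_lt h)]
  by_cases hb : p.b = 0
  · have hX : p.XY = 2 ^ p.j := by unfold Par.XY; rw [if_pos hb]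
    rw [hX]
    cases hc : ea (2 ^ p.j) false p.P (p.m - i) with
    | false => left; rfl
    | true =>
      right
      unfold ea at hc
      split_ifs at hc with h1 h2
      rw [tb_pow] at hc
      have h3 : i = p.t + (p.j + 1) := by omega
      rw [h3, p.run_append, p.run_ti (p.j + 1) (by omega) (by omega)]
      apply p.ba_ti _ (by omega) (by omega)
      intro h4
      have := (h.hL _ h4).2
      omega
  · left
    have hX : p.XY = 0 := by unfold Par.XY; rw [if_neg hb]
    rw [hX, ea_zero]
    split_ifs <;> rfl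

theorem Par.minimal (p : Par) (h : p.OK) (m' : ℕ) (hm' : m' < p.m + 3)
    (N : NFA (Fin 2) (Fin m')) : N.accepts ≠ p.M.accepts := by
  intro heq
  have hP : p.P = p.d + 1 + p.e := rfl
  have hm : p.m = p.t + p.P + 1 := rfl
  have hM : ∀ w, w ∈ N.accepts ↔ w ∈ ({w | acc (p.run (ch 0) w) = true} : Set (List (Fin 2))) := by
    intro w
    rw [heq, p.mem_accepts h]
    rfl
  have hz : acc (p.run (ch 0) (aw (p.m + 1) ++ [1])) = true := by
    rw [p.run_append]
    obtain ⟨X, f, hX⟩ := p.run_ri h (p.P + 1 - p.d)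
    have e1 : p.t + p.d + 1 + (p.P + 1 - p.d) = p.m + 1 := by omega
    rw [e1] at hX
    rw [hX, p.b_ri]
  have hyy : acc (p.run (ch 0) (p.wy ++ (1 :: aw p.P))) = true := by
    rw [p.run_append, p.run_wy h]
    exact p.ba_lo h _ (p.XY_lt h)
  have hyz : acc (p.run (ch 0) (p.wy ++ [1])) = false := by
    rw [p.run_append, p.run_wy h]
    exact p.b_other _ rfl (by intro X f; simp)
  have hle : p.m + 3 ≤ m' := by
    apply fooling N _ hM (fun i => p.xw i.val) (fun i => p.yw i.val)
    · rintro ⟨i, hi⟩
      show acc (p.run (ch 0) (p.xw i ++ p.yw i)) = true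
      unfold Par.xw Par.yw
      by_cases h1 : i ≤ p.m
      · rw [if_pos (by omega), if_pos h1, ← aw_add, p.acc0]
        simp; omega
      · by_cases h2 : i = p.m + 1
        · rw [if_pos (by omega), if_neg h1, if_pos h2, h2]; exact hz
        · rw [if_neg (by omega), if_neg h1, if_neg h2]; exact hyy
    · have key : ∀ i j : ℕ, i < j → j < p.m + 3 →
          acc (p.run (ch 0) (p.xw i ++ p.yw j)) = false ∨
          acc (p.run (ch 0) (p.xw j ++ p.yw i)) = false := by
        intro i j hij hj
        by_cases h1 : j ≤ p.m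
        · left
          unfold Par.xw Par.yw
          rw [if_pos (by omega), if_pos h1, ← aw_add, p.acc0]
          simp; omega
        · by_cases h2 : j = p.m + 1
          · right
            unfold Par.xw Par.yw
            rw [if_pos (by omega), if_pos (by omega), ← aw_add, p.acc0]
            simp; omega
          · have h3 : j = p.m + 2 := by omega
            by_cases h4 : i = p.m + 1
            · right
              unfold Par.xw Par.yw
              rw [if_neg (by omega), if_neg (by omega), if_pos h4]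
              exact hyz
            · have := p.cross h i (by omega)
              unfold Par.xw Par.yw
              rw [if_pos (by omega), if_neg h1, if_neg h2, if_neg (by omega : ¬ j ≤ p.m + 1),
                if_pos (by omega)]
              exact this.symm
      rintro ⟨i, hi⟩ ⟨j, hj⟩ hne
      have hne' : i ≠ j := fun h => hne (Fin.ext h)
      rcases Nat.lt_or_gt_of_ne hne' with h1 | h1
      · rcases key i j h1 hj with h2 | h2
        · left
          show ¬ (acc (p.run (ch 0) (p.xw i ++ p.yw j)) = true)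
          rw [h2]; simp
        · right
          show ¬ (acc (p.run (ch 0) (p.xw j ++ p.yw i)) = true)
          rw [h2]; simp
      · rcases key j i h1 hi with h2 | h2
        · right
          show ¬ (acc (p.run (ch 0) (p.xw j ++ p.yw i)) = true)
          rw [h2]; simp
        · left
          show ¬ (acc (p.run (ch 0) (p.xw i ++ p.yw j)) = true)
          rw [h2]; simp
  omega

/-- The number `α` is attained by a minimal `n`-state automaton. -/
def Att (n α : ℕ) : Prop :=
  ∃ M : NFA (Fin 2) (Fin n), (∃ q : Fin n, M.start = {q}) ∧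
    (∀ m : ℕ, m < n → ∀ N : NFA (Fin 2) (Fin m),
      (∃ q : Fin m, N.start = {q}) → N.accepts ≠ M.accepts) ∧
    Nat.card (Set.range (fun u : List (Fin 2) =>
      ({w : List (Fin 2) | u ++ w ∈ M.accepts} : Set (List (Fin 2))))) = α

theorem Par.att (p : Par) (h : p.OK) : Att (p.m + 3) p.N :=
  ⟨p.M, ⟨⟨0, by omega⟩, rfl⟩, fun m hm N _ => p.minimal h m hm N, p.card_quot h⟩

end Pool.Agent.W713.Magic
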