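import Pool.Agent.W713.MagicG

set_option autoImplicit false

namespace Pool.Agent.W713.Magic

open Cf

theorem rep_aux (k : ℕ) (hk : 2 ≤ k) : ∀ V, 3 ≤ V → V ≤ 2 ^ (k + 1) →
    ∃ (K : Finset ℕ) (k0 r : ℕ), r ≤ 2 ∧ 2 ≤ k0 ∧ k0 ≤ k ∧ (∀ x ∈ K, k0 ≤ x ∧ x ≤ k) ∧
      V = r + (∑ x ∈ K, (2 ^ x - 1)) + (2 ^ k0 - 1) := by
  induction k, hk using Nat.le_induction with
  | base =>
    intro V h1 h2
    by_cases h3 : V ≤ 5
    · exact ⟨∅, 2, V - 3, by omega, le_rfl, le_rfl, by simp, by simp; omega⟩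
    · refine ⟨{2}, 2, V - 6, ?_, le_rfl, le_rfl, by simp, ?_⟩
      · norm_num at h2; omega
      · simp; omega
  | succ k hk ih =>
    intro V h1 h2
    have e1 : (2 : ℕ) ^ (k + 1 + 1) = 2 * 2 ^ (k + 1) := by ring
    have e2 : 4 ≤ 2 ^ (k + 1) := by
      calc 4 = 2 ^ 2 := by norm_num
        _ ≤ 2 ^ (k + 1) := Nat.pow_le_pow_right (by norm_num) (by omega)
    by_cases h3 : V ≤ 2 ^ (k + 1)
    · obtain ⟨K, k0, r, a1, a2, a3, a4, a5⟩ := ih V h1 h3
      exact ⟨K, k0, r, a1, a2, by omega, fun x hx => ⟨(a4 x hx).1, by have := (a4 x hx).2; omega⟩, a5⟩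
    · by_cases h4 : V = 2 ^ (k + 1) + 1
      · exact ⟨∅, k + 1, 2, le_rfl, by omega, le_rfl, by simp, by simp; omega⟩
      · by_cases h5 : V = 2 ^ (k + 1 + 1)
        · exact ⟨{k + 1}, k + 1, 2, le_rfl, by omega, le_rfl, by simp, by simp; omega⟩
        · obtain ⟨K, k0, r, a1, a2, a3, a4, a5⟩ := ih (V - (2 ^ (k + 1) - 1)) (by omega) (by omega)
          refine ⟨insert (k + 1) K, k0, r, a1, a2, by omega, ?_, ?_⟩
          · intro x hx
            rcases Finset.mem_insert.1 hx with hx | hx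
            · omega
            · have := a4 x hx; omega
          · rw [Finset.sum_insert]
            · omega
            · intro hx
              have := (a4 _ hx).2
              omega

theorem rep (d V : ℕ) (hd : 1 ≤ d) (h1 : 3 ≤ V) (h2 : V ≤ 2 ^ (d + 1) + 1) :
    ∃ (L : Finset ℕ) (j r : ℕ), r ≤ 2 ∧ j < d ∧ (∀ i ∈ L, 1 ≤ i ∧ i ≤ j) ∧
      V = r + ((∑ i ∈ L, (2 ^ (d + 1 - i) - 1)) + (2 ^ (d + 1 - j) - 1)) := by
  by_cases h3 : V = 2 ^ (d + 1) + 1
  · have : 1 ≤ 2 ^ (d + 1) := Nat.one_le_two_pow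
    exact ⟨∅, 0, 2, le_rfl, by omega, by simp, by simp; omega⟩
  · by_cases hd2 : 2 ≤ d
    · obtain ⟨K, k0, r, a1, a2, a3, a4, a5⟩ := rep_aux d hd2 V h1 (by omega)
      refine ⟨K.image (fun x => d + 1 - x), d + 1 - k0, r, a1, by omega, ?_, ?_⟩
      · intro i hi
        obtain ⟨x, hx, rfl⟩ := Finset.mem_image.1 hi
        have := a4 x hx
        omega
      · rw [Finset.sum_image]
        · have e1 : d + 1 - (d + 1 - k0) = k0 := by omega
          rw [e1]
          have e2 : ∑ x ∈ K, (2 ^ (d + 1 - (d + 1 - x)) - 1) = ∑ x ∈ K, (2 ^ x - 1) := by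
            apply Finset.sum_congr rfl
            intro x hx
            have := a4 x hx
            have e3 : d + 1 - (d + 1 - x) = x := by omega
            rw [e3]
          rw [e2]; omega
        · intro x hx y hy hxy
          have h4 := a4 x hx
          have h5 := a4 y hy
          have h6 : d + 1 - x = d + 1 - y := hxy
          omega
    · have : d = 1 := by omega
      subst this
      norm_num at h2 h3
      exact ⟨∅, 0, V - 3, by omega, by omega, by simp, by simp; omega⟩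

theorem att_main (t d e V : ℕ) (ht : 1 ≤ t) (hd : 1 ≤ d) (he : e ≤ 1) (h1 : 3 ≤ V)
    (h2 : V ≤ 2 ^ (d + 1) + 3) :
    Att (t + d + e + 5) (t + d + 3 + (e + 3) * 2 ^ d + V) := by
  by_cases h3 : V ≤ 2 ^ (d + 1) + 1
  · obtain ⟨L, j, r, a1, a2, a3, a4⟩ := rep d V hd h1 h3
    have := Par.att ⟨t, d, e, r, 0, j, L⟩
      ⟨ht, hd, he, a1, by simp, a2, a3, by simp⟩
    have e1 : (⟨t, d, e, r, 0, j, L⟩ : Par).m + 3 = t + d + e + 5 := by
      unfold Par.m Par.P; simp only; omega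
    have e2 : (⟨t, d, e, r, 0, j, L⟩ : Par).N = t + d + 3 + (e + 3) * 2 ^ d + V := by
      unfold Par.N Par.V; simp only [if_true]; simp; omega
    rwa [e1, e2] at this
  · by_cases h4 : V = 2 ^ (d + 1) + 2
    · have := Par.att ⟨t, d, e, 2, 1, 0, ∅⟩
        ⟨ht, hd, he, by simp, by simp, (show 0 < d by omega), by simp, by simp⟩
      have e1 : (⟨t, d, e, 2, 1, 0, ∅⟩ : Par).m + 3 = t + d + e + 5 := by
        unfold Par.m Par.P; simp only; omega
      have e2 : (⟨t, d, e, 2, 1, 0, ∅⟩ : Par).N = t + d + 3 + (e + 3) * 2 ^ d + V := by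
        unfold Par.N Par.V; simp; omega
      rwa [e1, e2] at this
    · have := Par.att ⟨t, d, e, 2, 2, 0, ∅⟩
        ⟨ht, hd, he, by simp, by simp, (show 0 < d by omega), by simp, by simp⟩
      have e1 : (⟨t, d, e, 2, 2, 0, ∅⟩ : Par).m + 3 = t + d + e + 5 := by
        unfold Par.m Par.P; simp only; omega
      have e2 : (⟨t, d, e, 2, 2, 0, ∅⟩ : Par).N = t + d + 3 + (e + 3) * 2 ^ d + V := by
        unfold Par.N Par.V; simp; omega
      rwa [e1, e2] at this

theorem att_big (n α : ℕ) (h1 : n + 7 ≤ α) (h2 : 64 * α ≤ 5 * 2 ^ n) : Att n α := by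
  have hlog : ∃ d, 1 ≤ d ∧ 3 * 2 ^ d + 1 ≤ α - n ∧ α - n ≤ 6 * 2 ^ d := by
    refine ⟨Nat.log 2 ((α - n - 1) / 3), ?_, ?_, ?_⟩
    · have : 2 ^ 1 ≤ (α - n - 1) / 3 := by omega
      exact Nat.le_log_of_pow_le (by norm_num) this
    · have := Nat.pow_log_le_self 2 (x := (α - n - 1) / 3) (by omega)
      omega
    · have := Nat.lt_pow_succ_log_self (b := 2) (by norm_num) ((α - n - 1) / 3)
      rw [Nat.succ_eq_add_one, pow_succ] at this
      omega
  obtain ⟨d, hd, h3, h4⟩ := hlog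
  have e1 : (2 : ℕ) ^ (d + 1) = 2 * 2 ^ d := by ring
  by_cases h5 : α - n ≤ 5 * 2 ^ d + 1
  · have hn : d + 6 ≤ n := by
      by_contra hc
      have : (2 : ℕ) ^ n ≤ 2 ^ (d + 5) := Nat.pow_le_pow_right (by norm_num) (by omega)
      have e2 : (2 : ℕ) ^ (d + 5) = 32 * 2 ^ d := by ring
      omega
    have := att_main (n - d - 5) d 0 (α - n + 2 - 3 * 2 ^ d) (by omega) hd (by omega)
      (by omega) (by omega)
    have e3 : n - d - 5 + d + 0 + 5 = n := by omega
    have e4 : n - d - 5 + d + 3 + (0 + 3) * 2 ^ d + (α - n + 2 - 3 * 2 ^ d) = α := by omega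
    rwa [e3, e4] at this
  · have hn : d + 7 ≤ n := by
      by_contra hc
      have : (2 : ℕ) ^ n ≤ 2 ^ (d + 6) := Nat.pow_le_pow_right (by norm_num) (by omega)
      have e2 : (2 : ℕ) ^ (d + 6) = 64 * 2 ^ d := by ring
      omega
    have := att_main (n - d - 6) d 1 (α - n + 3 - 4 * 2 ^ d) (by omega) hd (by omega)
      (by omega) (by omega)
    have e3 : n - d - 6 + d + 1 + 5 = n := by omega
    have e4 : n - d - 6 + d + 3 + (1 + 3) * 2 ^ d + (α - n + 3 - 4 * 2 ^ d) = α := by omega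
    rwa [e3, e4] at this

end Pool.Agent.W713.Magic
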