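import Pool.Agent.W713.MagicG

set_option autoImplicit false

namespace Pool.Agent.W713.Magic

/-! small values: a chain, one nondeterministic step at the start -/

/-- step relation of the small automaton: `k` is the second target -/
def smStep (n k : ℕ) (i : ℕ) (x : Fin 2) (j : ℕ) : Prop :=
  (x = 0 ∧ j = i + 1) ∨ (x = 1 ∧ i = 0 ∧ (j = 1 ∨ j = k))

def smM (n k : ℕ) (hn : 0 < n) : NFA (Fin 2) (Fin n) where
  step := fun i x => {j | smStep n k i.val x j.val}
  start := {⟨0, hn⟩}
  accept := {j | j.val = n - 1}

inductive Sm where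
  | sg (i : ℕ)
  | pr (u : ℕ)
  | nu
  deriving DecidableEq

open Sm

def smMem (k : ℕ) : Sm → ℕ → Prop
  | sg i, j => j = i
  | pr u, j => j = 1 + u ∨ j = k + u
  | nu, _ => False

def smSet (n k : ℕ) (c : Sm) : Set (Fin n) := {j | smMem k c j.val}

def smDel (n k : ℕ) (c : Sm) (x : Fin 2) : Sm :=
  match c with
  | sg i => if x = 0 then (if i + 1 < n then sg (i + 1) else nu)
            else if i = 0 then (if k < n then pr 0 else sg 1) else nu
  | pr u => if x = 0 then (if k + u + 1 < n then pr (u + 1) else sg (u + 2)) else nu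
  | nu => nu

def smGood (n k : ℕ) : Sm → Prop
  | sg i => i < n
  | pr u => k + u < n
  | nu => True

theorem sm_sim (n k : ℕ) (hn : 2 ≤ n) (hk : 2 ≤ k) (c : Sm) (hc : smGood n k c) (x : Fin 2) :
    (smM n k (by omega)).stepSet (smSet n k c) x = smSet n k (smDel n k c x) := by
  ext ⟨j, hj⟩
  rw [NFA.mem_stepSet]
  have key : (∃ t ∈ smSet n k c, (⟨j, hj⟩ : Fin n) ∈ (smM n k (by omega)).step t x) ↔
      ∃ i, i < n ∧ smMem k c i ∧ smStep n k i x j := by
    constructor
    · rintro ⟨⟨i, hi⟩, h1, h2⟩
      exact ⟨i, hi, h1, h2⟩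
    · rintro ⟨i, hi, h1, h2⟩
      exact ⟨⟨i, hi⟩, h1, h2⟩
  rw [key]
  show _ ↔ smMem k (smDel n k c x) j
  have hx : x = 0 ∨ x = 1 := by omega
  cases c with
  | sg i =>
    have hi : i < n := hc
    simp only [smDel]
    constructor
    · rintro ⟨i', _, h1, h2⟩
      simp only [smMem] at h1
      subst h1
      rcases h2 with ⟨h3, h4⟩ | ⟨h3, h4, h5⟩
      · rw [if_pos h3]
        split_ifs with h6
        · exact h4
        · omega
      · rw [if_neg (by omega), if_pos h4]
        split_ifs with h6
        · show j = 1 + 0 ∨ j = k + 0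
          omega
        · show j = 1
          omega
    · intro h1
      refine ⟨i, hi, rfl, ?_⟩
      rcases hx with hx | hx
      · left
        rw [if_pos hx] at h1
        split_ifs at h1 with h6
        · exact ⟨hx, h1⟩
        · exact h1.elim
      · right
        rw [if_neg (by omega)] at h1
        split_ifs at h1 with h6 h7
        · have h8 : j = 1 + 0 ∨ j = k + 0 := h1
          exact ⟨hx, h6, by omega⟩
        · have h8 : j = 1 := h1
          exact ⟨hx, h6, by omega⟩
        · exact h1.elim
  | pr u =>
    have hu : k + u < n := hc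
    simp only [smDel]
    constructor
    · rintro ⟨i', _, h1, h2⟩
      simp only [smMem] at h1
      rcases h2 with ⟨h3, h4⟩ | ⟨h3, h4, h5⟩
      · rw [if_pos h3]
        split_ifs with h6
        · show j = 1 + (u + 1) ∨ j = k + (u + 1)
          omega
        · show j = u + 2
          omega
      · omega
    · intro h1
      rcases hx with hx | hx
      · rw [if_pos hx] at h1
        split_ifs at h1 with h6
        · have h7 : j = 1 + (u + 1) ∨ j = k + (u + 1) := h1
          rcases h7 with h7 | h7
          · exact ⟨1 + u, by omega, Or.inl rfl, Or.inl ⟨hx, by omega⟩⟩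
          · exact ⟨k + u, by omega, Or.inr rfl, Or.inl ⟨hx, by omega⟩⟩
        · have h7 : j = u + 2 := h1
          exact ⟨1 + u, by omega, Or.inl rfl, Or.inl ⟨hx, by omega⟩⟩
      · rw [if_neg (by omega)] at h1
        exact h1.elim
  | nu =>
    simp [smMem, smDel]

theorem sm_good (n k : ℕ) (hn : 2 ≤ n) (hk : 2 ≤ k) (c : Sm) (hc : smGood n k c) (x : Fin 2) :
    smGood n k (smDel n k c x) := by
  cases c with
  | sg i =>
    simp only [smDel]
    split_ifs with h1 h2 h3 h4
    · exact h2
    · trivial
    · show k + 0 < n; omega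
    · show 1 < n; omega
    · trivial
  | pr u =>
    have hu : k + u < n := hc
    simp only [smDel]
    split_ifs with h1 h2
    · show k + (u + 1) < n; omega
    · show u + 2 < n; omega
    · trivial
  | nu => trivial

def smRun (n k : ℕ) (c : Sm) (w : List (Fin 2)) : Sm := w.foldl (smDel n k) c

theorem smRun_append (n k : ℕ) (c : Sm) (u w : List (Fin 2)) :
    smRun n k c (u ++ w) = smRun n k (smRun n k c u) w := by simp [smRun, List.foldl_append]

theorem sm_run_good (n k : ℕ) (hn : 2 ≤ n) (hk : 2 ≤ k) (w : List (Fin 2)) :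
    ∀ c, smGood n k c → smGood n k (smRun n k c w) := by
  induction w with
  | nil => intro c hc; exact hc
  | cons x w ih => intro c hc; exact ih _ (sm_good n k hn hk c hc x)

theorem sm_eval (n k : ℕ) (hn : 2 ≤ n) (hk : 2 ≤ k) (w : List (Fin 2)) :
    ∀ c, smGood n k c →
      (smM n k (by omega)).evalFrom (smSet n k c) w = smSet n k (smRun n k c w) := by
  induction w with
  | nil => intro c _; simp [smRun]
  | cons x w ih =>
    intro c hc
    rw [NFA.evalFrom_cons, sm_sim n k hn hk c hc x, ih _ (sm_good n k hn hk c hc x)]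
    rfl

theorem sm_accepts (n k : ℕ) (hn : 2 ≤ n) (hk : 2 ≤ k) (w : List (Fin 2)) :
    w ∈ (smM n k (by omega)).accepts ↔ smMem k (smRun n k (sg 0) w) (n - 1) := by
  have hg : smGood n k (sg 0) := by show 0 < n; omega
  have hs : (smM n k (by omega)).start = smSet n k (sg 0) := by
    ext ⟨j, hj⟩
    constructor
    · intro h1; exact Fin.ext_iff.mp h1
    · intro h1; exact Fin.ext_iff.mpr h1
  rw [NFA.mem_accepts, hs, sm_eval n k hn hk w _ hg]
  constructor
  · rintro ⟨⟨s, hs⟩, h1, h2⟩
    have h3 : s = n - 1 := h1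
    have h4 : smMem k (smRun n k (sg 0) w) s := h2
    rw [h3] at h4; exact h4
  · intro h1
    exact ⟨⟨n - 1, by omega⟩, rfl, h1⟩

theorem sm_aw (n k : ℕ) (hn : 2 ≤ n) (hk : 2 ≤ k) (l : ℕ) : ∀ c, smGood n k c →
    (smMem k (smRun n k c (aw l)) (n - 1) ↔ (l ≤ n - 1 ∧ smMem k c (n - 1 - l))) := by
  induction l with
  | zero => intro c _; simp [aw_zero, smRun]
  | succ l ih =>
    intro c hc
    have e1 : smRun n k c (aw (l + 1)) = smRun n k (smDel n k c 0) (aw l) := rfl
    rw [e1, ih _ (sm_good n k hn hk c hc 0)]
    cases c with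
    | sg i =>
      have hi : i < n := hc
      simp only [smDel, if_true]
      split_ifs with h1
      · simp only [smMem]; omega
      · simp only [smMem, and_false, false_iff]; omega
    | pr u =>
      have hu : k + u < n := hc
      simp only [smDel, if_true]
      split_ifs with h1
      · simp only [smMem]; omega
      · simp only [smMem]; omega
    | nu => simp [smDel, smMem]

theorem sm_inj (n k : ℕ) (hn : 2 ≤ n) (hk : 2 ≤ k) (c c' : Sm) (hc : smGood n k c)
    (hc' : smGood n k c')
    (hL : ∀ w, smMem k (smRun n k c w) (n - 1) ↔ smMem k (smRun n k c' w) (n - 1)) : c = c' := by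
  have h1 : ∀ i, i < n → (smMem k c i ↔ smMem k c' i) := by
    intro i hi
    have := hL (aw (n - 1 - i))
    rw [sm_aw n k hn hk _ c hc, sm_aw n k hn hk _ c' hc'] at this
    have e1 : n - 1 - (n - 1 - i) = i := by omega
    rw [e1] at this
    constructor
    · intro h2; exact (this.1 ⟨by omega, h2⟩).2
    · intro h2; exact (this.2 ⟨by omega, h2⟩).2
  cases c with
  | sg i =>
    have hi : i < n := hc
    cases c' with
    | sg i' =>
      have := (h1 i hi).1 rfl
      simp only [smMem] at this
      rw [this]
    | pr u =>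
      exfalso
      have hu : k + u < n := hc'
      have h2 := (h1 (1 + u) (by omega)).2 (Or.inl rfl)
      have h3 := (h1 (k + u) (by omega)).2 (Or.inr rfl)
      simp only [smMem] at h2 h3
      omega
    | nu => exact ((h1 i hi).1 rfl).elim
  | pr u =>
    have hu : k + u < n := hc
    cases c' with
    | sg i' =>
      exfalso
      have h2 := (h1 (1 + u) (by omega)).1 (Or.inl rfl)
      have h3 := (h1 (k + u) (by omega)).1 (Or.inr rfl)
      simp only [smMem] at h2 h3
      omega
    | pr u' =>
      have hu' : k + u' < n := hc'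
      have h2 := (h1 (1 + u) (by omega)).1 (Or.inl rfl)
      have h3 := (h1 (1 + u') (by omega)).2 (Or.inl rfl)
      simp only [smMem] at h2 h3
      have : u = u' := by omega
      rw [this]
    | nu => exact ((h1 (1 + u) (by omega)).1 (Or.inl rfl)).elim
  | nu =>
    cases c' with
    | sg i' =>
      have hi : i' < n := hc'
      exact ((h1 i' hi).2 rfl).elim
    | pr u =>
      have hu : k + u < n := hc'
      exact ((h1 (1 + u) (by omega)).2 (Or.inl rfl)).elim
    | nu => rfl

def smF (n k : ℕ) : Finset Sm :=
  (Finset.range n).image sg ∪ ((Finset.range (n - k)).image pr ∪ {nu})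

theorem mem_smF (n k : ℕ) (c : Sm) : c ∈ smF n k ↔ smGood n k c := by
  unfold smF
  cases c with
  | sg i => simp [smGood]
  | pr u => simp [smGood]; omega
  | nu => simp [smGood]

theorem card_smF (n k : ℕ) : (smF n k).card = n + (n - k) + 1 := by
  unfold smF
  rw [Finset.card_union_of_disjoint, Finset.card_union_of_disjoint,
    Finset.card_image_of_injective, Finset.card_image_of_injective]
  · simp; ring
  · intro a b h; injection h
  · intro a b h; injection h
  · simp
  · rw [Finset.disjoint_left]
    intro x hx hy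
    obtain ⟨i, _, rfl⟩ := Finset.mem_image.1 hx
    simp at hy

theorem sm_reach (n k : ℕ) (hn : 2 ≤ n) (hk : 2 ≤ k) (c : Sm) (hc : smGood n k c) :
    ∃ w, smRun n k (sg 0) w = c := by
  have h1 : ∀ i, i < n → smRun n k (sg 0) (aw i) = sg i := by
    intro i
    induction i with
    | zero => intro _; rfl
    | succ i ih =>
      intro hi
      rw [aw_add, smRun_append, ih (by omega)]
      simp [aw, smRun, smDel, hi]
  have h2 : ∀ u, k + u < n → smRun n k (sg 0) (1 :: aw u) = pr u := by
    intro u
    induction u with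
    | zero =>
      intro hu
      have : k < n := by omega
      simp [aw, smRun, smDel, this]
    | succ u ih =>
      intro hu
      have e1 : (1 :: aw (u + 1) : List (Fin 2)) = (1 :: aw u) ++ aw 1 := by
        rw [aw_add]; rfl
      rw [e1, smRun_append, ih (by omega)]
      have : k + u + 1 < n := by omega
      simp [aw, smRun, smDel, this]
  cases c with
  | sg i => exact ⟨aw i, h1 i hc⟩
  | pr u => exact ⟨1 :: aw u, h2 u hc⟩
  | nu =>
    refine ⟨aw (n - 1) ++ [0], ?_⟩
    rw [smRun_append, h1 (n - 1) (by omega)]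
    have : ¬ (n - 1 + 1 < n) := by omega
    simp [smRun, smDel, this]

theorem sm_att (n k : ℕ) (hn : 2 ≤ n) (hk : 2 ≤ k) : Att n (n + (n - k) + 1) := by
  refine ⟨smM n k (by omega), ⟨⟨0, by omega⟩, rfl⟩, ?_, ?_⟩
  · intro m hm N _ heq
    have hM : ∀ w, w ∈ N.accepts ↔
        w ∈ ({w | smMem k (smRun n k (sg 0) w) (n - 1)} : Set (List (Fin 2))) := by
      intro w
      rw [heq, sm_accepts n k hn hk]
      rfl
    have hg : smGood n k (sg 0) := by show 0 < n; omega
    have h1 : ∀ l, aw l ∈ ({w | smMem k (smRun n k (sg 0) w) (n - 1)} : Set (List (Fin 2))) ↔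
        l = n - 1 := by
      intro l
      show smMem k (smRun n k (sg 0) (aw l)) (n - 1) ↔ _
      rw [sm_aw n k hn hk l _ hg]
      simp only [smMem]
      omega
    have : n ≤ m := by
      apply fooling N _ hM (fun i : Fin n => aw i.val) (fun i : Fin n => aw (n - 1 - i.val))
      · rintro ⟨i, hi⟩
        rw [← aw_add, h1]
        show i + (n - 1 - i) = n - 1
        omega
      · rintro ⟨i, hi⟩ ⟨j, hj⟩ hne
        have hne' : i ≠ j := fun h => hne (Fin.ext h)
        left
        rw [← aw_add, h1]
        show ¬ (i + (n - 1 - j) = n - 1)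
        omega
    omega
  · have hmem : ∀ u : List (Fin 2), ({w : List (Fin 2) | u ++ w ∈ (smM n k (by omega)).accepts} :
        Set (List (Fin 2))) = {w | smMem k (smRun n k (smRun n k (sg 0) u) w) (n - 1)} := by
      intro u
      ext w
      show u ++ w ∈ (smM n k (by omega)).accepts ↔ _
      rw [sm_accepts n k hn hk, smRun_append]
      rfl
    have hg : smGood n k (sg 0) := by show 0 < n; omega
    have hφ : ∀ c : {c // c ∈ smF n k}, ({w | smMem k (smRun n k c.1 w) (n - 1)} :
        Set (List (Fin 2))) ∈
        Set.range (fun u : List (Fin 2) =>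
        ({w : List (Fin 2) | u ++ w ∈ (smM n k (by omega)).accepts} : Set (List (Fin 2)))) := by
      rintro ⟨c, hc⟩
      obtain ⟨u, hu⟩ := sm_reach n k hn hk c ((mem_smF n k c).1 hc)
      refine ⟨u, ?_⟩
      show ({w : List (Fin 2) | u ++ w ∈ (smM n k (by omega)).accepts} : Set (List (Fin 2))) = _
      rw [hmem u, hu]
    let φ : {c // c ∈ smF n k} → Set.range (fun u : List (Fin 2) =>
        ({w : List (Fin 2) | u ++ w ∈ (smM n k (by omega)).accepts} : Set (List (Fin 2)))) :=
      fun c => ⟨_, hφ c⟩
    have hb : Function.Bijective φ := by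
      constructor
      · rintro ⟨c, hc⟩ ⟨c', hc'⟩ hcc
        have h1 : ({w | smMem k (smRun n k c w) (n - 1)} : Set (List (Fin 2))) =
            {w | smMem k (smRun n k c' w) (n - 1)} := congrArg Subtype.val hcc
        have h2 : c = c' := by
          apply sm_inj n k hn hk c c' ((mem_smF n k c).1 hc) ((mem_smF n k c').1 hc')
          intro w
          have h3 : w ∈ ({w | smMem k (smRun n k c w) (n - 1)} : Set (List (Fin 2))) ↔
            w ∈ ({w | smMem k (smRun n k c' w) (n - 1)} : Set (List (Fin 2))) := by rw [h1]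
          exact h3
        exact Subtype.ext h2
      · rintro ⟨S, u, hu⟩
        refine ⟨⟨smRun n k (sg 0) u, (mem_smF n k _).2 (sm_run_good n k hn hk u _ hg)⟩, ?_⟩
        apply Subtype.ext
        show ({w | smMem k (smRun n k (smRun n k (sg 0) u) w) (n - 1)} : Set (List (Fin 2))) = S
        rw [← hu, ← hmem u]
    rw [← Nat.card_eq_of_bijective φ hb, ← card_smF n k]
    simp

/-- values between `n + 1` and `2 n - 1` -/
theorem att_small (n α : ℕ) (h1 : n + 1 ≤ α) (h2 : α < 2 * n) : Att n α := by
  have := sm_att n (n - (α - n - 1)) (by omega) (by omega)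
  have e1 : n + (n - (n - (α - n - 1))) + 1 = α := by omega
  rwa [e1] at this

end Pool.Agent.W713.Magic
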