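import Pool.Agent.W713.MagicH
import Pool.Agent.W713.MagicI

set_option autoImplicit false

namespace Pool.Agent.W713.Magic

/-- the cyclic automaton -/
def cyM (n : ℕ) (hn : 0 < n) : NFA (Fin 2) (Fin n) where
  step := fun i _ => {j | j.val = (i.val + 1) % n}
  start := {⟨0, hn⟩}
  accept := {⟨0, hn⟩}

theorem cy_eval (n : ℕ) (hn : 0 < n) (w : List (Fin 2)) : ∀ i : Fin n,
    (cyM n hn).evalFrom {i} w = {j | j.val = (i.val + w.length) % n} := by
  induction w with
  | nil =>
    intro i
    rw [NFA.evalFrom_nil]
    ext j
    simp only [Set.mem_singleton_iff, Set.mem_setOf_eq, List.length_nil, add_zero,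
      Nat.mod_eq_of_lt i.2]
    exact Fin.ext_iff
  | cons x w ih =>
    intro i
    rw [NFA.evalFrom_cons, NFA.stepSet_singleton]
    have h1 : (cyM n hn).step i x = {⟨(i.val + 1) % n, Nat.mod_lt _ hn⟩} := by
      ext j
      rw [Set.mem_singleton_iff, Fin.ext_iff]
      rfl
    rw [h1, ih]
    ext j
    simp only [Set.mem_setOf_eq, List.length_cons, Nat.mod_add_mod]
    rw [add_assoc, add_comm 1]

theorem cy_accepts (n : ℕ) (hn : 0 < n) (w : List (Fin 2)) :
    w ∈ (cyM n hn).accepts ↔ w.length % n = 0 := by
  have h0 : (cyM n hn).start = {(⟨0, hn⟩ : Fin n)} := rfl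
  rw [NFA.mem_accepts, h0, cy_eval]
  constructor
  · rintro ⟨s, h1, h2⟩
    have h3 : s = ⟨0, hn⟩ := h1
    have h4 : s.val = (0 + w.length) % n := h2
    rw [h3, zero_add] at h4
    exact h4.symm
  · intro h1
    exact ⟨⟨0, hn⟩, rfl, by
      show 0 = (0 + w.length) % n
      rw [zero_add, h1]⟩

theorem att_eq (n : ℕ) (hn : 0 < n) : Att n n := by
  refine ⟨cyM n hn, ⟨⟨0, hn⟩, rfl⟩, ?_, ?_⟩
  · intro m hm N _ heq
    have hM : ∀ w, w ∈ N.accepts ↔ w ∈ ({w | w.length % n = 0} : Set (List (Fin 2))) := by
      intro w
      rw [heq, cy_accepts n hn]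
      rfl
    have : n ≤ m := by
      apply fooling N _ hM (fun i : Fin n => aw i.val) (fun i : Fin n => aw (n - i.val))
      · rintro ⟨i, hi⟩
        show (aw i ++ aw (n - i)).length % n = 0
        rw [← aw_add]
        simp only [aw, List.length_replicate]
        have : i + (n - i) = n := by omega
        rw [this, Nat.mod_self]
      · rintro ⟨i, hi⟩ ⟨j, hj⟩ hne
        have hne' : i ≠ j := fun h => hne (Fin.ext h)
        have key : ∀ a b : ℕ, a < n → b < n → b < a → (a + (n - b)) % n ≠ 0 := by
          intro a b ha hb hab h
          have e1 : a + (n - b) = (a - b) + n := by omega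
          rw [e1, Nat.add_mod_right, Nat.mod_eq_of_lt (by omega)] at h
          omega
        rcases Nat.lt_or_gt_of_ne hne' with h1 | h1
        · right
          show ¬ ((aw j ++ aw (n - i)).length % n = 0)
          rw [← aw_add]
          simp only [aw, List.length_replicate]
          exact key j i hj hi h1
        · left
          show ¬ ((aw i ++ aw (n - j)).length % n = 0)
          rw [← aw_add]
          simp only [aw, List.length_replicate]
          exact key i j hi hj h1
    omega
  · have hmem : ∀ u : List (Fin 2), ({w : List (Fin 2) | u ++ w ∈ (cyM n hn).accepts} :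
        Set (List (Fin 2))) = {w | (u.length + w.length) % n = 0} := by
      intro u
      ext w
      show u ++ w ∈ (cyM n hn).accepts ↔ _
      rw [cy_accepts n hn, List.length_append]
      rfl
    let φ : Fin n → Set.range (fun u : List (Fin 2) =>
        ({w : List (Fin 2) | u ++ w ∈ (cyM n hn).accepts} : Set (List (Fin 2)))) :=
      fun i => ⟨{w | (i.val + w.length) % n = 0}, aw i.val, by
        show ({w : List (Fin 2) | aw i.val ++ w ∈ (cyM n hn).accepts} : Set (List (Fin 2))) = _
        rw [hmem]; simp [aw]⟩
    have hb : Function.Bijective φ := by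
      constructor
      · rintro ⟨i, hi⟩ ⟨j, hj⟩ h
        have h1 : ({w | (i + w.length) % n = 0} : Set (List (Fin 2))) =
            {w | (j + w.length) % n = 0} := congrArg Subtype.val h
        have key : ∀ a b : ℕ, a < n → b < n →
            (({w | (a + w.length) % n = 0} : Set (List (Fin 2))) =
            {w | (b + w.length) % n = 0}) → a < b → False := by
          intro a b ha hb hab hlt
          have h2 : aw (n - b) ∈ ({w | (b + w.length) % n = 0} : Set (List (Fin 2))) := by
            show (b + (aw (n - b)).length) % n = 0
            simp only [aw, List.length_replicate]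
            have : b + (n - b) = n := by omega
            rw [this, Nat.mod_self]
          rw [← hab] at h2
          have h3 : (a + (aw (n - b)).length) % n = 0 := h2
          simp only [aw, List.length_replicate] at h3
          rw [Nat.mod_eq_of_lt (by omega)] at h3
          omega
        apply Fin.ext
        show i = j
        rcases lt_trichotomy i j with h2 | h2 | h2
        · exact (key i j hi hj h1 h2).elim
        · exact h2
        · exact (key j i hj hi h1.symm h2).elim
      · rintro ⟨S, u, hu⟩
        refine ⟨⟨u.length % n, Nat.mod_lt _ hn⟩, ?_⟩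
        apply Subtype.ext
        show ({w | (u.length % n + w.length) % n = 0} : Set (List (Fin 2))) = S
        rw [← hu]
        show _ = ({w : List (Fin 2) | u ++ w ∈ (cyM n hn).accepts} : Set (List (Fin 2)))
        rw [hmem]
        ext w
        simp only [Set.mem_setOf_eq, Nat.mod_add_mod]
    rw [← Nat.card_eq_of_bijective φ hb]
    simp

theorem att_all (n α : ℕ) (hn : 1 ≤ n) (h1 : n ≤ α) (h2 : 64 * α ≤ 5 * 2 ^ n) : Att n α := by
  rcases Nat.eq_or_lt_of_le h1 with h3 | h3
  · rw [← h3]; exact att_eq n hn
  · by_cases h4 : α < 2 * n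
    · exact att_small n α h3 h4
    · have hn8 : 8 ≤ n := by
        by_contra hc
        have : n < 8 := by omega
        interval_cases n <;> norm_num at h2 <;> omega
      exact att_big n α (by omega) h2

end Pool.Agent.W713.Magic
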