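import Pool.Agent.W713.MagicI

set_option autoImplicit false

namespace Pool.Agent.W713.Magic

/-! General world: `t` prefix states, then `K` cells; the letter `0` moves every state
one step, the letter `1` acts on the cells by a relation `B`. -/

inductive Tm where
  | sg (i : ℕ)
  | st (X : ℕ)
  deriving DecidableEq

structure World where
  K : ℕ
  t : ℕ
  B : ℕ → ℕ → Prop
  f : ℕ → ℕ
  hK : 1 ≤ K
  hf : ∀ X, X < 2 ^ K → f X < 2 ^ K
  hB : ∀ X, X < 2 ^ K → ∀ k, k < K →
    ((f X).testBit k = true ↔ ∃ c, X.testBit c = true ∧ B c k)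

namespace World

def step (w : World) (i : ℕ) (x : Fin 2) (j : ℕ) : Prop :=
  ((x = 0 ∨ i < w.t) ∧ j = i + 1) ∨ (x = 1 ∧ w.t ≤ i ∧ w.t ≤ j ∧ w.B (i - w.t) (j - w.t))

def n (w : World) : ℕ := w.t + w.K

theorem n_pos (w : World) : 0 < w.n := by
  have := w.hK
  unfold n; omega

def M (w : World) : NFA (Fin 2) (Fin w.n) where
  step := fun i x => {j | w.step i.val x j.val}
  start := {⟨0, w.n_pos⟩}
  accept := {j | j.val = w.n - 1}

def mem (w : World) : Tm → ℕ → Prop
  | Tm.sg i, j => j = i
  | Tm.st X, j => w.t ≤ j ∧ X.testBit (j - w.t) = true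

def set (w : World) (c : Tm) : Set (Fin w.n) := {j | w.mem c j.val}

def del (w : World) (c : Tm) (x : Fin 2) : Tm :=
  match c with
  | Tm.sg i => if i + 1 < w.t then Tm.sg (i + 1) else Tm.st 1
  | Tm.st X => if x = 0 then Tm.st (2 * X % 2 ^ w.K) else Tm.st (w.f X)

def ok (w : World) : Tm → Prop
  | Tm.sg i => i < w.t
  | Tm.st X => X < 2 ^ w.K

def c0 (w : World) : Tm := if w.t = 0 then Tm.st 1 else Tm.sg 0

theorem ok_st1 (w : World) : w.ok (Tm.st 1) := by
  show 1 < 2 ^ w.K
  exact Nat.one_lt_two_pow (by have := w.hK; omega)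

theorem ok_c0 (w : World) : w.ok w.c0 := by
  unfold c0
  split_ifs with h
  · exact w.ok_st1
  · show 0 < w.t
    omega

theorem ok_del (w : World) (c : Tm) (hc : w.ok c) (x : Fin 2) : w.ok (w.del c x) := by
  cases c with
  | sg i =>
    unfold del
    dsimp only
    split_ifs with h
    · exact h
    · exact w.ok_st1
  | st X =>
    unfold del
    dsimp only
    split_ifs with h
    · exact Nat.mod_lt _ (by positivity)
    · exact w.hf X hc

theorem tb_one (k : ℕ) : (1 : ℕ).testBit k = true ↔ k = 0 := by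
  have := tb_pow 0 k
  simpa using this

theorem sim (w : World) (c : Tm) (hc : w.ok c) (x : Fin 2) :
    w.M.stepSet (w.set c) x = w.set (w.del c x) := by
  ext ⟨j, hj⟩
  rw [NFA.mem_stepSet]
  have key : (∃ t ∈ w.set c, (⟨j, hj⟩ : Fin w.n) ∈ w.M.step t x) ↔
      ∃ i, i < w.n ∧ w.mem c i ∧ w.step i x j := by
    constructor
    · rintro ⟨⟨i, hi⟩, h1, h2⟩
      exact ⟨i, hi, h1, h2⟩
    · rintro ⟨i, hi, h1, h2⟩
      exact ⟨⟨i, hi⟩, h1, h2⟩
  rw [key]
  show _ ↔ w.mem (w.del c x) j
  have hx : x = 0 ∨ x = 1 := by omega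
  have hjn : j < w.t + w.K := hj
  cases c with
  | sg i =>
    have hi : i < w.t := hc
    unfold del
    dsimp only
    have e1 : (∃ i', i' < w.n ∧ w.mem (Tm.sg i) i' ∧ w.step i' x j) ↔ j = i + 1 := by
      constructor
      · rintro ⟨i', _, h1, h2⟩
        have h1' : i' = i := h1
        subst h1'
        rcases h2 with ⟨_, h3⟩ | ⟨_, h3, _⟩
        · exact h3
        · omega
      · intro h1
        exact ⟨i, by unfold n; omega, rfl, Or.inl ⟨Or.inr hi, h1⟩⟩
    rw [e1]
    split_ifs with h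
    · exact Iff.rfl
    · show _ ↔ w.t ≤ j ∧ (1 : ℕ).testBit (j - w.t) = true
      rw [tb_one]
      omega
  | st X =>
    have hX : X < 2 ^ w.K := hc
    unfold del
    dsimp only
    rcases hx with hx | hx
    · rw [if_pos hx]
      show _ ↔ w.t ≤ j ∧ (2 * X % 2 ^ w.K).testBit (j - w.t) = true
      rw [tb_dbl]
      constructor
      · rintro ⟨i, hi, ⟨h1, h2⟩, h3⟩
        rcases h3 with ⟨_, h4⟩ | ⟨h4, _⟩
        · subst h4
          have e2 : i + 1 - w.t - 1 = i - w.t := by omega
          rw [e2]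
          exact ⟨by omega, by omega, by omega, h2⟩
        · rw [hx] at h4; exact absurd h4 (by decide)
      · rintro ⟨h1, h2, h3, h4⟩
        refine ⟨j - 1, by unfold n; omega, ⟨by omega, ?_⟩, Or.inl ⟨Or.inl hx, by omega⟩⟩
        have e2 : j - 1 - w.t = j - w.t - 1 := by omega
        rw [e2]; exact h4
    · rw [if_neg (by rw [hx]; decide)]
      show _ ↔ w.t ≤ j ∧ (w.f X).testBit (j - w.t) = true
      constructor
      · rintro ⟨i, hi, ⟨h1, h2⟩, h3⟩
        rcases h3 with ⟨h4, _⟩ | ⟨_, _, h5, h6⟩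
        · rcases h4 with h4 | h4
          · rw [hx] at h4; exact absurd h4 (by decide)
          · omega
        · exact ⟨h5, (w.hB X hX _ (by omega)).2 ⟨_, h2, h6⟩⟩
      · rintro ⟨h1, h2⟩
        obtain ⟨c, h3, h4⟩ := (w.hB X hX _ (by omega)).1 h2
        have hc := tb_lt hX h3
        refine ⟨w.t + c, by unfold n; omega, ⟨by omega, ?_⟩, Or.inr ⟨hx, by omega, h1, ?_⟩⟩
        · rw [Nat.add_sub_cancel_left]; exact h3
        · rw [Nat.add_sub_cancel_left]; exact h4

def run (w : World) (c : Tm) (u : List (Fin 2)) : Tm := u.foldl w.del c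

theorem run_append (w : World) (c : Tm) (u v : List (Fin 2)) :
    w.run c (u ++ v) = w.run (w.run c u) v := by simp [run, List.foldl_append]

theorem ok_run (w : World) (u : List (Fin 2)) : ∀ c, w.ok c → w.ok (w.run c u) := by
  induction u with
  | nil => intro c hc; exact hc
  | cons x u ih => intro c hc; exact ih _ (w.ok_del c hc x)

theorem eval (w : World) (u : List (Fin 2)) :
    ∀ c, w.ok c → w.M.evalFrom (w.set c) u = w.set (w.run c u) := by
  induction u with
  | nil => intro c _; simp [run]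
  | cons x u ih =>
    intro c hc
    rw [NFA.evalFrom_cons, w.sim c hc x, ih _ (w.ok_del c hc x)]
    rfl

theorem mem_c0 (w : World) (j : ℕ) : w.mem w.c0 j ↔ j = 0 := by
  unfold c0
  split_ifs with h
  · show w.t ≤ j ∧ (1 : ℕ).testBit (j - w.t) = true ↔ _
    rw [tb_one]; omega
  · exact Iff.rfl

theorem accepts (w : World) (u : List (Fin 2)) :
    u ∈ w.M.accepts ↔ w.mem (w.run w.c0 u) (w.n - 1) := by
  have hs : w.M.start = w.set w.c0 := by
    ext ⟨j, hj⟩
    show _ ↔ w.mem w.c0 j
    rw [w.mem_c0]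
    constructor
    · intro h1; exact Fin.ext_iff.mp h1
    · intro h1; exact Fin.ext_iff.mpr h1
  rw [NFA.mem_accepts, hs, w.eval u _ w.ok_c0]
  constructor
  · rintro ⟨⟨s, hs⟩, h1, h2⟩
    have h3 : s = w.n - 1 := h1
    have h4 : w.mem (w.run w.c0 u) s := h2
    rw [h3] at h4; exact h4
  · intro h1
    exact ⟨⟨w.n - 1, by have := w.n_pos; omega⟩, rfl, h1⟩

theorem mem_del0 (w : World) (c : Tm) (hc : w.ok c) (j : ℕ) (hj : j < w.n) :
    w.mem (w.del c 0) j ↔ 1 ≤ j ∧ w.mem c (j - 1) := by
  have hjn : j < w.t + w.K := hj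
  cases c with
  | sg i =>
    have hi : i < w.t := hc
    unfold del
    dsimp only
    show _ ↔ 1 ≤ j ∧ j - 1 = i
    split_ifs with h
    · show j = i + 1 ↔ _
      omega
    · show w.t ≤ j ∧ (1 : ℕ).testBit (j - w.t) = true ↔ _
      rw [tb_one]; omega
  | st X =>
    have hX : X < 2 ^ w.K := hc
    unfold del
    dsimp only
    rw [if_pos rfl]
    show w.t ≤ j ∧ (2 * X % 2 ^ w.K).testBit (j - w.t) = true ↔
      1 ≤ j ∧ (w.t ≤ j - 1 ∧ X.testBit (j - 1 - w.t) = true)
    rw [tb_dbl]
    have e2 : j - 1 - w.t = j - w.t - 1 := by omega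
    rw [e2]
    constructor
    · rintro ⟨h1, h2, h3, h4⟩
      exact ⟨by omega, by omega, h4⟩
    · rintro ⟨h1, h2, h3⟩
      exact ⟨by omega, by omega, by omega, h3⟩

theorem mem_aw (w : World) (l : ℕ) : ∀ c, w.ok c → ∀ j, j < w.n →
    (w.mem (w.run c (aw l)) j ↔ (l ≤ j ∧ w.mem c (j - l))) := by
  induction l with
  | zero => intro c _ j _; simp [aw_zero, run]
  | succ l ih =>
    intro c hc j hj
    have e1 : w.run c (aw (l + 1)) = w.run (w.del c 0) (aw l) := rfl
    rw [e1, ih _ (w.ok_del c hc 0) j hj, w.mem_del0 c hc _ (by omega)]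
    have e2 : j - l - 1 = j - (l + 1) := by omega
    rw [e2]
    constructor
    · rintro ⟨h1, h2, h3⟩; exact ⟨by omega, h3⟩
    · rintro ⟨h1, h2⟩; exact ⟨by omega, by omega, h2⟩

theorem inj (w : World) (c c' : Tm) (hc : w.ok c) (hc' : w.ok c')
    (hL : ∀ u, w.mem (w.run c u) (w.n - 1) ↔ w.mem (w.run c' u) (w.n - 1)) : c = c' := by
  have hn := w.n_pos
  have h1 : ∀ i, i < w.n → (w.mem c i ↔ w.mem c' i) := by
    intro i hi
    have := hL (aw (w.n - 1 - i))
    rw [w.mem_aw _ c hc _ (by omega), w.mem_aw _ c' hc' _ (by omega)] at this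
    have e1 : w.n - 1 - (w.n - 1 - i) = i := by omega
    rw [e1] at this
    constructor
    · intro h2; exact (this.1 ⟨by omega, h2⟩).2
    · intro h2; exact (this.2 ⟨by omega, h2⟩).2
  cases c with
  | sg i =>
    have hi : i < w.t := hc
    have h2 := (h1 i (by unfold n; omega)).1 rfl
    cases c' with
    | sg i' =>
      have h3 : i = i' := h2
      rw [h3]
    | st X =>
      have h3 : w.t ≤ i := h2.1
      omega
  | st X =>
    have hX : X < 2 ^ w.K := hc
    cases c' with
    | sg i' =>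
      have hi : i' < w.t := hc'
      have h2 := (h1 i' (by unfold n; omega)).2 rfl
      have h3 : w.t ≤ i' := h2.1
      omega
    | st X' =>
      have hX' : X' < 2 ^ w.K := hc'
      have h3 : X = X' := by
        apply Nat.eq_of_testBit_eq
        intro k
        rw [Bool.eq_iff_iff]
        by_cases hk : k < w.K
        · have h4 := h1 (w.t + k) (by unfold n; omega)
          have h5 : (w.t ≤ w.t + k ∧ X.testBit (w.t + k - w.t) = true) ↔
            (w.t ≤ w.t + k ∧ X'.testBit (w.t + k - w.t) = true) := h4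
          rw [Nat.add_sub_cancel_left] at h5
          constructor
          · intro h6; exact (h5.1 ⟨by omega, h6⟩).2
          · intro h6; exact (h5.2 ⟨by omega, h6⟩).2
        · constructor
          · intro h6; exact absurd (tb_lt hX h6) hk
          · intro h6; exact absurd (tb_lt hX' h6) hk
      rw [h3]

/-- runs on cell contents -/
def crun (w : World) (X : ℕ) (u : List (Fin 2)) : ℕ :=
  u.foldl (fun Y x => if x = 0 then 2 * Y % 2 ^ w.K else w.f Y) X

theorem crun_append (w : World) (X : ℕ) (u v : List (Fin 2)) :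
    w.crun X (u ++ v) = w.crun (w.crun X u) v := by simp [crun, List.foldl_append]

theorem run_st (w : World) (u : List (Fin 2)) : ∀ X, w.run (Tm.st X) u = Tm.st (w.crun X u) := by
  induction u with
  | nil => intro X; rfl
  | cons x u ih =>
    intro X
    show w.run (w.del (Tm.st X) x) u = Tm.st (w.crun (if x = 0 then 2 * X % 2 ^ w.K else w.f X) u)
    unfold del
    dsimp only
    split_ifs with h
    · rw [ih]
    · rw [ih]

theorem run_aw_lt (w : World) (i : ℕ) : i < w.t → w.run w.c0 (aw i) = Tm.sg i := by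
  induction i with
  | zero =>
    intro h
    simp [aw_zero, run, c0]; omega
  | succ i ih =>
    intro h
    rw [aw_add, w.run_append, ih (by omega)]
    simp [aw, run, del, h]

theorem run_aw_t (w : World) : w.run w.c0 (aw w.t) = Tm.st 1 := by
  by_cases h : w.t = 0
  · rw [h]
    simp [aw_zero, run, c0, h]
  · obtain ⟨s, hs⟩ : ∃ s, w.t = s + 1 := ⟨w.t - 1, by omega⟩
    have e : aw w.t = aw s ++ aw 1 := by rw [hs, aw_add]
    rw [e, w.run_append, w.run_aw_lt s (by omega)]
    have : ¬ (s + 1 < w.t) := by omega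
    simp [aw, run, del, this]

noncomputable def F (w : World) (G : Finset ℕ) : Finset Tm :=
  (Finset.range w.t).image Tm.sg ∪ G.image Tm.st

theorem card_F (w : World) (G : Finset ℕ) : (w.F G).card = w.t + G.card := by
  unfold F
  rw [Finset.card_union_of_disjoint, Finset.card_image_of_injective,
    Finset.card_image_of_injective, Finset.card_range]
  · intro a b h; injection h
  · intro a b h; injection h
  · rw [Finset.disjoint_left]
    intro x hx hy
    obtain ⟨i, _, rfl⟩ := Finset.mem_image.1 hx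
    obtain ⟨i', _, h⟩ := Finset.mem_image.1 hy
    injection h

theorem mem_F_sg (w : World) (G : Finset ℕ) (i : ℕ) : Tm.sg i ∈ w.F G ↔ i < w.t := by
  unfold F; simp

theorem mem_F_st (w : World) (G : Finset ℕ) (X : ℕ) : Tm.st X ∈ w.F G ↔ X ∈ G := by
  unfold F; simp

theorem att (w : World) (G : Finset ℕ) (h1 : 1 ∈ G) (hlt : ∀ X ∈ G, X < 2 ^ w.K)
    (ha : ∀ X ∈ G, 2 * X % 2 ^ w.K ∈ G) (hb : ∀ X ∈ G, w.f X ∈ G)
    (hr : ∀ X ∈ G, ∃ u, w.crun 1 u = X) : Att w.n (w.t + G.card) := by
  have hn := w.n_pos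
  have hFok : ∀ c, c ∈ w.F G → w.ok c := by
    intro c hc
    cases c with
    | sg i => exact (w.mem_F_sg G i).1 hc
    | st X => exact hlt X ((w.mem_F_st G X).1 hc)
  have hc0 : w.c0 ∈ w.F G := by
    unfold c0
    split_ifs with h
    · rw [w.mem_F_st]; exact h1
    · rw [w.mem_F_sg]; omega
  have hdel : ∀ c, c ∈ w.F G → ∀ x, w.del c x ∈ w.F G := by
    intro c hc x
    cases c with
    | sg i =>
      unfold del
      dsimp only
      split_ifs with h
      · rw [w.mem_F_sg]; exact h
      · rw [w.mem_F_st]; exact h1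
    | st X =>
      have hX := (w.mem_F_st G X).1 hc
      unfold del
      dsimp only
      split_ifs with h
      · rw [w.mem_F_st]; exact ha X hX
      · rw [w.mem_F_st]; exact hb X hX
  have hrunF : ∀ u : List (Fin 2), ∀ c, c ∈ w.F G → w.run c u ∈ w.F G := by
    intro u
    induction u with
    | nil => intro c hc; exact hc
    | cons x u ih => intro c hc; exact ih _ (hdel c hc x)
  have hreach : ∀ c, c ∈ w.F G → ∃ u, w.run w.c0 u = c := by
    intro c hc
    cases c with
    | sg i => exact ⟨aw i, w.run_aw_lt i ((w.mem_F_sg G i).1 hc)⟩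
    | st X =>
      obtain ⟨u, hu⟩ := hr X ((w.mem_F_st G X).1 hc)
      refine ⟨aw w.t ++ u, ?_⟩
      rw [w.run_append, w.run_aw_t, w.run_st, hu]
  refine ⟨w.M, ⟨⟨0, w.n_pos⟩, rfl⟩, ?_, ?_⟩
  · intro m hm N _ heq
    have hM : ∀ u, u ∈ N.accepts ↔
        u ∈ ({u | w.mem (w.run w.c0 u) (w.n - 1)} : Set (List (Fin 2))) := by
      intro u
      rw [heq, w.accepts]
      rfl
    have h2 : ∀ l, aw l ∈ ({u | w.mem (w.run w.c0 u) (w.n - 1)} : Set (List (Fin 2))) ↔
        l = w.n - 1 := by
      intro l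
      show w.mem (w.run w.c0 (aw l)) (w.n - 1) ↔ _
      rw [w.mem_aw l _ w.ok_c0 _ (by omega), w.mem_c0]
      omega
    have h3 : w.n ≤ m := by
      apply fooling N _ hM (fun i : Fin w.n => aw i.val) (fun i : Fin w.n => aw (w.n - 1 - i.val))
      · rintro ⟨i, hi⟩
        rw [← aw_add, h2]
        show i + (w.n - 1 - i) = w.n - 1
        omega
      · rintro ⟨i, hi⟩ ⟨j, hj⟩ hne
        have hne' : i ≠ j := fun h => hne (Fin.ext h)
        left
        rw [← aw_add, h2]
        show ¬ (i + (w.n - 1 - j) = w.n - 1)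
        omega
    have h4 : w.n = w.t + w.K := rfl
    omega
  · have hmem : ∀ u : List (Fin 2), ({v : List (Fin 2) | u ++ v ∈ w.M.accepts} :
        Set (List (Fin 2))) = {v | w.mem (w.run (w.run w.c0 u) v) (w.n - 1)} := by
      intro u
      ext v
      show u ++ v ∈ w.M.accepts ↔ _
      rw [w.accepts, w.run_append]
      rfl
    have hφ : ∀ c : {c // c ∈ w.F G}, ({v | w.mem (w.run c.1 v) (w.n - 1)} :
        Set (List (Fin 2))) ∈
        Set.range (fun u : List (Fin 2) =>
        ({v : List (Fin 2) | u ++ v ∈ w.M.accepts} : Set (List (Fin 2)))) := by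
      rintro ⟨c, hc⟩
      obtain ⟨u, hu⟩ := hreach c hc
      refine ⟨u, ?_⟩
      show ({v : List (Fin 2) | u ++ v ∈ w.M.accepts} : Set (List (Fin 2))) = _
      rw [hmem u, hu]
    let φ : {c // c ∈ w.F G} → Set.range (fun u : List (Fin 2) =>
        ({v : List (Fin 2) | u ++ v ∈ w.M.accepts} : Set (List (Fin 2)))) :=
      fun c => ⟨_, hφ c⟩
    have hbij : Function.Bijective φ := by
      constructor
      · rintro ⟨c, hc⟩ ⟨c', hc'⟩ hcc
        have h2 : ({v | w.mem (w.run c v) (w.n - 1)} : Set (List (Fin 2))) =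
            {v | w.mem (w.run c' v) (w.n - 1)} := congrArg Subtype.val hcc
        have h3 : c = c' := by
          apply w.inj c c' (hFok c hc) (hFok c' hc')
          intro v
          have h4 : v ∈ ({v | w.mem (w.run c v) (w.n - 1)} : Set (List (Fin 2))) ↔
            v ∈ ({v | w.mem (w.run c' v) (w.n - 1)} : Set (List (Fin 2))) := by rw [h2]
          exact h4
        exact Subtype.ext h3
      · rintro ⟨S, u, hu⟩
        refine ⟨⟨w.run w.c0 u, hrunF u _ hc0⟩, ?_⟩
        apply Subtype.ext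
        show ({v | w.mem (w.run (w.run w.c0 u) v) (w.n - 1)} : Set (List (Fin 2))) = S
        rw [← hu, ← hmem u]
    show Nat.card (Set.range (fun u : List (Fin 2) =>
      ({v : List (Fin 2) | u ++ v ∈ w.M.accepts} : Set (List (Fin 2))))) = w.t + G.card
    rw [← Nat.card_eq_of_bijective φ hbij, ← w.card_F G]
    simp

end World

end Pool.Agent.W713.Magic
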