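import Pool.Agent.W713.TopA

set_option autoImplicit false

namespace Pool.Agent.W713.Magic

/-- contents which cannot be reached -/
inductive Lost (R : Finset ℕ) : ℕ → Prop
  | base (Y : ℕ) : 0 < Y → (∀ c, Y.testBit c = true → c ∈ R) → Lost R (2 * Y + 1)
  | step (Y : ℕ) : Lost R Y → Lost R (2 * Y + 1)

theorem Lost.odd {R : Finset ℕ} {X : ℕ} (h : Lost R X) : X % 2 = 1 := by
  cases h <;> omega

theorem Lost.inv {R : Finset ℕ} {Y : ℕ} (h : Lost R (2 * Y + 1)) :
    (0 < Y ∧ ∀ c, Y.testBit c = true → c ∈ R) ∨ Lost R Y := by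
  generalize hX : 2 * Y + 1 = X at h
  cases h with
  | base Z h1 h2 =>
    have : Y = Z := by omega
    subst this
    exact Or.inl ⟨h1, h2⟩
  | step Z h1 =>
    have : Y = Z := by omega
    subst this
    exact Or.inr h1

theorem Lost.pos {R : Finset ℕ} {X : ℕ} (h : Lost R X) : 0 < X := by
  cases h <;> omega

/-- the content meets a cell which sends a copy to the first cell -/
def Ins (K : ℕ) (R : Finset ℕ) (X : ℕ) : Prop := ∃ c, c + 1 < K ∧ c ∉ R ∧ X.testBit c = true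

open Classical in
noncomputable def dl (K : ℕ) (R : Finset ℕ) (X : ℕ) : ℕ := if Ins K R X then 1 else 0

theorem dl_le (K : ℕ) (R : Finset ℕ) (X : ℕ) : dl K R X ≤ 1 := by
  unfold dl; split_ifs <;> omega

theorem dl_one (K : ℕ) (R : Finset ℕ) (X : ℕ) : dl K R X = 1 ↔ Ins K R X := by
  unfold dl; split_ifs with h <;> simp [h]

theorem dl_zero (K : ℕ) (R : Finset ℕ) (X : ℕ) (h : ¬ Ins K R X) : dl K R X = 0 := by
  unfold dl; rw [if_neg h]

noncomputable def fT (K : ℕ) (R : Finset ℕ) (X : ℕ) : ℕ :=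
  if X < 2 ^ (K - 1) then 2 * X + dl K R X
  else if 2 * X < 3 * 2 ^ (K - 1) then 2 * X - 2 ^ (K - 1) + dl K R X
  else 2 * X - 2 * 2 ^ (K - 1) + dl K R X

def BT (K : ℕ) (R : Finset ℕ) (c k : ℕ) : Prop :=
  (c + 1 < K ∧ k = c + 1) ∨ (c + 1 < K ∧ c ∉ R ∧ k = 0) ∨ (c + 1 = K ∧ k = c)

theorem pow_K {K : ℕ} (hK : 2 ≤ K) : 2 ^ K = 2 * 2 ^ (K - 1) ∧ 2 ^ (K - 1) = 2 * 2 ^ (K - 2) := by
  obtain ⟨s, rfl⟩ : ∃ s, K = s + 2 := ⟨K - 2, by omega⟩
  constructor
  · have : s + 2 - 1 = s + 1 := by omega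
    rw [this]; ring
  · have : s + 2 - 1 = s + 1 := by omega
    rw [this]
    have : s + 2 - 2 = s := by omega
    rw [this]; ring

theorem tb_da (X δ k : ℕ) (hδ : δ ≤ 1) :
    (2 * X + δ).testBit k = true ↔ (k = 0 ∧ δ = 1) ∨ (1 ≤ k ∧ X.testBit (k - 1) = true) := by
  rcases (by omega : δ = 0 ∨ δ = 1) with h | h
  · subst h
    rw [add_zero, tb_even]
    constructor
    · intro h; exact Or.inr h
    · rintro (⟨_, h⟩ | h)
      · omega
      · exact h
  · subst h
    rw [tb_odd]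
    simp

theorem fT_lt (K : ℕ) (hK : 2 ≤ K) (R : Finset ℕ) (X : ℕ) (hX : X < 2 ^ K) :
    fT K R X < 2 ^ K := by
  obtain ⟨e1, e2⟩ := pow_K hK
  have := dl_le K R X
  unfold fT
  split_ifs <;> omega

theorem fT_bit (K : ℕ) (hK : 2 ≤ K) (R : Finset ℕ) (X : ℕ) (hX : X < 2 ^ K) (k : ℕ) (hk : k < K) :
    (fT K R X).testBit k = true ↔
      (k = 0 ∧ Ins K R X) ∨ (1 ≤ k ∧ X.testBit (k - 1) = true) ∨
        (k + 1 = K ∧ 2 ^ (K - 1) ≤ X) := by
  obtain ⟨e1, e2⟩ := pow_K hK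
  have hd := dl_le K R X
  unfold fT
  split_ifs with h1 h2
  · rw [tb_da _ _ _ hd, dl_one]
    constructor
    · rintro (h | h)
      · exact Or.inl h
      · exact Or.inr (Or.inl h)
    · rintro (h | h | h)
      · exact Or.inl h
      · exact Or.inr h
      · omega
  · obtain ⟨Y, hY⟩ : ∃ Y, X = 2 ^ (K - 1) + Y := ⟨X - 2 ^ (K - 1), by omega⟩
    have e3 : 2 * X - 2 ^ (K - 1) + dl K R X = 2 ^ (K - 1) + (2 * Y + dl K R X) := by omega
    rw [e3]
    by_cases hk1 : k + 1 = K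
    · have hk2 : k = K - 1 := by omega
      rw [hk2, Nat.testBit_two_pow_add_eq]
      have h4 : (2 * Y + dl K R X).testBit (K - 1) = false := by
        apply Nat.testBit_lt_two_pow
        omega
      rw [h4]
      constructor
      · intro _; right; right; exact ⟨by omega, by omega⟩
      · intro _; rfl
    · rw [Nat.testBit_two_pow_add_gt (by omega), tb_da _ _ _ hd, dl_one]
      have h5 : 1 ≤ k → X.testBit (k - 1) = Y.testBit (k - 1) := by
        intro _
        rw [hY, Nat.testBit_two_pow_add_gt (by omega)]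
      constructor
      · rintro (h | h)
        · exact Or.inl h
        · exact Or.inr (Or.inl ⟨h.1, by rw [h5 h.1]; exact h.2⟩)
      · rintro (h | h | h)
        · exact Or.inl h
        · exact Or.inr ⟨h.1, by rw [← h5 h.1]; exact h.2⟩
        · omega
  · obtain ⟨Y, hY⟩ : ∃ Y, X = 2 ^ (K - 1) + Y := ⟨X - 2 ^ (K - 1), by omega⟩
    have e3 : 2 * X - 2 * 2 ^ (K - 1) + dl K R X = 2 * Y + dl K R X := by omega
    rw [e3, tb_da _ _ _ hd, dl_one]
    by_cases hk1 : k + 1 = K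
    · constructor
      · intro _; right; right; exact ⟨by omega, by omega⟩
      · intro _
        right
        refine ⟨by omega, ?_⟩
        obtain ⟨Z, hZ⟩ : ∃ Z, Y = 2 ^ (K - 2) + Z := ⟨Y - 2 ^ (K - 2), by omega⟩
        have hk2 : k - 1 = K - 2 := by omega
        rw [hk2, hZ, Nat.testBit_two_pow_add_eq, Nat.testBit_lt_two_pow (by omega)]
        rfl
    · have h5 : 1 ≤ k → X.testBit (k - 1) = Y.testBit (k - 1) := by
        intro _
        rw [hY, Nat.testBit_two_pow_add_gt (by omega)]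
      constructor
      · rintro (h | h)
        · exact Or.inl h
        · exact Or.inr (Or.inl ⟨h.1, by rw [h5 h.1]; exact h.2⟩)
      · rintro (h | h | h)
        · exact Or.inl h
        · exact Or.inr ⟨h.1, by rw [← h5 h.1]; exact h.2⟩
        · omega

theorem top_bit (K : ℕ) (hK : 2 ≤ K) (X : ℕ) (hX : X < 2 ^ K) :
    X.testBit (K - 1) = true ↔ 2 ^ (K - 1) ≤ X := by
  obtain ⟨e1, e2⟩ := pow_K hK
  constructor
  · intro h
    by_contra hc
    rw [Nat.testBit_lt_two_pow (by omega)] at h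
    exact absurd h (by simp)
  · intro h
    obtain ⟨Y, hY⟩ : ∃ Y, X = 2 ^ (K - 1) + Y := ⟨X - 2 ^ (K - 1), by omega⟩
    rw [hY, Nat.testBit_two_pow_add_eq, Nat.testBit_lt_two_pow (by omega)]
    rfl

noncomputable def wT (t K : ℕ) (hK : 2 ≤ K) (R : Finset ℕ) : World where
  K := K
  t := t
  B := BT K R
  f := fT K R
  hK := by omega
  hf := fun X hX => fT_lt K hK R X hX
  hB := by
    intro X hX k hk
    rw [fT_bit K hK R X hX k hk]
    constructor
    · rintro (⟨h1, c, h2, h3, h4⟩ | ⟨h1, h2⟩ | ⟨h1, h2⟩)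
      · exact ⟨c, h4, Or.inr (Or.inl ⟨h2, h3, h1⟩)⟩
      · exact ⟨k - 1, h2, Or.inl ⟨by omega, by omega⟩⟩
      · exact ⟨K - 1, (top_bit K hK X hX).2 h2, Or.inr (Or.inr ⟨by omega, by omega⟩)⟩
    · rintro ⟨c, h1, (⟨h2, h3⟩ | ⟨h2, h3, h4⟩ | ⟨h2, h3⟩)⟩
      · right; left
        refine ⟨by omega, ?_⟩
        rw [h3, Nat.add_sub_cancel]; exact h1
      · left; exact ⟨h4, c, h2, h3, h1⟩
      · right; right
        refine ⟨by omega, (top_bit K hK X hX).1 ?_⟩
        have : c = K - 1 := by omega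
        rw [← this]; exact h1

open Classical in
noncomputable def GT (K : ℕ) (R : Finset ℕ) : Finset ℕ :=
  (Finset.range (2 ^ K)).filter (fun X => ¬ (X < 2 ^ (K - 1) ∧ Lost R X))

theorem mem_GT (K : ℕ) (R : Finset ℕ) (X : ℕ) :
    X ∈ GT K R ↔ X < 2 ^ K ∧ ¬ (X < 2 ^ (K - 1) ∧ Lost R X) := by
  unfold GT; simp

open Classical in
theorem card_GT (K : ℕ) (hK : 2 ≤ K) (R : Finset ℕ) :
    (GT K R).card + ((Finset.range (2 ^ (K - 1))).filter (fun X => Lost R X)).card = 2 ^ K := by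
  obtain ⟨e1, e2⟩ := pow_K hK
  have h1 : ((Finset.range (2 ^ (K - 1))).filter (fun X => Lost R X)) =
      (Finset.range (2 ^ K)).filter (fun X => X < 2 ^ (K - 1) ∧ Lost R X) := by
    ext X
    simp only [Finset.mem_filter, Finset.mem_range]
    constructor
    · rintro ⟨h1, h2⟩; exact ⟨by omega, h1, h2⟩
    · rintro ⟨_, h1, h2⟩; exact ⟨h1, h2⟩
  rw [h1]
  unfold GT
  rw [add_comm, Finset.card_filter_add_card_filter_not, Finset.card_range]

/-- reachability of contents -/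
def Rch (t K : ℕ) (hK : 2 ≤ K) (R : Finset ℕ) (X : ℕ) : Prop :=
  ∃ u, (wT t K hK R).crun 1 u = X

theorem rch_one (t K : ℕ) (hK : 2 ≤ K) (R : Finset ℕ) : Rch t K hK R 1 := ⟨[], rfl⟩

theorem rch_a (t K : ℕ) (hK : 2 ≤ K) (R : Finset ℕ) (X Y : ℕ) (h : Rch t K hK R X)
    (hY : 2 * X % 2 ^ K = Y) : Rch t K hK R Y := by
  obtain ⟨u, hu⟩ := h
  refine ⟨u ++ [0], ?_⟩
  rw [World.crun_append, hu]
  show (if (0 : Fin 2) = 0 then 2 * X % 2 ^ K else fT K R X) = Y
  rw [if_pos rfl, hY]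

theorem rch_b (t K : ℕ) (hK : 2 ≤ K) (R : Finset ℕ) (X Y : ℕ) (h : Rch t K hK R X)
    (hY : fT K R X = Y) : Rch t K hK R Y := by
  obtain ⟨u, hu⟩ := h
  refine ⟨u ++ [1], ?_⟩
  rw [World.crun_append, hu]
  show (if (1 : Fin 2) = 0 then 2 * X % 2 ^ K else fT K R X) = Y
  rw [if_neg (by decide), hY]

theorem rch_ones (t K : ℕ) (hK : 2 ≤ K) (R : Finset ℕ) (h0 : 0 ∉ R) (j : ℕ) (hj : j + 1 ≤ K) :
    Rch t K hK R (2 ^ (j + 1) - 1) := by
  obtain ⟨e1, e2⟩ := pow_K hK
  induction j with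
  | zero => exact rch_one t K hK R
  | succ j ih =>
    apply rch_b t K hK R _ _ (ih (by omega))
    have h1 : 2 ^ (j + 1) ≤ 2 ^ (K - 1) := Nat.pow_le_pow_right (by norm_num) (by omega)
    have h2 : 2 ^ (j + 1) = 2 * 2 ^ j := by ring
    have h3 : 2 ^ (j + 1 + 1) = 2 * 2 ^ (j + 1) := by ring
    have h4 : 0 < 2 ^ j := by positivity
    have hins : dl K R (2 ^ (j + 1) - 1) = 1 := by
      rw [dl_one]
      refine ⟨0, by omega, h0, ?_⟩
      rw [Nat.testBit_zero]
      simp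
    unfold fT
    rw [if_pos (by omega), hins]
    omega

theorem rch_top (t K : ℕ) (hK : 2 ≤ K) (R : Finset ℕ) (h0 : 0 ∉ R) (h1 : K - 2 ∉ R) (l : ℕ)
    (hl : l + 1 ≤ K) : ∀ Z, Z < 2 ^ l → Rch t K hK R (Z + (2 ^ K - 2 ^ l)) := by
  obtain ⟨e1, e2⟩ := pow_K hK
  induction l with
  | zero =>
    intro Z hZ
    have : Z = 0 := by simpa using hZ
    subst this
    have := rch_ones t K hK R h0 (K - 1) (by omega)
    have e : K - 1 + 1 = K := by omega
    rw [e] at this
    simpa using this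
  | succ l ih =>
    intro Z hZ
    have h2 : 2 ^ (l + 1) = 2 * 2 ^ l := by ring
    have h3 : 2 ^ (l + 1) ≤ 2 ^ (K - 1) := Nat.pow_le_pow_right (by norm_num) (by omega)
    have h4 : 0 < 2 ^ l := by positivity
    have ih' := ih (by omega) (Z / 2) (by omega)
    rcases Nat.mod_two_eq_zero_or_one Z with h5 | h5
    · apply rch_a t K hK R _ _ ih'
      have e3 : 2 * (Z / 2 + (2 ^ K - 2 ^ l)) = (Z + (2 ^ K - 2 ^ (l + 1))) + 2 ^ K := by omega
      rw [e3, Nat.add_mod_right]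
      apply Nat.mod_eq_of_lt
      omega
    · apply rch_b t K hK R _ _ ih'
      have hins : dl K R (Z / 2 + (2 ^ K - 2 ^ l)) = 1 := by
        rw [dl_one]
        refine ⟨K - 2, by omega, h1, ?_⟩
        have h6 : 2 ^ l ≤ 2 ^ (K - 2) := Nat.pow_le_pow_right (by norm_num) (by omega)
        obtain ⟨W, hW⟩ : ∃ W, Z / 2 + (2 ^ K - 2 ^ l) = 2 ^ (K - 1) + (2 ^ (K - 2) + W) :=
          ⟨Z / 2 + (2 ^ K - 2 ^ l) - 2 ^ (K - 1) - 2 ^ (K - 2), by omega⟩
        rw [hW, Nat.testBit_two_pow_add_gt (by omega), Nat.testBit_two_pow_add_eq,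
          Nat.testBit_lt_two_pow (by omega)]
        rfl
      unfold fT
      rw [if_neg (by omega), if_neg (by omega), hins]
      omega

theorem rch_all (t K : ℕ) (hK : 2 ≤ K) (R : Finset ℕ) (h0 : 0 ∉ R) (h1 : K - 2 ∉ R) (X : ℕ) :
    X ∈ GT K R → Rch t K hK R X := by
  obtain ⟨e1, e2⟩ := pow_K hK
  have htop : ∀ Y, Y < 2 ^ (K - 1) → Rch t K hK R (Y + 2 ^ (K - 1)) := by
    intro Y hY
    have := rch_top t K hK R h0 h1 (K - 1) (by omega) Y hY
    have e : 2 ^ K - 2 ^ (K - 1) = 2 ^ (K - 1) := by omega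
    rwa [e] at this
  induction X using Nat.strong_induction_on with
  | _ X ih =>
    intro hX
    rw [mem_GT] at hX
    obtain ⟨hX1, hX2⟩ := hX
    by_cases h2 : 2 ^ (K - 1) ≤ X
    · have := htop (X - 2 ^ (K - 1)) (by omega)
      have e : X - 2 ^ (K - 1) + 2 ^ (K - 1) = X := by omega
      rwa [e] at this
    · have hL : ¬ Lost R X := fun h => hX2 ⟨by omega, h⟩
      rcases Nat.mod_two_eq_zero_or_one X with h5 | h5
      · apply rch_a t K hK R _ _ (htop (X / 2) (by omega))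
        have e3 : 2 * (X / 2 + 2 ^ (K - 1)) = X + 2 ^ K := by omega
        rw [e3, Nat.add_mod_right]
        exact Nat.mod_eq_of_lt hX1
      · by_cases h6 : X = 1
        · subst h6; exact rch_one t K hK R
        · obtain ⟨Y, hY⟩ : ∃ Y, X = 2 * Y + 1 := ⟨X / 2, by omega⟩
          subst hY
          have hY0 : 0 < Y := by omega
          have h7 : ¬ (∀ c, Y.testBit c = true → c ∈ R) := fun h => hL (Lost.base Y hY0 h)
          push Not at h7
          obtain ⟨c, hc1, hc2⟩ := h7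
          have hc3 : c < K - 2 := tb_lt (show Y < 2 ^ (K - 2) by omega) hc1
          have h8 : Rch t K hK R Y := by
            apply ih Y (by omega)
            rw [mem_GT]
            refine ⟨by omega, ?_⟩
            rintro ⟨_, h⟩
            exact hL (Lost.step Y h)
          apply rch_b t K hK R _ _ h8
          have hins : dl K R Y = 1 := by
            rw [dl_one]
            exact ⟨c, by omega, hc2, hc1⟩
          unfold fT
          rw [if_pos (by omega), hins]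

open Classical in
theorem att_top (t K : ℕ) (hK : 2 ≤ K) (R : Finset ℕ) (h0 : 0 ∉ R) (h1 : K - 2 ∉ R) :
    Att (t + K)
      (t + (2 ^ K - ((Finset.range (2 ^ (K - 1))).filter (fun X => Lost R X)).card)) := by
  obtain ⟨e1, e2⟩ := pow_K hK
  have hpos : 0 < 2 ^ (K - 2) := by positivity
  have h2 := (wT t K hK R).att (GT K R) ?_ ?_ ?_ ?_ ?_
  · have h3 := card_GT K hK R
    have e : (GT K R).card =
        2 ^ K - ((Finset.range (2 ^ (K - 1))).filter (fun X => Lost R X)).card := by omega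
    rw [e] at h2
    exact h2
  · rw [mem_GT]
    refine ⟨by omega, ?_⟩
    rintro ⟨_, h⟩
    rcases h.inv (Y := 0) with ⟨h, _⟩ | h
    · omega
    · exact absurd h.pos (by omega)
  · intro X hX
    exact ((mem_GT K R X).1 hX).1
  · intro X hX
    show 2 * X % 2 ^ K ∈ GT K R
    rw [mem_GT]
    refine ⟨Nat.mod_lt _ (by positivity), ?_⟩
    rintro ⟨_, h⟩
    have h3 := h.odd
    have h4 : 2 ∣ 2 ^ K := ⟨2 ^ (K - 1), e1⟩
    rw [Nat.mod_mod_of_dvd _ h4] at h3
    omega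
  · intro X hX
    show fT K R X ∈ GT K R
    obtain ⟨hX1, hX2⟩ := (mem_GT K R X).1 hX
    rw [mem_GT]
    refine ⟨fT_lt K hK R X hX1, ?_⟩
    rintro ⟨h3, h4⟩
    have hd := dl_le K R X
    unfold fT at h3 h4
    split_ifs at h3 h4 with h5 h6
    · have h7 := h4.odd
      have h8 : dl K R X = 1 := by omega
      rw [h8] at h4
      rcases h4.inv with ⟨h9, h10⟩ | h9
      · obtain ⟨c, hc1, hc2, hc3⟩ := (dl_one K R X).1 h8
        exact hc2 (h10 c hc3)
      · exact hX2 ⟨h5, h9⟩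
    · omega
    · omega
  · intro X hX
    exact rch_all t K hK R h0 h1 X hX

end Pool.Agent.W713.Magic
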