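import Pool.Agent.W713.TopB

set_option autoImplicit false

namespace Pool.Agent.W713.Magic

/-- number of contents below `2 ^ i` inside `R` -/
def an (R : Finset ℕ) : ℕ → ℕ
  | 0 => 1
  | i + 1 => an R i * (if i ∈ R then 2 else 1)

open Classical in
theorem card_an (R : Finset ℕ) (i : ℕ) :
    ((Finset.range (2 ^ i)).filter (fun Y => ∀ c, Y.testBit c = true → c ∈ R)).card = an R i := by
  induction i with
  | zero =>
    have : (Finset.range (2 ^ 0)).filter (fun Y => ∀ c, Y.testBit c = true → c ∈ R) = {0} := by
      ext Y
      simp only [pow_zero, Finset.mem_filter, Finset.mem_range, Finset.mem_singleton]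
      constructor
      · rintro ⟨h, _⟩; omega
      · intro h; subst h; exact ⟨by omega, by intro c hc; simp at hc⟩
    rw [this]; rfl
  | succ i ih =>
    have h1 : (Finset.range (2 ^ (i + 1))).filter (fun Y => ∀ c, Y.testBit c = true → c ∈ R) =
        (Finset.range (2 ^ i)).filter (fun Y => ∀ c, Y.testBit c = true → c ∈ R) ∪
        (if i ∈ R then ((Finset.range (2 ^ i)).filter
          (fun Y => ∀ c, Y.testBit c = true → c ∈ R)).image (fun Y => 2 ^ i + Y) else ∅) := by
      have hb : ∀ Y, Y < 2 ^ i → ((∀ c, (2 ^ i + Y).testBit c = true → c ∈ R) ↔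
          (i ∈ R ∧ ∀ c, Y.testBit c = true → c ∈ R)) := by
        intro Y hY
        have hi : (2 ^ i + Y).testBit i = true := by
          rw [Nat.testBit_two_pow_add_eq, Nat.testBit_lt_two_pow hY]; rfl
        constructor
        · intro h
          refine ⟨h i hi, ?_⟩
          intro c hc
          have hc' := tb_lt hY hc
          apply h c
          rw [Nat.testBit_two_pow_add_gt hc']; exact hc
        · rintro ⟨h2, h3⟩ c hc
          have h4 : 2 ^ i + Y < 2 ^ (i + 1) := by rw [pow_succ]; omega
          have h5 := tb_lt h4 hc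
          rcases Nat.lt_or_ge c i with h6 | h6
          · rw [Nat.testBit_two_pow_add_gt h6] at hc
            exact h3 c hc
          · have : c = i := by omega
            rw [this]; exact h2
      ext Y
      have e1 : 2 ^ (i + 1) = 2 ^ i + 2 ^ i := by rw [pow_succ]; ring
      rw [Finset.mem_union]
      simp only [Finset.mem_filter, Finset.mem_range]
      constructor
      · rintro ⟨h2, h3⟩
        by_cases h4 : Y < 2 ^ i
        · exact Or.inl ⟨h4, h3⟩
        · right
          obtain ⟨Z, hZ⟩ : ∃ Z, Y = 2 ^ i + Z := ⟨Y - 2 ^ i, by omega⟩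
          subst hZ
          have h5 := (hb Z (by omega)).1 h3
          rw [if_pos h5.1]
          refine Finset.mem_image.2 ⟨Z, ?_, rfl⟩
          rw [Finset.mem_filter, Finset.mem_range]
          exact ⟨by omega, h5.2⟩
      · rintro (⟨h2, h3⟩ | h2)
        · exact ⟨by omega, h3⟩
        · split_ifs at h2 with h3
          · obtain ⟨Z, h4, h5⟩ := Finset.mem_image.1 h2
            rw [Finset.mem_filter, Finset.mem_range] at h4
            subst h5
            exact ⟨by omega, (hb Z h4.1).2 ⟨h3, h4.2⟩⟩
          · simp at h2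
    rw [h1, Finset.card_union_of_disjoint, ih]
    · show an R i + _ = an R i * (if i ∈ R then 2 else 1)
      split_ifs with h2
      · rw [Finset.card_image_of_injective, ih]
        · ring
        · intro a b hab
          have : 2 ^ i + a = 2 ^ i + b := hab
          omega
      · simp
    · rw [Finset.disjoint_left]
      intro x hx hy
      split_ifs at hy with h2
      · obtain ⟨Z, _, h5⟩ := Finset.mem_image.1 hy
        have h3 := Finset.mem_range.1 (Finset.mem_filter.1 hx).1
        omega
      · simp at hy

open Classical in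
theorem card_lost (R : Finset ℕ) (h0 : 0 ∉ R) (i : ℕ) :
    ((Finset.range (2 ^ i)).filter (fun X => Lost R X)).card + i =
      ∑ j ∈ Finset.range i, an R j := by
  induction i with
  | zero =>
    have : (Finset.range (2 ^ 0)).filter (fun X => Lost R X) = ∅ := by
      ext X
      simp only [pow_zero, Finset.mem_filter, Finset.mem_range, Finset.notMem_empty, iff_false]
      rintro ⟨h, h1⟩
      have := h1.pos
      omega
    rw [this]; simp
  | succ i ih =>
    have e1 : 2 ^ (i + 1) = 2 * 2 ^ i := by ring
    have hpos : 0 < 2 ^ i := by positivity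
    have h1 : (Finset.range (2 ^ (i + 1))).filter (fun X => Lost R X) =
        (((Finset.range (2 ^ i)).filter (fun Y => 0 < Y ∧ ∀ c, Y.testBit c = true → c ∈ R)) ∪
        ((Finset.range (2 ^ i)).filter (fun X => Lost R X))).image (fun Y => 2 * Y + 1) := by
      ext X
      simp only [Finset.mem_image, Finset.mem_union, Finset.mem_filter, Finset.mem_range]
      constructor
      · rintro ⟨h2, h3⟩
        have h4 := h3.odd
        obtain ⟨Y, hY⟩ : ∃ Y, X = 2 * Y + 1 := ⟨X / 2, by omega⟩
        subst hY
        refine ⟨Y, ?_, rfl⟩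
        rcases h3.inv with h5 | h5
        · exact Or.inl ⟨by omega, h5⟩
        · exact Or.inr ⟨by omega, h5⟩
      · rintro ⟨Y, h2 | h2, h3⟩
        · rw [← h3]
          exact ⟨by omega, Lost.base Y h2.2.1 h2.2.2⟩
        · rw [← h3]
          exact ⟨by omega, Lost.step Y h2.2⟩
    have h2 : ((Finset.range (2 ^ i)).filter
        (fun Y => 0 < Y ∧ ∀ c, Y.testBit c = true → c ∈ R)).card + 1 = an R i := by
      rw [← card_an R i]
      have h3 : (Finset.range (2 ^ i)).filter (fun Y => ∀ c, Y.testBit c = true → c ∈ R) =
          insert 0 ((Finset.range (2 ^ i)).filter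
            (fun Y => 0 < Y ∧ ∀ c, Y.testBit c = true → c ∈ R)) := by
        ext Y
        simp only [Finset.mem_insert, Finset.mem_filter, Finset.mem_range]
        constructor
        · rintro ⟨h4, h5⟩
          rcases Nat.eq_zero_or_pos Y with h6 | h6
          · exact Or.inl h6
          · exact Or.inr ⟨h4, h6, h5⟩
        · rintro (h4 | ⟨h4, _, h5⟩)
          · subst h4
            exact ⟨hpos, by intro c hc; simp at hc⟩
          · exact ⟨h4, h5⟩
      rw [h3, Finset.card_insert_of_notMem]
      simp
    rw [h1, Finset.card_image_of_injective, Finset.card_union_of_disjoint,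
      Finset.sum_range_succ, ← ih, ← h2]
    · ring
    · rw [Finset.disjoint_left]
      intro x hx hy
      rw [Finset.mem_filter] at hx hy
      have h3 := hy.2.odd
      have h4 : x.testBit 0 = true := by
        rw [Nat.testBit_zero]; simp [h3]
      exact h0 (hx.2.2 0 h4)
    · intro a b hab
      have : 2 * a + 1 = 2 * b + 1 := hab
      omega

def Rep (K M : ℕ) : Prop :=
  ∃ R : Finset ℕ, (∀ r ∈ R, 1 ≤ r ∧ r + 3 ≤ K) ∧ ∑ j ∈ Finset.range (K - 1), an R j = M

theorem an_empty (i : ℕ) : an ∅ i = 1 := by
  induction i with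
  | zero => rfl
  | succ i ih => simp [an, ih]

theorem rep_base (K : ℕ) : Rep K (K - 1) :=
  ⟨∅, by simp, by simp [an_empty]⟩

theorem mem_im (R : Finset ℕ) (i : ℕ) : i + 1 ∈ R.image Nat.succ ↔ i ∈ R := by
  simp

theorem zero_im (R : Finset ℕ) : 0 ∉ R.image Nat.succ := by
  simp

theorem an_im (R : Finset ℕ) (i : ℕ) : an (R.image Nat.succ) (i + 1) = an R i := by
  induction i with
  | zero => simp [an]
  | succ i ih =>
    show an (R.image Nat.succ) (i + 1) * (if i + 1 ∈ R.image Nat.succ then 2 else 1) =
      an R i * (if i ∈ R then 2 else 1)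
    rw [ih]
    simp only [mem_im]

theorem rep_succ (K M : ℕ) (hK : 1 ≤ K) (h : Rep K M) : Rep (K + 1) (M + 1) := by
  obtain ⟨R, h1, h2⟩ := h
  refine ⟨R.image Nat.succ, ?_, ?_⟩
  · intro r hr
    obtain ⟨s, hs, rfl⟩ := Finset.mem_image.1 hr
    have := h1 s hs
    constructor <;> omega
  · have e : K + 1 - 1 = (K - 1) + 1 := by omega
    rw [e, Finset.sum_range_succ']
    simp only [an_im]
    rw [h2]
    rfl

theorem an_ins (R : Finset ℕ) (h0 : 0 ∉ R) (i : ℕ) :
    an (insert 1 (R.image Nat.succ)) (i + 2) = 2 * an R (i + 1) := by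
  induction i with
  | zero => simp [an, h0]
  | succ i ih =>
    show an (insert 1 (R.image Nat.succ)) (i + 2) *
      (if i + 2 ∈ insert 1 (R.image Nat.succ) then 2 else 1) =
      2 * (an R (i + 1) * (if i + 1 ∈ R then 2 else 1))
    rw [ih]
    have : i + 2 ∈ insert 1 (R.image Nat.succ) ↔ i + 1 ∈ R := by
      rw [Finset.mem_insert]
      constructor
      · rintro (h | h)
        · omega
        · exact (mem_im R (i + 1)).1 h
      · intro h; exact Or.inr ((mem_im R (i + 1)).2 h)
    simp only [this]
    ring

theorem rep_dbl (K M : ℕ) (hK : 3 ≤ K) (h : Rep K M) : Rep (K + 1) (2 * M) := by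
  obtain ⟨R, h1, h2⟩ := h
  have h0 : 0 ∉ R := fun h => by have := h1 0 h; omega
  refine ⟨insert 1 (R.image Nat.succ), ?_, ?_⟩
  · intro r hr
    rcases Finset.mem_insert.1 hr with hr | hr
    · constructor <;> omega
    · obtain ⟨s, hs, rfl⟩ := Finset.mem_image.1 hr
      have := h1 s hs
      constructor <;> omega
  · obtain ⟨k, hk⟩ : ∃ k, K = k + 2 := ⟨K - 2, by omega⟩
    subst hk
    have e : k + 2 + 1 - 1 = k + 1 + 1 := by omega
    have e' : k + 2 - 1 = k + 1 := by omega
    rw [e'] at h2
    rw [e, Finset.sum_range_succ', Finset.sum_range_succ']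
    simp only [an_ins R h0, zero_add]
    rw [Finset.sum_range_succ'] at h2
    rw [← Finset.mul_sum]
    have e3 : an (insert 1 (R.image Nat.succ)) 1 = 1 := by simp [an]
    have e4 : an (insert 1 (R.image Nat.succ)) 0 = 1 := rfl
    have e5 : an R 0 = 1 := rfl
    rw [e3, e4]
    rw [e5] at h2
    omega

/-- length of the binary expansion plus number of ones -/
def bl (M : ℕ) : ℕ := (Nat.digits 2 M).length + (Nat.digits 2 M).sum

theorem bl_even (m : ℕ) (hm : 0 < m) : bl (2 * m) = bl m + 1 := by
  unfold bl
  rw [Nat.digits_def' (by norm_num) (by omega : 0 < 2 * m)]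
  have e1 : 2 * m / 2 = m := by omega
  have e2 : 2 * m % 2 = 0 := by omega
  rw [e1, e2]
  simp only [List.length_cons, List.sum_cons]
  ring

theorem bl_odd (m : ℕ) : bl (2 * m + 1) = bl m + 2 := by
  unfold bl
  rw [Nat.digits_def' (by norm_num) (by omega : 0 < 2 * m + 1)]
  have e1 : (2 * m + 1) / 2 = m := by omega
  have e2 : (2 * m + 1) % 2 = 1 := by omega
  rw [e1, e2]
  simp only [List.length_cons, List.sum_cons]
  ring

theorem bl_le (y : ℕ) : bl y ≤ y + 1 := by
  induction y using Nat.strong_induction_on with
  | _ y ih =>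
    rcases Nat.eq_zero_or_pos y with h0 | h0
    · subst h0; simp [bl]
    · rcases Nat.mod_two_eq_zero_or_one y with h | h
      · obtain ⟨m, hm⟩ : ∃ m, y = 2 * m := ⟨y / 2, by omega⟩
        subst hm
        rw [bl_even m (by omega)]
        have := ih m (by omega)
        omega
      · obtain ⟨m, hm⟩ : ∃ m, y = 2 * m + 1 := ⟨y / 2, by omega⟩
        subst hm
        rw [bl_odd m]
        rcases Nat.eq_zero_or_pos m with h1 | h1
        · subst h1; simp [bl]
        · have := ih m (by omega)
          omega

theorem rep_all (K : ℕ) (hK : 3 ≤ K) : ∀ M, K ≤ M + 1 → bl M ≤ K → Rep K M := by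
  induction K, hK using Nat.le_induction with
  | base =>
    intro M h1 h2
    have h3 : M = 2 := by
      by_contra hne
      have h4 : 3 ≤ M := by omega
      rcases Nat.mod_two_eq_zero_or_one M with h | h
      · obtain ⟨m, hm⟩ : ∃ m, M = 2 * m := ⟨M / 2, by omega⟩
        subst hm
        rw [bl_even m (by omega)] at h2
        rcases Nat.mod_two_eq_zero_or_one m with h' | h'
        · obtain ⟨l, hl⟩ : ∃ l, m = 2 * l := ⟨m / 2, by omega⟩
          subst hl
          rw [bl_even l (by omega)] at h2
          rcases Nat.mod_two_eq_zero_or_one l with h'' | h''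
          · obtain ⟨k, hk⟩ : ∃ k, l = 2 * k := ⟨l / 2, by omega⟩
            subst hk
            rw [bl_even k (by omega)] at h2
            have h5 : bl k = 0 := by omega
            have h6 : k = 0 := by
              unfold bl at h5
              have h7 : (Nat.digits 2 k).length = 0 := by omega
              have h8 : Nat.digits 2 k = [] := List.length_eq_zero_iff.1 h7
              exact Nat.digits_eq_nil_iff_eq_zero.1 h8
            omega
          · obtain ⟨k, hk⟩ : ∃ k, l = 2 * k + 1 := ⟨l / 2, by omega⟩
            subst hk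
            rw [bl_odd k] at h2
            omega
        · obtain ⟨l, hl⟩ : ∃ l, m = 2 * l + 1 := ⟨m / 2, by omega⟩
          subst hl
          rw [bl_odd l] at h2
          have h5 : bl l = 0 := by omega
          have h6 : l = 0 := by
            unfold bl at h5
            have h7 : (Nat.digits 2 l).length = 0 := by omega
            have h8 : Nat.digits 2 l = [] := List.length_eq_zero_iff.1 h7
            exact Nat.digits_eq_nil_iff_eq_zero.1 h8
          omega
      · obtain ⟨m, hm⟩ : ∃ m, M = 2 * m + 1 := ⟨M / 2, by omega⟩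
        subst hm
        rw [bl_odd m] at h2
        rcases Nat.mod_two_eq_zero_or_one m with h' | h'
        · obtain ⟨l, hl⟩ : ∃ l, m = 2 * l := ⟨m / 2, by omega⟩
          subst hl
          rw [bl_even l (by omega)] at h2
          have h5 : bl l = 0 := by omega
          have h6 : l = 0 := by
            unfold bl at h5
            have h7 : (Nat.digits 2 l).length = 0 := by omega
            have h8 : Nat.digits 2 l = [] := List.length_eq_zero_iff.1 h7
            exact Nat.digits_eq_nil_iff_eq_zero.1 h8
          omega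
        · obtain ⟨l, hl⟩ : ∃ l, m = 2 * l + 1 := ⟨m / 2, by omega⟩
          subst hl
          rw [bl_odd l] at h2
          omega
    rw [h3]
    exact rep_base 3
  | succ K hK ih =>
    intro M h1 h2
    rcases Nat.eq_or_lt_of_le h1 with h3 | h3
    · have : M = K + 1 - 1 := by omega
      rw [this]; exact rep_base (K + 1)
    · rcases Nat.mod_two_eq_zero_or_one M with h | h
      · obtain ⟨m, hm⟩ : ∃ m, M = 2 * m := ⟨M / 2, by omega⟩
        subst hm
        by_cases h4 : K ≤ m + 1
        · rw [bl_even m (by omega)] at h2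
          exact rep_dbl K m hK (ih m h4 (by omega))
        · obtain ⟨y, hy⟩ : ∃ y, m = y + 1 := ⟨m - 1, by omega⟩
          subst hy
          have e : 2 * (y + 1) = (2 * y + 1) + 1 := by ring
          rw [e]
          apply rep_succ K _ (by omega)
          apply ih _ (by omega)
          rw [bl_odd]
          have := bl_le y
          omega
      · obtain ⟨m, hm⟩ : ∃ m, M = 2 * m + 1 := ⟨M / 2, by omega⟩
        subst hm
        apply rep_succ K _ (by omega)
        apply ih _ (by omega)
        rw [bl_odd] at h2
        rw [bl_even m (by omega)]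
        omega

theorem att_near (n K M : ℕ) (hK : 3 ≤ K) (hKn : K ≤ n) (hM : K ≤ M + 1) (hb : bl M ≤ K) :
    Att n (2 ^ K + n - 1 - M) := by
  obtain ⟨R, h1, h2⟩ := rep_all K hK M hM hb
  have h0 : 0 ∉ R := fun h => by have := h1 0 h; omega
  have h3 : K - 2 ∉ R := fun h => by have := h1 _ h; omega
  obtain ⟨t, ht⟩ : ∃ t, n = t + K := ⟨n - K, by omega⟩
  subst ht
  have h4 := att_top t K (by omega) R h0 h3
  classical
  have h5 := card_lost R h0 (K - 1)
  rw [h2] at h5
  have h6 := card_GT K (by omega) R
  have e : t + (2 ^ K - ((Finset.range (2 ^ (K - 1))).filter (fun X => Lost R X)).card) =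
      2 ^ K + (t + K) - 1 - M := by
    omega
  rw [← e]
  convert h4

end Pool.Agent.W713.Magic
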